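import Mathlib
import Pool.Agent.Lib.MP_455133_co.Defs

/-!
Definitions for the windows `t = k (s - 1) + b`.
-/

namespace Pool.Agent.Lib.MP_455133_co.WN

open Finset

/-- the number of `r`-sets inside the parts of a balanced partition of `n` points in `k` parts -/
def bal (k n r : ℕ) : ℕ := (k - n % k) * (n / k).choose r + (n % k) * (n / k + 1).choose r

variable {V : Type*} [DecidableEq V]

/-- the number of members of `G` containing `v` -/
def dg (G : Finset (Finset V)) (v : V) : ℕ := (G.filter fun e => v ∈ e).card

/-- the number of members of `G` containing `u` and `v` -/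
def cd (G : Finset (Finset V)) (u v : V) : ℕ := (G.filter fun e => u ∈ e ∧ v ∈ e).card

/-- the members of `G` inside the union of the parts `P i` but inside no part -/
def cross {n k : ℕ} (G : Finset (Finset (Fin n))) (P : Fin k → Finset (Fin n)) :
    Finset (Finset (Fin n)) :=
  G.filter fun e => e ⊆ univ.biUnion P ∧ ∀ i, ¬ e ⊆ P i

/-- the `q`-sets `g` in the part `P i` for which `g` together with `v` is not a member of `G` -/
def miss {n k : ℕ} (q : ℕ) (G : Finset (Finset (Fin n))) (P : Fin k → Finset (Fin n))
    (v : Fin n) (i : Fin k) : Finset (Finset (Fin n)) :=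
  (powersetCard q (P i)).filter fun g => v ∉ g ∧ insert v g ∉ G

end Pool.Agent.Lib.MP_455133_co.WN
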