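import Mathlib
import Pool.Agent.Lib.MP_455133_co.WN.WDefs

/-!
The number of `r`-sets inside the parts of a balanced partition.
-/

namespace Pool.Agent.Lib.MP_455133_co.WN

open Finset

/-- PROOF: Pascal. Two cases: `(n + 1) % k = 0` (then `n % k = k - 1`, `(n+1)/k = n/k + 1`) or not
(`Nat.succ_div`, `Nat.add_mod`). -/
theorem bal_succ {k : ℕ} (hk : 1 ≤ k) (n r : ℕ) :
    bal k (n + 1) (r + 1) = bal k n (r + 1) + (n / k).choose r := by
  have hm : n % k < k := Nat.mod_lt n hk
  have hn : n % k + k * (n / k) = n := Nat.mod_add_div n k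
  have hp : (n / k + 1).choose (r + 1) = (n / k).choose r + (n / k).choose (r + 1) := Nat.choose_succ_succ _ _
  generalize n / k = q at *
  generalize n % k = m at *
  subst hn
  unfold bal
  have h1 : (m + k * q) / k = q ∧ (m + k * q) % k = m := (Nat.div_mod_unique hk).2 ⟨rfl, hm⟩
  rw [h1.1, h1.2]
  by_cases h : m + 1 = k
  · have h2 : (m + k * q + 1) / k = q + 1 ∧ (m + k * q + 1) % k = 0 :=
      (Nat.div_mod_unique hk).2 ⟨by rw [mul_add, mul_one]; omega, hk⟩
    rw [h2.1, h2.2, hp]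
    have h3 : k - m = 1 := by omega
    have h4 : k - 0 = m + 1 := by omega
    rw [h3, h4]
    ring
  · have h2 : (m + k * q + 1) / k = q ∧ (m + k * q + 1) % k = m + 1 :=
      (Nat.div_mod_unique hk).2 ⟨by omega, by omega⟩
    rw [h2.1, h2.2, hp]
    obtain ⟨e, he⟩ : ∃ e, k = m + 1 + e := ⟨k - (m + 1), by omega⟩
    have h3 : k - m = e + 1 := by omega
    have h4 : k - (m + 1) = e := by omega
    rw [h3, h4]
    ring

/-- PROOF: induction over `d` with `bal_succ`, `Nat.choose_le_choose`. -/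
theorem bal_add {k : ℕ} (hk : 1 ≤ k) (n r d : ℕ) :
    bal k n (r + 1) + d * (n / k).choose r ≤ bal k (n + d) (r + 1) := by
  induction d with
  | zero => simp
  | succ d ih =>
    have h1 : (n / k).choose r ≤ ((n + d) / k).choose r :=
      Nat.choose_le_choose r (Nat.div_le_div_right (Nat.le_add_right n d))
    rw [← add_assoc, bal_succ hk, add_mul, one_mul, ← add_assoc]
    exact add_le_add ih h1

theorem bal_mono {k : ℕ} (hk : 1 ≤ k) {m n : ℕ} (h : m ≤ n) (r : ℕ) :
    bal k m (r + 1) ≤ bal k n (r + 1) := by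
  obtain ⟨d, rfl⟩ := Nat.exists_eq_add_of_le h
  exact le_trans (Nat.le_add_right _ _) (bal_add hk m r d)

private theorem Bal_up (q r d : ℕ) : q.choose (r + 1) + d * q.choose r ≤ (q + d).choose (r + 1) := by
  induction d with
  | zero => simp
  | succ d ih =>
    have h1 : q.choose r ≤ (q + d).choose r := Nat.choose_le_choose r (Nat.le_add_right q d)
    have h3 : (q + (d + 1)).choose (r + 1) = (q + d).choose r + (q + d).choose (r + 1) := by
      rw [← add_assoc, Nat.choose_succ_succ]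
    rw [h3, add_mul, one_mul]
    omega

private theorem Bal_down (x r d : ℕ) : (x + d).choose (r + 1) ≤ x.choose (r + 1) + d * (x + d).choose r := by
  induction d with
  | zero => simp
  | succ d ih =>
    have h1 : (x + d).choose r ≤ (x + (d + 1)).choose r :=
      Nat.choose_le_choose r (Nat.add_le_add_left (Nat.le_succ d) x)
    have h2 : d * (x + d).choose r ≤ d * (x + (d + 1)).choose r := Nat.mul_le_mul_left d h1
    have h3 : (x + (d + 1)).choose (r + 1) = (x + d).choose r + (x + d).choose (r + 1) := by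
      rw [← add_assoc, Nat.choose_succ_succ]
    rw [h3, add_mul, one_mul]
    omega

private theorem Bal_tan (q x r : ℕ) :
    (q.choose (r + 1) : ℤ) + ((x : ℤ) - q) * (q.choose r : ℤ) ≤ (x.choose (r + 1) : ℤ) := by
  rcases le_total q x with h | h
  · obtain ⟨d, rfl⟩ := Nat.exists_eq_add_of_le h
    have h1 := Bal_up q r d
    have h2 : ((q.choose (r + 1) + d * q.choose r : ℕ) : ℤ) ≤ (((q + d).choose (r + 1) : ℕ) : ℤ) := by
      exact_mod_cast h1
    push_cast at h2 ⊢
    linarith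
  · obtain ⟨d, rfl⟩ := Nat.exists_eq_add_of_le h
    have h1 := Bal_down x r d
    have h2 : (((x + d).choose (r + 1) : ℕ) : ℤ) ≤ ((x.choose (r + 1) + d * (x + d).choose r : ℕ) : ℤ) := by
      exact_mod_cast h1
    push_cast at h2 ⊢
    linarith

/-- PROOF: with `q = n / k`, `n = ∑ x i`: for all `x`, in `ℤ`,
`C(x, r+1) ≥ C(q, r+1) + (x - q) C(q, r)` (induction upwards and downwards from `q`, Pascal).
Sum over `i`: the right side is `k C(q, r+1) + (n - k q) C(q, r) = bal k n (r+1)`. -/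
theorem bal_le_sum {k : ℕ} (hk : 1 ≤ k) (x : Fin k → ℕ) (r : ℕ) :
    bal k (∑ i, x i) (r + 1) ≤ ∑ i, (x i).choose (r + 1) := by
  have hn0 : (∑ i, x i) % k + k * ((∑ i, x i) / k) = ∑ i, x i := Nat.mod_add_div _ k
  have hm : (∑ i, x i) % k < k := Nat.mod_lt _ hk
  have hsum : ((∑ i, x i : ℕ) : ℤ) = ∑ i, (x i : ℤ) := by push_cast; rfl
  have h1 : ∀ q : ℕ, (k : ℤ) * (q.choose (r + 1) : ℤ) + (((∑ i, x i : ℕ) : ℤ) - k * q) * (q.choose r : ℤ) ≤
      ((∑ i, (x i).choose (r + 1) : ℕ) : ℤ) := by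
    intro q
    have h2 : ∑ i : Fin k, ((q.choose (r + 1) : ℤ) + ((x i : ℤ) - q) * (q.choose r : ℤ)) ≤
        ∑ i : Fin k, ((x i).choose (r + 1) : ℤ) := Finset.sum_le_sum fun i _ => Bal_tan q (x i) r
    rw [Finset.sum_add_distrib, ← Finset.sum_mul, Finset.sum_sub_distrib, Finset.sum_const, Finset.sum_const,
      Finset.card_univ, Fintype.card_fin, nsmul_eq_mul, nsmul_eq_mul, ← hsum] at h2
    push_cast at h2 ⊢
    exact h2
  have h3 := h1 ((∑ i, x i) / k)
  have hp : ((∑ i, x i) / k + 1).choose (r + 1) =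
      ((∑ i, x i) / k).choose r + ((∑ i, x i) / k).choose (r + 1) := Nat.choose_succ_succ _ _
  unfold bal
  rw [hp]
  generalize (∑ i, x i) / k = q at *
  generalize (∑ i, x i) % k = m at *
  obtain ⟨e, he⟩ : ∃ e, k = m + e := ⟨k - m, by omega⟩
  have h4 : k - m = e := by omega
  rw [h4]
  have h5 : (((∑ i, x i : ℕ) : ℤ) - k * q) = m := by
    rw [← hn0]
    push_cast
    ring
  rw [h5] at h3
  have h7 : (k : ℤ) = m + e := by exact_mod_cast he
  rw [h7] at h3
  have h6 : ((e * q.choose (r + 1) + m * (q.choose r + q.choose (r + 1)) : ℕ) : ℤ) ≤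
      ((∑ i, (x i).choose (r + 1) : ℕ) : ℤ) := by
    refine le_trans (le_of_eq ?_) h3
    push_cast
    ring
  exact_mod_cast h6

private theorem Bal_pow (n s : ℕ) : n ^ (s + 1) + (s + 1) * n ^ s ≤ (n + 1) ^ (s + 1) := by
  induction s with
  | zero => simp
  | succ s ih =>
    have h1 : (n + 1) ^ (s + 1 + 1) = (n + 1) ^ (s + 1) * (n + 1) := pow_succ _ _
    have h2 : (n ^ (s + 1) + (s + 1) * n ^ s) * (n + 1) ≤ (n + 1) ^ (s + 1) * (n + 1) :=
      Nat.mul_le_mul_right _ ih
    rw [h1]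
    refine le_trans ?_ h2
    have h3 : (n ^ (s + 1) + (s + 1) * n ^ s) * (n + 1) =
        n ^ (s + 1 + 1) + (s + 1 + 1) * n ^ (s + 1) + (s + 1) * n ^ s := by
      rw [pow_succ n (s + 1), pow_succ n s]
      ring
    rw [h3]
    exact Nat.le_add_right _ _

/-- PROOF: induction over `n` with `bal_succ`: `k ^ r (r+1)! C(n/k, r) ≤ (r+1) (k (n/k)) ^ r
≤ (r+1) n ^ r` (`Nat.choose_le_pow_div` or `Nat.descFactorial_le_pow`) and
`n ^ (r+1) + (r+1) n ^ r ≤ (n+1) ^ (r+1)` (Bernoulli, or the first two terms of the binomial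
theorem). -/
theorem bal_upper {k : ℕ} (hk : 1 ≤ k) (n r : ℕ) :
    k ^ r * (r + 1).factorial * bal k n (r + 1) ≤ n ^ (r + 1) := by
  induction n with
  | zero =>
    have h1 : bal k 0 (r + 1) = 0 := by
      unfold bal
      rw [Nat.zero_mod, Nat.zero_div, Nat.choose_zero_succ, Nat.mul_zero, Nat.zero_mul]
    rw [h1, Nat.mul_zero]
    exact Nat.zero_le _
  | succ n ih =>
    rw [bal_succ hk, mul_add]
    refine le_trans (add_le_add ih ?_) (Bal_pow n r)
    have h1 : r.factorial * (n / k).choose r ≤ (n / k) ^ r := by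
      rw [← Nat.descFactorial_eq_factorial_mul_choose]
      exact Nat.descFactorial_le_pow _ _
    have h2 : (k * (n / k)) ^ r ≤ n ^ r := Nat.pow_le_pow_left (Nat.mul_div_le n k) r
    calc k ^ r * (r + 1).factorial * (n / k).choose r = (r + 1) * (k ^ r * (r.factorial * (n / k).choose r)) := by
          rw [Nat.factorial_succ]
          ring
      _ ≤ (r + 1) * (k ^ r * (n / k) ^ r) :=
          Nat.mul_le_mul_left _ (Nat.mul_le_mul_left _ h1)
      _ = (r + 1) * (k * (n / k)) ^ r := by rw [mul_pow]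
      _ ≤ (r + 1) * n ^ r := Nat.mul_le_mul_left _ h2

/-- PROOF: `bal k n (r+1) ≥ k C(n/k, r+1)`, `(r+1)! C(q, r+1) = q.descFactorial (r+1) ≥
(q - r) ^ (r+1)` (`Nat.pow_sub_le_descFactorial`), and `n - k (r+1) ≤ k (n/k - r)` as
`n < k (n/k) + k`. -/
theorem bal_lower {k : ℕ} (hk : 1 ≤ k) (n r : ℕ) :
    (n - k * (r + 1)) ^ (r + 1) ≤ k ^ r * (r + 1).factorial * bal k n (r + 1) := by
  have hm : n % k < k := Nat.mod_lt n hk
  have hn : n % k + k * (n / k) = n := Nat.mod_add_div n k
  have h0 : k * (n / k).choose (r + 1) ≤ bal k n (r + 1) := by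
    have h1 : (n / k).choose (r + 1) ≤ (n / k + 1).choose (r + 1) :=
      Nat.choose_le_choose _ (Nat.le_succ _)
    unfold bal
    have h2 : k * (n / k).choose (r + 1) = (k - n % k) * (n / k).choose (r + 1) + (n % k) * (n / k).choose (r + 1) := by
      rw [← add_mul, Nat.sub_add_cancel hm.le]
    rw [h2]
    exact Nat.add_le_add_left (Nat.mul_le_mul_left _ h1) _
  have h3 : (n / k - r) ^ (r + 1) ≤ (r + 1).factorial * (n / k).choose (r + 1) := by
    rw [← Nat.descFactorial_eq_factorial_mul_choose]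
    have h4 := Nat.pow_sub_le_descFactorial (n / k) (r + 1)
    rwa [Nat.add_sub_add_right] at h4
  have h5 : n - k * (r + 1) ≤ k * (n / k - r) := by
    rw [Nat.mul_sub, mul_add, mul_one]
    generalize k * (n / k) = u at *
    generalize k * r = w at *
    omega
  calc (n - k * (r + 1)) ^ (r + 1) ≤ (k * (n / k - r)) ^ (r + 1) := Nat.pow_le_pow_left h5 _
    _ = k ^ (r + 1) * (n / k - r) ^ (r + 1) := mul_pow _ _ _
    _ ≤ k ^ (r + 1) * ((r + 1).factorial * (n / k).choose (r + 1)) := Nat.mul_le_mul_left _ h3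
    _ = k ^ r * (r + 1).factorial * (k * (n / k).choose (r + 1)) := by
        rw [pow_succ]
        ring
    _ ≤ k ^ r * (r + 1).factorial * bal k n (r + 1) := Nat.mul_le_mul_left _ h0

end Pool.Agent.Lib.MP_455133_co.WN
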