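import Mathlib
import Pool.Agent.Lib.MP_455133_co.WN.WDefs

/-!
A covering family for `t = k a + b` contains one for `t = k a' + 1` after the deletion of few points.
-/

namespace Pool.Agent.Lib.MP_455133_co.WN

open Finset

/-- PROOF. Call `T` bad for `x` if `|T| = k x + 1` and `|T ∩ A| ≤ x` for all `A ∈ 𝒜`. If there are
pairwise disjoint sets `T_1, ..., T_(b-1)` bad for `a₀` and `T_b` bad for `a - (b-1) a₀`, then their
union has `k a + b` points, so it contains some `A ∈ 𝒜`, and `a + 1 = |A| = ∑ |A ∩ T_i| ≤ a`, a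
contradiction. Induction over `i`: for `i ≤ b - 1` either the conclusion holds, or there is a set
`U_i` with `|U_i| = i (k a₀ + 1)` and `|U_i ∩ A| ≤ i a₀` for all `A ∈ 𝒜` (step: `W = U_iᶜ`,
`a' = a₀`; if there is `T ⊆ W`, bad for `a₀`, then `U_(i+1) = U_i ∪ T`). For `i = b - 1` take
`W = U_(b-1)ᶜ`, `a' = a - (b-1) a₀`: if `T ⊆ W` is bad for `a'`, then `U_(b-1) ∪ T` has `k a + b`
points and meets each `A` in at most `a` points, a contradiction. -/
theorem exists_window {n k a b a₀ : ℕ} (hb : 1 ≤ b) (hab : b * a₀ ≤ a)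
    {𝒜 : Finset (Finset (Fin n))} (h : IsCovering (a + 1) (k * a + b) 𝒜) :
    ∃ a' : ℕ, (a' = a₀ ∨ a' = a - (b - 1) * a₀) ∧ ∃ W : Finset (Fin n),
      n ≤ W.card + (b - 1) * (k * a₀ + 1) ∧
      ∀ T ⊆ W, T.card = k * a' + 1 → ∃ A ∈ 𝒜, a' + 1 ≤ (T ∩ A).card := by
  by_contra hcon
  have hN : ∀ a' : ℕ, (a' = a₀ ∨ a' = a - (b - 1) * a₀) → ∀ W : Finset (Fin n),
      n ≤ W.card + (b - 1) * (k * a₀ + 1) →
      ∃ T ⊆ W, T.card = k * a' + 1 ∧ ∀ A ∈ 𝒜, (T ∩ A).card ≤ a' := by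
    intro a' ha' W hW
    by_contra h1
    refine hcon ⟨a', ha', W, hW, fun T hT hc => ?_⟩
    by_contra h2
    refine h1 ⟨T, hT, hc, fun A hA => ?_⟩
    by_contra h3
    exact h2 ⟨A, hA, by omega⟩
  have hind : ∀ i : ℕ, i ≤ b - 1 → ∃ U : Finset (Fin n), U.card = i * (k * a₀ + 1) ∧
      ∀ A ∈ 𝒜, (U ∩ A).card ≤ i * a₀ := by
    intro i
    induction i with
    | zero =>
      intro _
      exact ⟨∅, by simp, fun A _ => by simp⟩
    | succ i ih =>
      intro hi
      obtain ⟨U, hU, hUA⟩ := ih (by omega)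
      have hW : n ≤ (Uᶜ).card + (b - 1) * (k * a₀ + 1) := by
        have h1 : (Uᶜ).card + U.card = n := by
          rw [card_compl_add_card, Fintype.card_fin]
        have h2 : i * (k * a₀ + 1) ≤ (b - 1) * (k * a₀ + 1) := Nat.mul_le_mul_right _ (by omega)
        omega
      obtain ⟨T, hT, hTc, hTA⟩ := hN a₀ (Or.inl rfl) Uᶜ hW
      have hd : Disjoint U T := (disjoint_compl_right (a := U)).mono_right hT
      refine ⟨U ∪ T, ?_, fun A hA => ?_⟩
      · rw [card_union_of_disjoint hd, hU, hTc]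
        ring
      · have h3 := hUA A hA
        have h4 := hTA A hA
        have h5 : ((U ∪ T) ∩ A).card ≤ (U ∩ A).card + (T ∩ A).card := by
          rw [union_inter_distrib_right]
          exact card_union_le _ _
        have h6 : (i + 1) * a₀ = i * a₀ + a₀ := by ring
        omega
  obtain ⟨U, hU, hUA⟩ := hind (b - 1) le_rfl
  have hW : n ≤ (Uᶜ).card + (b - 1) * (k * a₀ + 1) := by
    have h1 : (Uᶜ).card + U.card = n := by
      rw [card_compl_add_card, Fintype.card_fin]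
    omega
  obtain ⟨T, hT, hTc, hTA⟩ := hN (a - (b - 1) * a₀) (Or.inr rfl) Uᶜ hW
  have hd : Disjoint U T := (disjoint_compl_right (a := U)).mono_right hT
  have hle : (b - 1) * a₀ ≤ a := (Nat.mul_le_mul_right a₀ (Nat.sub_le b 1)).trans hab
  obtain ⟨c, hc⟩ : ∃ c, a = (b - 1) * a₀ + c := ⟨a - (b - 1) * a₀, by omega⟩
  obtain ⟨b', rfl⟩ : ∃ b', b = b' + 1 := ⟨b - 1, by omega⟩
  have hc' : a - (b' + 1 - 1) * a₀ = c := by omega
  rw [hc'] at hTc hTA
  simp only [Nat.add_sub_cancel] at hU hUA hc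
  have hcard : (U ∪ T).card = k * a + (b' + 1) := by
    rw [card_union_of_disjoint hd, hU, hTc, hc]
    ring
  obtain ⟨A, hA, hAs⟩ := h.2 _ hcard
  have h1 := h.1 A hA
  have h2 := hUA A hA
  have h3 := hTA A hA
  have h4 : A.card ≤ (U ∩ A).card + (T ∩ A).card := by
    calc A.card = ((U ∪ T) ∩ A).card := by rw [inter_eq_right.2 hAs]
      _ ≤ (U ∩ A).card + (T ∩ A).card := by
        rw [union_inter_distrib_right]
        exact card_union_le _ _
  omega

/-- PROOF. `φ = W.orderEmbOfFin rfl` (or `W.equivFin`), `𝒜'` the family of all `(a'+1)`-sets `B` of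
`Fin W.card` with `B.map φ ⊆ A` for some `A ∈ 𝒜`. Covering: for `C` with `|C| = t'` apply `h` to
`C.map φ`, take `a' + 1` points of `C.map φ ∩ A`, they are `B.map φ` for some `B ⊆ C`. -/
theorem transport {n a' t' : ℕ} {𝒜 : Finset (Finset (Fin n))} {W : Finset (Fin n)}
    (h : ∀ T ⊆ W, T.card = t' → ∃ A ∈ 𝒜, a' + 1 ≤ (T ∩ A).card) :
    ∃ (φ : Fin W.card ↪ Fin n) (𝒜' : Finset (Finset (Fin W.card))),
      (∀ x, φ x ∈ W) ∧ IsCovering (a' + 1) t' 𝒜' ∧
      ∀ r, ∀ e ∈ lowerShadow r 𝒜', e.map φ ∈ lowerShadow r 𝒜 := by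
  classical
  have hφ : ∀ x, (W.orderEmbOfFin rfl).toEmbedding x ∈ W := fun x => W.orderEmbOfFin_mem rfl x
  have hr : ∀ y ∈ W, ∃ x, (W.orderEmbOfFin rfl).toEmbedding x = y := by
    intro y hy
    have h1 : y ∈ Set.range (W.orderEmbOfFin rfl) := by
      rw [range_orderEmbOfFin]
      exact hy
    exact h1
  generalize (W.orderEmbOfFin rfl).toEmbedding = φ at hφ hr
  refine ⟨φ, (powersetCard (a' + 1) univ).filter fun B => ∃ A ∈ 𝒜, B.map φ ⊆ A, hφ, ⟨?_, ?_⟩, ?_⟩
  · intro B hB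
    exact (mem_powersetCard.1 (mem_filter.1 hB).1).2
  · intro C hC
    obtain ⟨A, hA, hAc⟩ := h (C.map φ) (fun y hy => by
      obtain ⟨x, _, rfl⟩ := mem_map.1 hy
      exact hφ x) (by rw [card_map, hC])
    obtain ⟨D, hD, hDc⟩ := exists_subset_card_eq hAc
    have h1 : ∀ y ∈ D, y ∈ C.map φ := fun y hy => (mem_inter.1 (hD hy)).1
    have h2 : (C.filter fun x => φ x ∈ D).map φ = D := by
      ext y
      simp only [mem_map, mem_filter]
      constructor
      · rintro ⟨x, ⟨_, hx⟩, rfl⟩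
        exact hx
      · intro hy
        obtain ⟨x, hx, rfl⟩ := mem_map.1 (h1 y hy)
        exact ⟨x, ⟨hx, hy⟩, rfl⟩
    refine ⟨C.filter fun x => φ x ∈ D, mem_filter.2 ⟨mem_powersetCard.2 ⟨subset_univ _, ?_⟩, A, hA, ?_⟩,
      filter_subset _ _⟩
    · rw [← card_map φ, h2, hDc]
    · rw [h2]
      exact fun y hy => (mem_inter.1 (hD hy)).2
  · intro r e he
    obtain ⟨h1, B, hB, heB⟩ := mem_filter.1 he
    obtain ⟨_, A, hA, hBA⟩ := mem_filter.1 hB
    refine mem_filter.2 ⟨mem_powersetCard.2 ⟨subset_univ _, ?_⟩, A, hA, ?_⟩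
    · rw [card_map]
      exact (mem_powersetCard.1 h1).2
    · exact (map_subset_map.2 heB).trans hBA

end Pool.Agent.Lib.MP_455133_co.WN
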