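import Mathlib
import Pool.Agent.Lib.MP_455133_co.LS.Main2
import Pool.Agent.Lib.MP_455133_co.WN.Bal
import Pool.Agent.Lib.MP_455133_co.WN.Window

/-!
The explicit bounds in the windows.
-/

namespace Pool.Agent.Lib.MP_455133_co.WN

open Finset

/-- PROOF. `f_le_blocks` (Blocks.lean, as in `LR.upper_balanced`) with `k` blocks of total size
`n - (b - 1)` and balanced sizes (`LR.balanced_sum`, `LR.balanced_choose`). -/
theorem window_upper {n r k a b : ℕ} (hk : 1 ≤ k) (hb : 1 ≤ b) (hn : b ≤ n + 1) :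
    f n r (a + 1) (k * a + b) ≤ bal k (n - (b - 1)) r := by
  have h1 := LR.balanced_sum k (n - (b - 1)) hk
  have h := f_le_blocks (n := n) (r := r) (s := a + 1) (t := k * a + b) (l := k)
    (fun i => (n - (b - 1)) / k + if (i : ℕ) < (n - (b - 1)) % k then 1 else 0)
    (by rw [h1]; exact Nat.sub_le _ _) (by rw [h1, Nat.add_sub_cancel]; omega) (Nat.le_add_left _ _)
  rwa [LR.balanced_choose k (n - (b - 1)) r hk] at h

/-- PROOF. `exists_window`, `transport` (the map `e ↦ e.map φ` is injective, so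
`|lowerShadow r 𝒜'| ≤ |lowerShadow r 𝒜|`), `f_le`, `LS.turan_exact2` for `N = |W|`, `s - 1 = a'`
(`a₀ ≤ a' ≤ a`), `bal_mono`. -/
theorem window_lower {n r k a b a₀ : ℕ} (hr : 3 ≤ r)
    (hc : (r - 1) * ((r - 1) ^ 2 + 1) ≤ 2 * a₀ ∨ 6 * (r - 1) ^ 2 ≤ a₀) (hk : 1 ≤ k)
    (hb : 1 ≤ b) (hab : b * a₀ ≤ a)
    (hn : k * ((a - 1) / (r - 1) + a) + (b - 1) * (k * a₀ + 1) ≤ n) :
    bal k (n - (b - 1) * (k * a₀ + 1)) r ≤ f n r (a + 1) (k * a + b) := by
  have hst : a + 1 ≤ k * a + b := by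
    have := Nat.mul_le_mul_right a hk
    omega
  obtain ⟨𝒜, h𝒜, hf⟩ := f_spec (n := n) (r := r) hst
  obtain ⟨a', ha', W, hW, hT⟩ := exists_window hb hab h𝒜
  obtain ⟨φ, 𝒜', -, hcov, hsh⟩ := transport hT
  have hb1 : b * a₀ = (b - 1) * a₀ + a₀ := by
    obtain ⟨c, rfl⟩ : ∃ c, b = c + 1 := ⟨b - 1, by omega⟩
    rw [Nat.add_sub_cancel]
    ring
  have h1 : a₀ ≤ a' := by
    rcases ha' with h | h <;> omega
  have h2 : a' ≤ a := by
    rcases ha' with h | h <;> omega
  have h3 : (lowerShadow r 𝒜').card ≤ (lowerShadow r 𝒜).card :=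
    card_le_card_of_injOn (fun e => e.map φ) (fun e he => hsh r e he)
      fun e _ e' _ h => Finset.map_injective φ h
  have h4 := f_le (r := r) hcov
  have h5 : (a' + 1 - 2) / (r - 1) ≤ (a - 1) / (r - 1) := Nat.div_le_div_right (by omega)
  have h6 : k * ((a' + 1 - 2) / (r - 1) + (a' + 1 - 1)) ≤ k * ((a - 1) / (r - 1) + a) :=
    Nat.mul_le_mul_left k (by omega)
  have h7 := LS.turan_exact2 (n := W.card) (r := r) (s := a' + 1) (k := k) hr (by
    rw [Nat.add_sub_cancel]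
    rcases hc with h | h
    · left
      omega
    · right
      omega) hk (by omega)
  rw [Nat.add_sub_cancel] at h7
  have h8 : bal k W.card r ≤ f n r (a + 1) (k * a + b) := by
    rw [hf]
    refine le_trans ?_ h3
    refine le_trans ?_ h4
    rw [h7]
    exact le_refl _
  refine le_trans ?_ h8
  obtain ⟨q, rfl⟩ : ∃ q, r = q + 1 := ⟨r - 1, by omega⟩
  exact bal_mono hk (by omega) q

end Pool.Agent.Lib.MP_455133_co.WN
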