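import Mathlib
import Pool.Agent.Lib.MP_455133_co.WN.Bal

/-!
The final count.
-/

namespace Pool.Agent.Lib.MP_455133_co.WN

open Finset

/-- A union bound: the members of `Y` which meet `U`. -/
private theorem count_meet {n : ℕ} (Y Z : Finset (Finset (Fin n))) (U : Finset (Fin n)) {c : ℝ}
    (hZ : Z ⊆ Y) (hU : ∀ e ∈ Z, ∃ v ∈ U, v ∈ e) (hc : ∀ v ∈ U, (dg Y v : ℝ) ≤ c) :
    (Z.card : ℝ) ≤ U.card * c := by
  classical
  have h1 : Z ⊆ U.biUnion fun v => Y.filter fun e => v ∈ e := by
    intro e he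
    obtain ⟨v, hv, hve⟩ := hU e he
    exact mem_biUnion.2 ⟨v, hv, mem_filter.2 ⟨hZ he, hve⟩⟩
  have h2 : (Z.card : ℝ) ≤ ∑ v ∈ U, (dg Y v : ℝ) := by
    have := (card_le_card h1).trans card_biUnion_le
    calc (Z.card : ℝ) ≤ ((∑ v ∈ U, (Y.filter fun e => v ∈ e).card : ℕ) : ℝ) := by
          exact_mod_cast this
      _ = ∑ v ∈ U, (dg Y v : ℝ) := by
          push_cast
          rfl
  calc (Z.card : ℝ) ≤ ∑ v ∈ U, (dg Y v : ℝ) := h2
    _ ≤ ∑ _v ∈ U, c := sum_le_sum hc
    _ = U.card * c := by rw [sum_const, nsmul_eq_mul]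

/-- Double counting. -/
private theorem count_sum {n q : ℕ} (X : Finset (Finset (Fin n))) (hX : ∀ e ∈ X, e.card = q) :
    ∑ v : Fin n, dg X v = q * X.card := by
  classical
  unfold dg
  have h1 : ∀ v : Fin n, (X.filter fun e => v ∈ e).card = ∑ e ∈ X, if v ∈ e then 1 else 0 := by
    intro v
    rw [card_filter]
  rw [sum_congr rfl fun v _ => h1 v, sum_comm]
  have h2 : ∀ e ∈ X, ∑ v : Fin n, (if v ∈ e then 1 else 0) = q := by
    intro e he
    rw [← card_filter, filter_mem_eq_inter, univ_inter, hX e he]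
  rw [sum_congr rfl h2, sum_const, smul_eq_mul, mul_comm]

/-- PROOF. Let `Y` be the set of the `(p+3)`-sets inside a part which are not in `G`; each `v` lies
in at most `2 δ n ^ (p+2)` members of `Y` (`e ↦ e.erase v` maps them into `miss v i`, `v ∈ P i`).
Call `v` heavy if `dg (cross G P) v > δ₂ n ^ (p+2)`; their number `h` satisfies
`h δ₂ n ^ (p+2) ≤ (p+3) |cross|`. `Yb` = the members of `Y` containing a heavy point:
`|Yb| ≤ 2 δ n ^ (p+2) h`, so `δ₂ |Yb| ≤ 2 δ (p+3) |cross| ≤ δ₂ |cross|`, `|Yb| ≤ |cross|`.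
`Ya = Y \ Yb`: take a maximal family `M ⊆ Ya` of pairwise disjoint sets; by `hM`
`|M| ≤ d := b - 1 - |J|`; each member of `Ya` has a point in the union of `M`, so
`|Ya| ≤ (p+3) d 2 δ n ^ (p+2) ≤ d C((n-(b-1))/k, p+2)`. Finally
`|G| ≥ ∑ C(|P i|, p+3) - |Y| + |cross| ≥ bal k (n - |J|) (p+3) - |Ya|` (`bal_le_sum`,
`∑ |P i| = n - |J|`) `≥ bal k (n-(b-1)) (p+3)` by `bal_add` with `d`. -/
theorem final_count {p k b n : ℕ} (hk : 1 ≤ k) (hbn : b ≤ n) {δ δ₂ : ℝ} (hδ : 0 < δ)
    (hδ₂ : 2 * ((p : ℝ) + 3) * δ ≤ δ₂)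
    (hn : 2 * ((p : ℝ) + 3) * δ * (n : ℝ) ^ (p + 2) ≤ (((n - (b - 1)) / k).choose (p + 2) : ℝ))
    {G : Finset (Finset (Fin n))} {P : Fin k → Finset (Fin n)} {J : Finset (Fin n)}
    (hG : ∀ e ∈ G, e.card = p + 3) (hP : ∀ i j, i ≠ j → Disjoint (P i) (P j))
    (hPJ : univ.biUnion P = univ \ J)
    (hlow : ∀ i, ∀ v ∈ P i, ((miss (p + 2) G P v i).card : ℝ) ≤ 2 * δ * (n : ℝ) ^ (p + 2))
    (hM : ∀ M : Finset (Finset (Fin n)), (∀ e ∈ M, e.card = p + 3 ∧ e ∉ G ∧ (∃ i, e ⊆ P i) ∧
        ∀ v ∈ e, (dg (cross G P) v : ℝ) ≤ δ₂ * (n : ℝ) ^ (p + 2)) →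
      (∀ e ∈ M, ∀ e' ∈ M, e ≠ e' → Disjoint e e') → J.card + M.card < b) :
    bal k (n - (b - 1)) (p + 3) ≤ G.card := by
  classical
  set N : ℝ := (n : ℝ) ^ (p + 2) with hN
  have hN0 : 0 ≤ N := by positivity
  have hp3 : (0 : ℝ) < (p : ℝ) + 3 := by positivity
  have hδ2 : 0 < δ₂ := lt_of_lt_of_le (by positivity) hδ₂
  -- the missing sets inside a part
  set S : Finset (Finset (Fin n)) := univ.biUnion fun i => powersetCard (p + 3) (P i) with hS
  set Y : Finset (Finset (Fin n)) := S.filter fun e => e ∉ G with hY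
  have hSmem : ∀ e, e ∈ S ↔ e.card = p + 3 ∧ ∃ i, e ⊆ P i := by
    intro e
    rw [hS, mem_biUnion]
    constructor
    · rintro ⟨i, -, h⟩
      rw [mem_powersetCard] at h
      exact ⟨h.2, i, h.1⟩
    · rintro ⟨h, i, h'⟩
      exact ⟨i, mem_univ _, mem_powersetCard.2 ⟨h', h⟩⟩
  have hScard : S.card = ∑ i, ((P i).card).choose (p + 3) := by
    rw [hS, card_biUnion]
    · exact sum_congr rfl fun i _ => card_powersetCard _ _
    · intro i _ j _ hij
      rw [Function.onFun, disjoint_left]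
      intro e he he'
      rw [mem_powersetCard] at he he'
      have h1 : e.Nonempty := card_pos.1 (by omega)
      obtain ⟨v, hv⟩ := h1
      exact disjoint_left.1 (hP i j hij) (he.1 hv) (he'.1 hv)
  -- each point is in few missing sets
  have hdg : ∀ v, (dg Y v : ℝ) ≤ 2 * δ * N := by
    intro v
    by_cases hv : ∃ i, v ∈ P i
    · obtain ⟨i, hi⟩ := hv
      refine le_trans ?_ (hlow i v hi)
      have : dg Y v ≤ (miss (p + 2) G P v i).card := by
        unfold dg
        refine card_le_card_of_injOn (fun e => e.erase v) ?_ ?_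
        · intro e he
          rw [mem_coe, mem_filter, hY, mem_filter, hSmem] at he
          obtain ⟨⟨⟨hc, j, hj⟩, hG'⟩, hve⟩ := he
          have hij : j = i := by
            by_contra hne
            exact disjoint_left.1 (hP j i hne) (hj hve) hi
          subst hij
          rw [mem_coe]
          unfold miss
          rw [mem_filter, mem_powersetCard]
          refine ⟨⟨(erase_subset _ _).trans hj, ?_⟩, notMem_erase _ _, ?_⟩
          · rw [card_erase_of_mem hve, hc]
            rfl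
          · rw [insert_erase hve]
            exact hG'
        · intro e he e' he' h
          rw [mem_coe, mem_filter] at he he'
          simp only at h
          rw [← insert_erase he.2, ← insert_erase he'.2, h]
      exact_mod_cast this
    · have h0 : dg Y v = 0 := by
        unfold dg
        rw [card_eq_zero, filter_eq_empty_iff]
        intro e he hve
        rw [hY, mem_filter, hSmem] at he
        obtain ⟨⟨-, j, hj⟩, -⟩ := he
        exact hv ⟨j, hj hve⟩
      rw [h0]
      push_cast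
      positivity
  -- heavy points
  set H : Finset (Fin n) := univ.filter fun v => δ₂ * N < (dg (cross G P) v : ℝ) with hH
  have hHcard : (H.card : ℝ) * (δ₂ * N) ≤ ((p : ℝ) + 3) * ((cross G P).card : ℝ) := by
    have h1 : ∑ v : Fin n, dg (cross G P) v = (p + 3) * (cross G P).card :=
      count_sum _ fun e he => hG e (mem_filter.1 he).1
    calc (H.card : ℝ) * (δ₂ * N) = ∑ _v ∈ H, δ₂ * N := by rw [sum_const, nsmul_eq_mul]
      _ ≤ ∑ v ∈ H, (dg (cross G P) v : ℝ) := sum_le_sum fun v hv => (mem_filter.1 hv).2.le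
      _ ≤ ∑ v : Fin n, (dg (cross G P) v : ℝ) :=
          sum_le_sum_of_subset_of_nonneg (subset_univ _) fun _ _ _ => Nat.cast_nonneg _
      _ = ((p : ℝ) + 3) * ((cross G P).card : ℝ) := by
          have := congrArg (fun x : ℕ => (x : ℝ)) h1
          push_cast at this
          exact this
  set Yb : Finset (Finset (Fin n)) := Y.filter fun e => ∃ v ∈ H, v ∈ e with hYb
  set Ya : Finset (Finset (Fin n)) := Y.filter fun e => ¬ ∃ v ∈ H, v ∈ e with hYa
  have hYab : Yb.card + Ya.card = Y.card := card_filter_add_card_filter_not _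
  have hYbc : Yb.card ≤ (cross G P).card := by
    have h1 : (Yb.card : ℝ) ≤ H.card * (2 * δ * N) :=
      count_meet Y Yb H (filter_subset _ _) (fun e he => (mem_filter.1 he).2) fun v _ => hdg v
    have h2 : δ₂ * (Yb.card : ℝ) ≤ δ₂ * ((cross G P).card : ℝ) := by
      calc δ₂ * (Yb.card : ℝ) ≤ δ₂ * (H.card * (2 * δ * N)) :=
            mul_le_mul_of_nonneg_left h1 hδ2.le
        _ = 2 * δ * (H.card * (δ₂ * N)) := by ring
        _ ≤ 2 * δ * (((p : ℝ) + 3) * ((cross G P).card : ℝ)) :=
            mul_le_mul_of_nonneg_left hHcard (by positivity)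
        _ = (2 * ((p : ℝ) + 3) * δ) * ((cross G P).card : ℝ) := by ring
        _ ≤ δ₂ * ((cross G P).card : ℝ) :=
            mul_le_mul_of_nonneg_right hδ₂ (Nat.cast_nonneg _)
    exact_mod_cast le_of_mul_le_mul_left h2 hδ2
  -- a maximal disjoint family
  obtain ⟨M, hMm, hMmax⟩ := exists_max_image
    (Ya.powerset.filter fun M => ∀ e ∈ M, ∀ e' ∈ M, e ≠ e' → Disjoint e e') Finset.card
    ⟨∅, mem_filter.2 ⟨empty_mem_powerset _, fun e he => absurd he (notMem_empty e)⟩⟩
  rw [mem_filter, mem_powerset] at hMm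
  have hYamem : ∀ e ∈ Ya, e.card = p + 3 ∧ e ∉ G ∧ (∃ i, e ⊆ P i) ∧
      ∀ v ∈ e, (dg (cross G P) v : ℝ) ≤ δ₂ * N := by
    intro e he
    rw [hYa, mem_filter, hY, mem_filter, hSmem] at he
    obtain ⟨⟨⟨hc, hi⟩, hG'⟩, hh⟩ := he
    refine ⟨hc, hG', hi, fun v hv => ?_⟩
    by_contra hcon
    exact hh ⟨v, mem_filter.2 ⟨mem_univ _, not_le.1 hcon⟩, hv⟩
  have hJM : J.card + M.card < b := hM M (fun e he => hYamem e (hMm.1 he)) hMm.2
  have hYac : Ya.card ≤ M.card * ((n - (b - 1)) / k).choose (p + 2) := by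
    have hmeet : ∀ e ∈ Ya, ∃ v ∈ M.biUnion id, v ∈ e := by
      intro e he
      by_contra hcon
      have hdis : ∀ e' ∈ M, Disjoint e e' := by
        intro e' he'
        rw [disjoint_left]
        intro v hv hv'
        exact hcon ⟨v, mem_biUnion.2 ⟨e', he', hv'⟩, hv⟩
      have heM : e ∉ M := by
        intro h
        have h1 : e.Nonempty := card_pos.1 (by rw [(hYamem e he).1]; omega)
        have h2 := hdis e h
        rw [disjoint_self] at h2
        rw [h2] at h1
        exact not_nonempty_empty h1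
      have h3 := hMmax (insert e M) (mem_filter.2 ⟨mem_powerset.2 (insert_subset he hMm.1), ?_⟩)
      · rw [card_insert_of_notMem heM] at h3
        omega
      · intro a ha a' ha' hne
        rcases mem_insert.1 ha with h4 | h4
        · rcases mem_insert.1 ha' with h5 | h5
          · exact absurd (h4.trans h5.symm) hne
          · rw [h4]
            exact hdis a' h5
        · rcases mem_insert.1 ha' with h5 | h5
          · rw [h5]
            exact (hdis a h4).symm
          · exact hMm.2 a h4 a' h5 hne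
    have h1 : (Ya.card : ℝ) ≤ (M.biUnion id).card * (2 * δ * N) :=
      count_meet Y Ya _ (filter_subset _ _) hmeet fun v _ => hdg v
    have h2 : (M.biUnion id).card ≤ M.card * (p + 3) :=
      card_biUnion_le_card_mul _ _ _ fun e he => (hYamem e (hMm.1 he)).1.le
    have h3 : (Ya.card : ℝ) ≤ (M.card : ℝ) * (((n - (b - 1)) / k).choose (p + 2) : ℝ) := by
      calc (Ya.card : ℝ) ≤ (M.biUnion id).card * (2 * δ * N) := h1
        _ ≤ ((M.card : ℝ) * ((p : ℝ) + 3)) * (2 * δ * N) := by
            refine mul_le_mul_of_nonneg_right ?_ (by positivity)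
            exact_mod_cast h2
        _ = (M.card : ℝ) * (2 * ((p : ℝ) + 3) * δ * N) := by ring
        _ ≤ _ := mul_le_mul_of_nonneg_left hn (Nat.cast_nonneg _)
    exact_mod_cast h3
  -- the count
  have hG1 : (S.filter fun e => e ∈ G).card + (cross G P).card ≤ G.card := by
    rw [← card_union_of_disjoint]
    · refine card_le_card (union_subset (fun e he => (mem_filter.1 he).2) (filter_subset _ _))
    · rw [disjoint_left]
      intro e he he'
      rw [mem_filter, hSmem] at he
      obtain ⟨⟨-, i, hi⟩, -⟩ := he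
      exact (mem_filter.1 he').2.2 i hi
  have hS1 : (S.filter fun e => e ∈ G).card + Y.card = S.card :=
    card_filter_add_card_filter_not _
  have hPsum : ∑ i, (P i).card = n - J.card := by
    rw [← card_biUnion fun i _ j _ hij => hP i j hij, hPJ, card_sdiff_of_subset (subset_univ _),
      card_univ, Fintype.card_fin]
  have hb1 : bal k (n - J.card) (p + 3) ≤ S.card := by
    rw [hScard, ← hPsum]
    exact bal_le_sum hk (fun i => (P i).card) (p + 2)
  have hb2 := bal_add hk (n - (b - 1)) (p + 2) (b - 1 - J.card)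
  have hb3 : n - (b - 1) + (b - 1 - J.card) = n - J.card := by omega
  rw [hb3] at hb2
  have hb4 : M.card * ((n - (b - 1)) / k).choose (p + 2) ≤
      (b - 1 - J.card) * ((n - (b - 1)) / k).choose (p + 2) := Nat.mul_le_mul_right _ (by omega)
  have hb5 : bal k (n - (b - 1)) (p + 2 + 1) = bal k (n - (b - 1)) (p + 3) := rfl
  have hb6 : bal k (n - J.card) (p + 2 + 1) = bal k (n - J.card) (p + 3) := rfl
  omega

end Pool.Agent.Lib.MP_455133_co.WN
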