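import Mathlib
import Pool.Agent.Lib.MP_455133_co.WN.WDefs

/-!
Few members of `G` meet a nearly complete set without being inside it.
-/

namespace Pool.Agent.Lib.MP_455133_co.WN

open Finset

private theorem Cross_pow (m : ℕ) {x : ℝ} (h0 : 0 ≤ x) (h1 : x ≤ 1) : (1 + x) ^ m ≤ 1 + (2 ^ m - 1) * x := by
  induction m with
  | zero => simp
  | succ m ih =>
    have h2 : (1 : ℝ) ≤ 2 ^ m := one_le_pow₀ (by norm_num)
    calc (1 + x) ^ (m + 1) = (1 + x) ^ m * (1 + x) := pow_succ _ _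
      _ ≤ (1 + (2 ^ m - 1) * x) * (1 + x) := by gcongr
      _ ≤ 1 + (2 ^ (m + 1) - 1) * x := by
          rw [pow_succ]
          nlinarith [mul_nonneg (sub_nonneg.2 h2) (mul_nonneg h0 (sub_nonneg.2 h1))]

private theorem Cross_dg {N : ℕ} (p : ℕ) (G : Finset (Finset (Fin N))) (hG : ∀ e ∈ G, e.card = p + 3) (v : Fin N) :
    dg G v ≤ N ^ (p + 2) := by
  unfold dg
  calc (G.filter fun e => v ∈ e).card ≤ (Finset.powersetCard (p + 2) (univ : Finset (Fin N))).card := by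
        refine Finset.card_le_card_of_injOn (fun e => e.erase v) ?_ ?_
        · intro e he
          rw [Finset.mem_coe, mem_filter] at he
          rw [Finset.mem_coe, mem_powersetCard]
          refine ⟨subset_univ _, ?_⟩
          rw [card_erase_of_mem he.2, hG e he.1]
          rfl
        · intro e he e' he' h
          rw [Finset.mem_coe, mem_filter] at he he'
          have h' : e.erase v = e'.erase v := h
          rw [← insert_erase he.2, ← insert_erase he'.2, h']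
    _ = N.choose (p + 2) := by rw [card_powersetCard, card_univ, Fintype.card_fin]
    _ ≤ N ^ (p + 2) := Nat.choose_le_pow _ _

private theorem Cross_count {N : ℕ} (p : ℕ) (G : Finset (Finset (Fin N))) (hG : ∀ e ∈ G, e.card = p + 3)
    (A : Finset (Fin N)) :
    (p + 3) * (G.filter fun e => e ⊆ A).card + (G.filter fun e => (e ∩ A).Nonempty ∧ ¬ e ⊆ A).card ≤
      ∑ v ∈ A, dg G v := by
  have h1 : ∑ v ∈ A, dg G v = ∑ e ∈ G, (e ∩ A).card := by
    unfold dg
    simp only [card_filter]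
    rw [sum_comm]
    refine sum_congr rfl fun e _ => ?_
    rw [← card_filter]
    congr 1
    ext v
    simp [and_comm]
  rw [h1, card_filter, card_filter, mul_sum, ← sum_add_distrib]
  refine sum_le_sum fun e he => ?_
  by_cases h2 : e ⊆ A
  · rw [if_pos h2, if_neg (fun h => h.2 h2), inter_eq_left.mpr h2, hG e he]
    omega
  · rw [if_neg h2]
    split_ifs with h3
    · have := h3.1.card_pos
      omega
    · omega

/-- PROOF. Let `m` be the number of `e ∈ G` which meet `A` and are not inside `A`. Counting the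
pairs `(v, e)`, `v ∈ A ∩ e`: `m + (p+3) |G[A]| ≤ ∑_(v ∈ A) dg G v`. With `D = N / k`:
`(p+3) |G[A]| ≥ (1 - η) D ^ (p+3) / (p+2)!`, and the sum is at most
`(1+η) D ((1+η) D) ^ (p+2) / (p+2)! + η N N ^ (p+2)` (`dg G v ≤ N ^ (p+2)` for the exceptional `v`).
So `m ≤ (((1+η) ^ (p+3) - (1 - η)) + η) N ^ (p+3)` (`D ≤ N`). Choose `η`. -/
theorem cross_small (p k : ℕ) (hk : 1 ≤ k) {ε : ℝ} (hε : 0 < ε) :
    ∃ η : ℝ, 0 < η ∧ η < 1 ∧ ∀ (N : ℕ) (G : Finset (Finset (Fin N))), 0 < N →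
      (∀ e ∈ G, e.card = p + 3) →
      ((univ.filter fun v : Fin N => ((1 + η) * ((N : ℝ) / k)) ^ (p + 2) <
        ((p + 2).factorial : ℝ) * (dg G v : ℝ)).card : ℝ) ≤ η * N →
      ∀ A : Finset (Fin N), (A.card : ℝ) ≤ (1 + η) * ((N : ℝ) / k) →
      (1 - η) * ((N : ℝ) / k) ^ (p + 3) ≤
        ((p + 3).factorial : ℝ) * ((G.filter fun e => e ⊆ A).card : ℝ) →
      ((G.filter fun e => (e ∩ A).Nonempty ∧ ¬ e ⊆ A).card : ℝ) ≤ ε * (N : ℝ) ^ (p + 3) := by
  set c : ℝ := 2 ^ (p + 3) + 1 with hcdef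
  have hc : 0 < c := by
    rw [hcdef]
    positivity
  have hηpos : 0 < min (1 / 2 : ℝ) (ε / c) := lt_min (by norm_num) (div_pos hε hc)
  refine ⟨min (1 / 2 : ℝ) (ε / c), hηpos, lt_of_le_of_lt (min_le_left _ _) (by norm_num), ?_⟩
  have hηhalf : min (1 / 2 : ℝ) (ε / c) ≤ 1 / 2 := min_le_left _ _
  have hηc : min (1 / 2 : ℝ) (ε / c) * c ≤ ε := (le_div_iff₀ hc).1 (min_le_right _ _)
  generalize min (1 / 2 : ℝ) (ε / c) = η at hηpos hηhalf hηc
  intro N G hN hG hex A hA hGA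
  have hk1 : (1 : ℝ) ≤ k := by exact_mod_cast hk
  have hN0 : (0 : ℝ) ≤ N := Nat.cast_nonneg N
  have hDN : (N : ℝ) / k ≤ N := div_le_self hN0 hk1
  have hD0 : 0 ≤ (N : ℝ) / k := by positivity
  generalize (N : ℝ) / k = D at hex hA hGA hDN hD0
  have hf : (0 : ℝ) < ((p + 2).factorial : ℝ) := by exact_mod_cast (p + 2).factorial_pos
  have hf1 : (1 : ℝ) ≤ ((p + 2).factorial : ℝ) := by exact_mod_cast (p + 2).factorial_pos
  have hfac : (((p + 3).factorial : ℕ) : ℝ) = ((p : ℝ) + 3) * ((p + 2).factorial : ℝ) := by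
    rw [Nat.factorial_succ (p + 2)]
    push_cast
    ring
  rw [hfac] at hGA
  have hcount : ((p : ℝ) + 3) * ((G.filter fun e => e ⊆ A).card : ℝ) +
      ((G.filter fun e => (e ∩ A).Nonempty ∧ ¬ e ⊆ A).card : ℝ) ≤ ∑ v ∈ A, (dg G v : ℝ) := by
    exact_mod_cast Cross_count p G hG A
  have hpt : ∀ v ∈ A, ((p + 2).factorial : ℝ) * (dg G v : ℝ) ≤ ((1 + η) * D) ^ (p + 2) +
      (if ((1 + η) * D) ^ (p + 2) < ((p + 2).factorial : ℝ) * (dg G v : ℝ) then
        ((p + 2).factorial : ℝ) * (N : ℝ) ^ (p + 2) else 0) := by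
    intro v _
    split_ifs with h
    · have h1 : (dg G v : ℝ) ≤ (N : ℝ) ^ (p + 2) := by exact_mod_cast Cross_dg p G hG v
      have h2 : 0 ≤ ((1 + η) * D) ^ (p + 2) := by positivity
      have h3 := mul_le_mul_of_nonneg_left h1 hf.le
      linarith
    · rw [add_zero]
      exact not_lt.1 h
  have hsum := Finset.sum_le_sum hpt
  rw [← Finset.mul_sum, Finset.sum_add_distrib, Finset.sum_const, nsmul_eq_mul, ← Finset.sum_filter,
    Finset.sum_const, nsmul_eq_mul] at hsum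
  have hbad : ((A.filter fun v => ((1 + η) * D) ^ (p + 2) < ((p + 2).factorial : ℝ) * (dg G v : ℝ)).card : ℝ) ≤
      η * N := by
    refine le_trans ?_ hex
    exact_mod_cast Finset.card_le_card (Finset.filter_subset_filter _ (Finset.subset_univ A))
  have hpow0 : 0 ≤ ((1 + η) * D) ^ (p + 2) := by positivity
  have s1 : (A.card : ℝ) * ((1 + η) * D) ^ (p + 2) ≤ ((1 + η) * D) * ((1 + η) * D) ^ (p + 2) :=
    mul_le_mul_of_nonneg_right hA hpow0
  have s2 := mul_le_mul_of_nonneg_right hbad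
    (show (0 : ℝ) ≤ ((p + 2).factorial : ℝ) * (N : ℝ) ^ (p + 2) by positivity)
  have s3 := mul_le_mul_of_nonneg_left hcount hf.le
  have hb := Cross_pow (p + 3) hηpos.le (by linarith : η ≤ 1)
  have hDp : 0 ≤ D ^ (p + 3) := by positivity
  have s4 := mul_le_mul_of_nonneg_right hb hDp
  have hDNp : D ^ (p + 3) ≤ ((p + 2).factorial : ℝ) * (N : ℝ) ^ (p + 3) := by
    have h1 : D ^ (p + 3) ≤ (N : ℝ) ^ (p + 3) := by gcongr
    have h2 : 0 ≤ (N : ℝ) ^ (p + 3) := by positivity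
    nlinarith
  have s5 := mul_le_mul_of_nonneg_left hDNp (show (0 : ℝ) ≤ 2 ^ (p + 3) * η by positivity)
  have hNp : 0 ≤ ((p + 2).factorial : ℝ) * (N : ℝ) ^ (p + 3) := by positivity
  have s6 := mul_le_mul_of_nonneg_right hηc hNp
  have e1 : ((1 + η) * D) * ((1 + η) * D) ^ (p + 2) = (1 + η) ^ (p + 3) * D ^ (p + 3) := by
    rw [← mul_pow, ← pow_succ']
  have e2 : η * (N : ℝ) * (((p + 2).factorial : ℝ) * (N : ℝ) ^ (p + 2)) =
      η * (((p + 2).factorial : ℝ) * (N : ℝ) ^ (p + 3)) := by ring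
  rw [e1] at s1
  rw [e2] at s2
  refine le_of_mul_le_mul_left ?_ hf
  rw [hcdef] at s6
  have goalh : ((p + 2).factorial : ℝ) * ((G.filter fun e => (e ∩ A).Nonempty ∧ ¬ e ⊆ A).card : ℝ) ≤
      ε * (((p + 2).factorial : ℝ) * (N : ℝ) ^ (p + 3)) := by
    nlinarith [hsum, s1, s2, s3, s4, s5, s6, hGA]
  calc _ ≤ _ := goalh
    _ = _ := by ring

end Pool.Agent.Lib.MP_455133_co.WN
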