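import Mathlib
import Pool.Agent.Lib.MP_455133_co.WN.WDefs

/-!
Counting: the choice of the sets in the embedding lemma.
-/

namespace Pool.Agent.Lib.MP_455133_co.WN

open Finset

/-- PROOF. Count the maps `ω : I → V`, `S` a set of maps `Fin q → V`, `c : Fin q → I` injective:
`ω ↦ (ω ∘ c, ω restricted to the complement of the range of c)` is injective. -/
theorem card_comp_le {I V : Type*} [Fintype I] [DecidableEq I] [Fintype V] [DecidableEq V] {q : ℕ}
    (c : Fin q → I) (hc : Function.Injective c) (S : Finset (Fin q → V)) :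
    (univ.filter fun ω : I → V => ω ∘ c ∈ S).card ≤
      S.card * (Fintype.card V) ^ (Fintype.card I - q) := by
  classical
  set K : Finset I := (univ.image c)ᶜ with hK
  have hKc : K.card = Fintype.card I - q := by
    rw [hK, card_compl, card_image_of_injective _ hc, card_univ, Fintype.card_fin]
  have h1 : (univ.filter fun ω : I → V => ω ∘ c ∈ S).card ≤
      (S ×ˢ (univ : Finset (K → V))).card := by
    apply card_le_card_of_injOn (fun ω => (ω ∘ c, fun x : K => ω x))
    · intro ω hω
      rw [mem_coe, mem_filter] at hω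
      rw [mem_coe, mem_product]
      exact ⟨hω.2, mem_univ _⟩
    · intro ω _ ω' _ h
      rw [Prod.mk.injEq] at h
      funext x
      by_cases hx : x ∈ K
      · exact congrFun h.2 ⟨x, hx⟩
      · rw [hK, mem_compl, not_not, mem_image] at hx
        obtain ⟨y, -, rfl⟩ := hx
        exact congrFun h.1 y
  refine h1.trans (le_of_eq ?_)
  rw [card_product, card_univ, Fintype.card_fun, Fintype.card_coe, hKc]

/-- PROOF. Each `q`-set is the image of at most (exactly) `q!` maps. -/
theorem card_tuples_le {V : Type*} [Fintype V] [DecidableEq V] {q : ℕ} (F : Finset (Finset V))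
    (hF : ∀ e ∈ F, e.card = q) :
    (univ.filter fun g : Fin q → V => univ.image g ∈ F).card ≤ q.factorial * F.card := by
  classical
  have h1 : (univ.filter fun g : Fin q → V => univ.image g ∈ F) =
      F.biUnion fun e => univ.filter fun g : Fin q → V => univ.image g = e := by
    ext g
    simp
  rw [h1]
  refine card_biUnion_le.trans ?_
  have h2 : ∀ e ∈ F, (univ.filter fun g : Fin q → V => univ.image g = e).card ≤ q.factorial := by
    intro e he
    rcases (univ.filter fun g : Fin q → V => univ.image g = e).eq_empty_or_nonempty with h | h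
    · rw [h, card_empty]; exact Nat.zero_le _
    · obtain ⟨g₀, hg₀⟩ := h
      rw [mem_filter] at hg₀
      have hinj : ∀ g : Fin q → V, univ.image g = e → Function.Injective g := by
        intro g hg
        have h3 : (univ.image g).card = (univ : Finset (Fin q)).card := by
          rw [hg, hF e he, card_univ, Fintype.card_fin]
        have h4 := card_image_iff.mp h3
        intro x y hxy
        exact h4 (mem_coe.mpr (mem_univ x)) (mem_coe.mpr (mem_univ y)) hxy
      have hsub : (univ.filter fun g : Fin q → V => univ.image g = e) ⊆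
          (univ : Finset (Equiv.Perm (Fin q))).image fun σ : Equiv.Perm (Fin q) => g₀ ∘ (σ : Fin q → Fin q) := by
        intro g hg
        rw [mem_filter] at hg
        have h5 : ∀ x, ∃ y, g₀ y = g x := by
          intro x
          have : g x ∈ univ.image g₀ := by
            rw [hg₀.2, ← hg.2]; exact mem_image_of_mem _ (mem_univ _)
          obtain ⟨y, -, hy⟩ := mem_image.mp this
          exact ⟨y, hy⟩
        choose τ hτ using h5
        have hτi : Function.Injective τ := by
          intro x y hxy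
          apply hinj g hg.2
          rw [← hτ x, ← hτ y, hxy]
        rw [mem_image]
        refine ⟨Equiv.ofBijective τ (Finite.injective_iff_bijective.mp hτi), mem_univ _, ?_⟩
        funext x
        exact hτ x
      calc _ ≤ _ := card_le_card hsub
        _ ≤ _ := card_image_le
        _ = _ := by rw [card_univ, Fintype.card_perm, Fintype.card_fin]
  calc _ ≤ ∑ e ∈ F, q.factorial := sum_le_sum h2
    _ = _ := by rw [sum_const, smul_eq_mul, mul_comm]

/-- the tuples enumerating the sets of a family are at least as many as the sets -/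
private theorem embA_le_tuples {V : Type*} [Fintype V] [LinearOrder V] {q : ℕ}
    (F : Finset (Finset V)) (hF : ∀ e ∈ F, e.card = q) :
    F.card ≤ (univ.filter fun g : Fin q → V => univ.image g ∈ F).card := by
  apply card_le_card_of_surjOn (fun g : Fin q → V => univ.image g)
  intro e he
  rw [mem_coe] at he
  refine ⟨fun i => e.orderEmbOfFin (hF e he) i, ?_, ?_⟩
  · rw [mem_coe, mem_filter]
    refine ⟨mem_univ _, ?_⟩
    have : univ.image (fun i => e.orderEmbOfFin (hF e he) i) = e := by
      ext x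
      rw [mem_image]
      constructor
      · rintro ⟨i, -, rfl⟩
        exact orderEmbOfFin_mem e (hF e he) i
      · intro hx
        have : x ∈ Set.range (e.orderEmbOfFin (hF e he)) := by
          rw [range_orderEmbOfFin]; exact hx
        obtain ⟨i, hi⟩ := this
        exact ⟨i, mem_univ _, hi⟩
    rw [this]; exact he
  · ext x
    rw [mem_image]
    constructor
    · rintro ⟨i, -, rfl⟩
      exact orderEmbOfFin_mem e (hF e he) i
    · intro hx
      have : x ∈ Set.range (e.orderEmbOfFin (hF e he)) := by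
        rw [range_orderEmbOfFin]; exact hx
      obtain ⟨i, hi⟩ := this
      exact ⟨i, mem_univ _, hi⟩

/-- non-injective maps -/
private theorem embA_noninj {I V : Type*} [Fintype I] [DecidableEq I] [Fintype V] [DecidableEq V] :
    (univ.filter fun ω : I → V => ¬ Function.Injective ω).card * Fintype.card V ≤
      (Fintype.card I) ^ 2 * (Fintype.card V) ^ (Fintype.card I) := by
  classical
  have h1 : (univ.filter fun ω : I → V => ¬ Function.Injective ω) ⊆
      ((univ : Finset (I × I)).filter fun x => x.1 ≠ x.2).biUnion fun x =>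
        univ.filter fun ω : I → V => ω ∘ ![x.1, x.2] ∈
          (univ.filter fun g : Fin 2 → V => g 0 = g 1) := by
    intro ω hω
    rw [mem_filter] at hω
    have h2 := hω.2
    rw [Function.Injective] at h2
    push Not at h2
    obtain ⟨x, y, hxy, hne⟩ := h2
    rw [mem_biUnion]
    refine ⟨(x, y), mem_filter.mpr ⟨mem_univ _, hne⟩, ?_⟩
    rw [mem_filter]
    refine ⟨mem_univ _, mem_filter.mpr ⟨mem_univ _, ?_⟩⟩
    simpa using hxy
  have hS : (univ.filter fun g : Fin 2 → V => g 0 = g 1).card ≤ Fintype.card V := by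
    rw [← card_univ]
    apply card_le_card_of_injOn (fun g => g 0) (fun g _ => mem_coe.mpr (mem_univ _))
    intro g hg g' hg' h
    rw [mem_coe, mem_filter] at hg hg'
    funext i
    fin_cases i
    · exact h
    · show g 1 = g' 1
      rw [← hg.2, ← hg'.2]; exact h
  have h3 : ∀ x ∈ ((univ : Finset (I × I)).filter fun x => x.1 ≠ x.2),
      (univ.filter fun ω : I → V => ω ∘ ![x.1, x.2] ∈
          (univ.filter fun g : Fin 2 → V => g 0 = g 1)).card * Fintype.card V ≤
        (Fintype.card V) ^ (Fintype.card I) := by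
    intro x hx
    rw [mem_filter] at hx
    have hinj : Function.Injective ![x.1, x.2] := by
      intro i j hij
      fin_cases i <;> fin_cases j
      · rfl
      · exact absurd hij hx.2
      · exact absurd hij.symm hx.2
      · rfl
    have h4 := card_comp_le (V := V) ![x.1, x.2] hinj
      (univ.filter fun g : Fin 2 → V => g 0 = g 1)
    have h5 : 2 ≤ Fintype.card I := by
      have := Fintype.card_le_of_injective _ hinj
      simpa using this
    calc _ ≤ (Fintype.card V * (Fintype.card V) ^ (Fintype.card I - 2)) * Fintype.card V :=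
          Nat.mul_le_mul_right _ (h4.trans (Nat.mul_le_mul_right _ hS))
      _ = (Fintype.card V) ^ (Fintype.card I - 2 + 2) := by ring
      _ = _ := by rw [Nat.sub_add_cancel h5]
  calc _ ≤ (∑ x ∈ ((univ : Finset (I × I)).filter fun x => x.1 ≠ x.2),
        (univ.filter fun ω : I → V => ω ∘ ![x.1, x.2] ∈
          (univ.filter fun g : Fin 2 → V => g 0 = g 1)).card) * Fintype.card V :=
        Nat.mul_le_mul_right _ ((card_le_card h1).trans card_biUnion_le)
    _ = ∑ x ∈ ((univ : Finset (I × I)).filter fun x => x.1 ≠ x.2),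
        (univ.filter fun ω : I → V => ω ∘ ![x.1, x.2] ∈
          (univ.filter fun g : Fin 2 → V => g 0 = g 1)).card * Fintype.card V := sum_mul _ _ _
    _ ≤ ∑ x ∈ ((univ : Finset (I × I)).filter fun x => x.1 ≠ x.2),
        (Fintype.card V) ^ (Fintype.card I) := sum_le_sum h3
    _ ≤ _ := by
        rw [sum_const, smul_eq_mul]
        apply Nat.mul_le_mul_right
        refine (card_filter_le _ _).trans (le_of_eq ?_)
        rw [card_univ, Fintype.card_prod, sq]

/-- maps hitting a set -/
private theorem embA_hit {I V : Type*} [Fintype I] [DecidableEq I] [Fintype V] [DecidableEq V]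
    (Z : Finset V) :
    (univ.filter fun ω : I → V => ∃ x, ω x ∈ Z).card * Fintype.card V ≤
      Fintype.card I * Z.card * (Fintype.card V) ^ (Fintype.card I) := by
  classical
  have h1 : (univ.filter fun ω : I → V => ∃ x, ω x ∈ Z) ⊆
      (univ : Finset I).biUnion fun x => univ.filter fun ω : I → V => ω ∘ ![x] ∈
          (univ.filter fun g : Fin 1 → V => g 0 ∈ Z) := by
    intro ω hω
    rw [mem_filter] at hω
    obtain ⟨x, hx⟩ := hω.2
    rw [mem_biUnion]
    refine ⟨x, mem_univ _, ?_⟩
    rw [mem_filter]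
    refine ⟨mem_univ _, mem_filter.mpr ⟨mem_univ _, ?_⟩⟩
    simpa using hx
  have hS : (univ.filter fun g : Fin 1 → V => g 0 ∈ Z).card ≤ Z.card := by
    apply card_le_card_of_injOn (fun g => g 0)
    · intro g hg
      rw [mem_coe, mem_filter] at hg
      exact hg.2
    · intro g _ g' _ h
      funext i
      fin_cases i
      exact h
  have h3 : ∀ x ∈ (univ : Finset I),
      (univ.filter fun ω : I → V => ω ∘ ![x] ∈
          (univ.filter fun g : Fin 1 → V => g 0 ∈ Z)).card * Fintype.card V ≤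
        Z.card * (Fintype.card V) ^ (Fintype.card I) := by
    intro x _
    have hinj : Function.Injective ![x] := by
      intro i j _
      exact Subsingleton.elim _ _
    have h4 := card_comp_le (V := V) ![x] hinj (univ.filter fun g : Fin 1 → V => g 0 ∈ Z)
    have h5 : 1 ≤ Fintype.card I := Fintype.card_pos_iff.mpr ⟨x⟩
    calc _ ≤ (Z.card * (Fintype.card V) ^ (Fintype.card I - 1)) * Fintype.card V :=
          Nat.mul_le_mul_right _ (h4.trans (Nat.mul_le_mul_right _ hS))
      _ = Z.card * (Fintype.card V) ^ (Fintype.card I - 1 + 1) := by ring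
      _ = _ := by rw [Nat.sub_add_cancel h5]
  calc _ ≤ (∑ x ∈ (univ : Finset I), (univ.filter fun ω : I → V => ω ∘ ![x] ∈
          (univ.filter fun g : Fin 1 → V => g 0 ∈ Z)).card) * Fintype.card V :=
        Nat.mul_le_mul_right _ ((card_le_card h1).trans card_biUnion_le)
    _ = ∑ x ∈ (univ : Finset I), (univ.filter fun ω : I → V => ω ∘ ![x] ∈
          (univ.filter fun g : Fin 1 → V => g 0 ∈ Z)).card * Fintype.card V := sum_mul _ _ _
    _ ≤ ∑ x ∈ (univ : Finset I), Z.card * (Fintype.card V) ^ (Fintype.card I) := sum_le_sum h3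
    _ = _ := by rw [sum_const, smul_eq_mul, card_univ]; ring

/-- maps whose image contains a member of a family -/
private theorem embA_cont {I V : Type*} [Fintype I] [DecidableEq I] [Fintype V] [DecidableEq V]
    {q : ℕ} (F : Finset (Finset V)) (hF : ∀ e ∈ F, e.card = q) :
    (univ.filter fun ω : I → V => ∃ e ∈ F, e ⊆ univ.image ω).card * (Fintype.card V) ^ q ≤
      (Fintype.card I) ^ q * (q.factorial * F.card) * (Fintype.card V) ^ (Fintype.card I) := by
  classical
  set S : Finset (Fin q → V) := univ.filter fun g : Fin q → V => univ.image g ∈ F with hSd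
  have h1 : (univ.filter fun ω : I → V => ∃ e ∈ F, e ⊆ univ.image ω) ⊆
      ((univ : Finset (Fin q → I)).filter fun c => Function.Injective c).biUnion fun c =>
        univ.filter fun ω : I → V => ω ∘ c ∈ S := by
    intro ω hω
    rw [mem_filter] at hω
    obtain ⟨e, he, heω⟩ := hω.2
    have hee : ∀ x : e, ∃ i : I, ω i = x := by
      intro x
      obtain ⟨i, -, hi⟩ := mem_image.mp (heω x.2)
      exact ⟨i, hi⟩
    choose τ hτ using hee
    obtain ⟨eq⟩ : Nonempty (Fin q ≃ e) := by
      rw [← Fintype.card_eq, Fintype.card_fin, Fintype.card_coe, hF e he]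
    have hinj : Function.Injective fun i => τ (eq i) := by
      intro i j hij
      apply eq.injective
      apply Subtype.ext
      rw [← hτ (eq i), ← hτ (eq j)]
      exact congrArg ω hij
    rw [mem_biUnion]
    refine ⟨fun i => τ (eq i), mem_filter.mpr ⟨mem_univ _, hinj⟩, ?_⟩
    rw [mem_filter]
    refine ⟨mem_univ _, ?_⟩
    rw [hSd, mem_filter]
    refine ⟨mem_univ _, ?_⟩
    have : univ.image (ω ∘ fun i => τ (eq i)) = e := by
      ext x
      rw [mem_image]
      constructor
      · rintro ⟨i, -, rfl⟩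
        show ω (τ (eq i)) ∈ e
        rw [hτ]; exact (eq i).2
      · intro hx
        refine ⟨eq.symm ⟨x, hx⟩, mem_univ _, ?_⟩
        show ω (τ (eq (eq.symm ⟨x, hx⟩))) = x
        rw [hτ, Equiv.apply_symm_apply]
    rw [this]; exact he
  have hS : S.card ≤ q.factorial * F.card := card_tuples_le F hF
  have h3 : ∀ c ∈ ((univ : Finset (Fin q → I)).filter fun c => Function.Injective c),
      (univ.filter fun ω : I → V => ω ∘ c ∈ S).card * (Fintype.card V) ^ q ≤
        (q.factorial * F.card) * (Fintype.card V) ^ (Fintype.card I) := by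
    intro c hc
    rw [mem_filter] at hc
    have h4 := card_comp_le (V := V) c hc.2 S
    have h5 : q ≤ Fintype.card I := by
      have := Fintype.card_le_of_injective _ hc.2
      simpa using this
    calc _ ≤ ((q.factorial * F.card) * (Fintype.card V) ^ (Fintype.card I - q)) *
            (Fintype.card V) ^ q :=
          Nat.mul_le_mul_right _ (h4.trans (Nat.mul_le_mul_right _ hS))
      _ = (q.factorial * F.card) * (Fintype.card V) ^ (Fintype.card I - q + q) := by
          rw [pow_add]; ring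
      _ = _ := by rw [Nat.sub_add_cancel h5]
  calc _ ≤ (∑ c ∈ ((univ : Finset (Fin q → I)).filter fun c => Function.Injective c),
        (univ.filter fun ω : I → V => ω ∘ c ∈ S).card) * (Fintype.card V) ^ q :=
        Nat.mul_le_mul_right _ ((card_le_card h1).trans card_biUnion_le)
    _ = ∑ c ∈ ((univ : Finset (Fin q → I)).filter fun c => Function.Injective c),
        (univ.filter fun ω : I → V => ω ∘ c ∈ S).card * (Fintype.card V) ^ q := sum_mul _ _ _
    _ ≤ ∑ c ∈ ((univ : Finset (Fin q → I)).filter fun c => Function.Injective c),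
        (q.factorial * F.card) * (Fintype.card V) ^ (Fintype.card I) := sum_le_sum h3
    _ ≤ _ := by
        rw [sum_const, smul_eq_mul, mul_assoc ((Fintype.card I) ^ q)]
        apply Nat.mul_le_mul_right
        refine (card_filter_le _ _).trans (le_of_eq ?_)
        rw [card_univ, Fintype.card_fun, Fintype.card_fin]


/-- the choices of the `ρ` -/
private theorem embA_rho {p k a n m : ℕ} (hk : 1 ≤ k) (hn : 1 ≤ n) {G : Finset (Finset (Fin n))}
    (hG : ∀ e ∈ G, e.card = p + 3) {P : Fin k → Finset (Fin n)}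
    (hP : ∀ i, (n : ℝ) ≤ 2 * k * ((P i).card : ℝ)) {E : Finset (Fin n)} (hE : E.card ≤ m)
    {δ₂ : ℝ} (hδ0 : 0 ≤ δ₂)
    (hE2 : ∀ v ∈ E, (dg (cross G P) v : ℝ) ≤ δ₂ * (n : ℝ) ^ (p + 2))
    (hδ₂ : (m : ℝ) * k * (a : ℝ) ^ (p + 2) * ((p + 2).factorial : ℝ) * δ₂ ≤
      (1 / (2 * (k : ℝ))) ^ (k * a) / 2) :
    (1 / (2 * (k : ℝ))) ^ (k * a) / 2 * (n : ℝ) ^ (k * a) ≤
      ((univ.filter fun ρ : Fin k × Fin a → Fin n => (∀ x, ρ x ∈ P x.1) ∧
        ∀ v ∈ E, ∀ i, ∀ c : Fin (p + 2) → Fin a, Function.Injective c →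
          insert v (univ.image fun y => ρ (i, c y)) ∉ cross G P).card : ℝ) := by
  classical
  set R := univ.filter fun ρ : Fin k × Fin a → Fin n => (∀ x, ρ x ∈ P x.1) ∧
        ∀ v ∈ E, ∀ i, ∀ c : Fin (p + 2) → Fin a, Function.Injective c →
          insert v (univ.image fun y => ρ (i, c y)) ∉ cross G P with hR
  set R0 : Finset (Fin k × Fin a → Fin n) := Fintype.piFinset fun x => P x.1 with hR0
  set F : Fin n → Finset (Finset (Fin n)) := fun v =>
    ((cross G P).filter fun e => v ∈ e).image fun e => e.erase v with hF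
  have hFc : ∀ v, ∀ e ∈ F v, e.card = p + 2 := by
    intro v e he
    rw [hF, mem_image] at he
    obtain ⟨e', he', rfl⟩ := he
    rw [mem_filter, cross, mem_filter] at he'
    rw [card_erase_of_mem he'.2, hG e' he'.1.1]
    rfl
  have hFd : ∀ v, (F v).card ≤ dg (cross G P) v := fun v => card_image_le
  set S : Fin n → Finset (Fin (p + 2) → Fin n) := fun v =>
    univ.filter fun g => univ.image g ∈ F v with hS
  set Bad := E.biUnion fun v => (univ : Finset (Fin k)).biUnion fun i =>
    ((univ : Finset (Fin (p + 2) → Fin a)).filter fun c => Function.Injective c).biUnion fun c =>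
      univ.filter fun ρ : Fin k × Fin a → Fin n => ρ ∘ (fun y => (i, c y)) ∈ S v with hBad
  have hsub : R0 ⊆ R ∪ Bad := by
    intro ρ hρ
    rw [hR0, Fintype.mem_piFinset] at hρ
    by_cases hb : ρ ∈ Bad
    · exact mem_union_right _ hb
    · apply mem_union_left
      rw [hR, mem_filter]
      refine ⟨mem_univ _, hρ, ?_⟩
      intro v hv i c hc hins
      apply hb
      rw [hBad, mem_biUnion]
      refine ⟨v, hv, ?_⟩
      rw [mem_biUnion]
      refine ⟨i, mem_univ _, ?_⟩
      rw [mem_biUnion]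
      refine ⟨c, mem_filter.mpr ⟨mem_univ _, hc⟩, ?_⟩
      rw [mem_filter]
      refine ⟨mem_univ _, ?_⟩
      rw [hS, mem_filter]
      refine ⟨mem_univ _, ?_⟩
      have h1 : (insert v (univ.image fun y => ρ (i, c y))).card = p + 3 := by
        apply hG
        rw [cross, mem_filter] at hins
        exact hins.1
      have h2 : v ∉ univ.image fun y => ρ (i, c y) := by
        intro hmem
        rw [insert_eq_self.mpr hmem] at h1
        have h3 : (univ.image fun y => ρ (i, c y)).card ≤ (univ : Finset (Fin (p + 2))).card :=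
          card_image_le
        rw [card_univ, Fintype.card_fin] at h3
        omega
      rw [hF, mem_image]
      refine ⟨_, mem_filter.mpr ⟨hins, mem_insert_self _ _⟩, ?_⟩
      rw [erase_insert h2]
      rfl
  have hR0c : (1 / (2 * (k : ℝ))) ^ (k * a) * (n : ℝ) ^ (k * a) ≤ (R0.card : ℝ) := by
    rw [hR0, Fintype.card_piFinset]
    push_cast
    have hk0 : (0 : ℝ) < k := by exact_mod_cast hk
    have h1 : ∏ _x : Fin k × Fin a, (1 / (2 * (k : ℝ)) * n) ≤
        ∏ x : Fin k × Fin a, ((P x.1).card : ℝ) := by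
      apply prod_le_prod
      · intro x _; positivity
      · intro x _
        have := hP x.1
        rw [div_mul_eq_mul_div, one_mul, div_le_iff₀ (by positivity)]
        linarith
    rw [prod_const, card_univ, Fintype.card_prod, Fintype.card_fin, Fintype.card_fin, mul_pow] at h1
    exact h1
  have hn0 : (0 : ℝ) < n := by exact_mod_cast hn
  have hBc : (Bad.card : ℝ) ≤ (1 / (2 * (k : ℝ))) ^ (k * a) / 2 * (n : ℝ) ^ (k * a) := by
    have h1 : (Bad.card : ℝ) * (n : ℝ) ^ (p + 2) ≤
        (m : ℝ) * k * (a : ℝ) ^ (p + 2) * ((p + 2).factorial : ℝ) * δ₂ * (n : ℝ) ^ (p + 2) *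
          (n : ℝ) ^ (k * a) := by
      have h2 : (Bad.card : ℝ) ≤ ∑ v ∈ E, ∑ i : Fin k,
          ∑ c ∈ ((univ : Finset (Fin (p + 2) → Fin a)).filter fun c => Function.Injective c),
          ((univ.filter fun ρ : Fin k × Fin a → Fin n =>
            ρ ∘ (fun y => (i, c y)) ∈ S v).card : ℝ) := by
        have : Bad.card ≤ ∑ v ∈ E, ∑ i : Fin k,
          ∑ c ∈ ((univ : Finset (Fin (p + 2) → Fin a)).filter fun c => Function.Injective c),
          (univ.filter fun ρ : Fin k × Fin a → Fin n =>
            ρ ∘ (fun y => (i, c y)) ∈ S v).card := by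
          refine card_biUnion_le.trans (sum_le_sum fun v _ => ?_)
          refine card_biUnion_le.trans (sum_le_sum fun i _ => ?_)
          exact card_biUnion_le
        exact_mod_cast this
      have h3 : ∀ v ∈ E, ∀ i : Fin k,
          ∀ c ∈ ((univ : Finset (Fin (p + 2) → Fin a)).filter fun c => Function.Injective c),
          ((univ.filter fun ρ : Fin k × Fin a → Fin n =>
            ρ ∘ (fun y => (i, c y)) ∈ S v).card : ℝ) * (n : ℝ) ^ (p + 2) ≤
          ((p + 2).factorial : ℝ) * (δ₂ * (n : ℝ) ^ (p + 2)) * (n : ℝ) ^ (k * a) := by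
        intro v hv i c hc
        rw [mem_filter] at hc
        have hci : Function.Injective fun y => (i, c y) := by
          intro y y' h
          rw [Prod.mk.injEq] at h
          exact hc.2 h.2
        have h4 := card_comp_le (V := Fin n) (fun y => (i, c y)) hci (S v)
        have h5 : (S v).card ≤ (p + 2).factorial * (F v).card := card_tuples_le (F v) (hFc v)
        rw [Fintype.card_prod, Fintype.card_fin, Fintype.card_fin, Fintype.card_fin] at h4
        have h6 : p + 2 ≤ k * a := by
          have := Fintype.card_le_of_injective _ hci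
          rw [Fintype.card_prod, Fintype.card_fin, Fintype.card_fin, Fintype.card_fin] at this
          exact this
        have h7 : ((univ.filter fun ρ : Fin k × Fin a → Fin n =>
            ρ ∘ (fun y => (i, c y)) ∈ S v).card : ℝ) ≤
            ((p + 2).factorial : ℝ) * (δ₂ * (n : ℝ) ^ (p + 2)) * (n : ℝ) ^ (k * a - (p + 2)) := by
          have h8 : ((univ.filter fun ρ : Fin k × Fin a → Fin n =>
            ρ ∘ (fun y => (i, c y)) ∈ S v).card : ℝ) ≤
            ((p + 2).factorial : ℝ) * (dg (cross G P) v : ℝ) * (n : ℝ) ^ (k * a - (p + 2)) := by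
            have := h4.trans (Nat.mul_le_mul_right _ (h5.trans (Nat.mul_le_mul_left _ (hFd v))))
            exact_mod_cast this
          refine h8.trans ?_
          apply mul_le_mul_of_nonneg_right _ (by positivity)
          exact mul_le_mul_of_nonneg_left (hE2 v hv) (by positivity)
        calc _ ≤ (((p + 2).factorial : ℝ) * (δ₂ * (n : ℝ) ^ (p + 2)) *
              (n : ℝ) ^ (k * a - (p + 2))) * (n : ℝ) ^ (p + 2) :=
              mul_le_mul_of_nonneg_right h7 (by positivity)
          _ = ((p + 2).factorial : ℝ) * (δ₂ * (n : ℝ) ^ (p + 2)) *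
              (n : ℝ) ^ (k * a - (p + 2) + (p + 2)) := by rw [pow_add (n : ℝ) (k * a - (p + 2))]; ring
          _ = _ := by rw [Nat.sub_add_cancel h6]
      calc (Bad.card : ℝ) * (n : ℝ) ^ (p + 2) ≤ (∑ v ∈ E, ∑ i : Fin k,
          ∑ c ∈ ((univ : Finset (Fin (p + 2) → Fin a)).filter fun c => Function.Injective c),
          ((univ.filter fun ρ : Fin k × Fin a → Fin n =>
            ρ ∘ (fun y => (i, c y)) ∈ S v).card : ℝ)) * (n : ℝ) ^ (p + 2) :=
            mul_le_mul_of_nonneg_right h2 (by positivity)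
        _ = ∑ v ∈ E, ∑ i : Fin k,
          ∑ c ∈ ((univ : Finset (Fin (p + 2) → Fin a)).filter fun c => Function.Injective c),
          ((univ.filter fun ρ : Fin k × Fin a → Fin n =>
            ρ ∘ (fun y => (i, c y)) ∈ S v).card : ℝ) * (n : ℝ) ^ (p + 2) := by
            simp only [sum_mul]
        _ ≤ ∑ v ∈ E, ∑ i : Fin k,
          ∑ c ∈ ((univ : Finset (Fin (p + 2) → Fin a)).filter fun c => Function.Injective c),
          ((p + 2).factorial : ℝ) * (δ₂ * (n : ℝ) ^ (p + 2)) * (n : ℝ) ^ (k * a) :=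
            sum_le_sum fun v hv => sum_le_sum fun i _ => sum_le_sum fun c hc => h3 v hv i c hc
        _ ≤ _ := by
            simp only [sum_const, nsmul_eq_mul, card_univ, Fintype.card_fin]
            have h9 : (((univ : Finset (Fin (p + 2) → Fin a)).filter fun c =>
                Function.Injective c).card : ℝ) ≤ (a : ℝ) ^ (p + 2) := by
              have : ((univ : Finset (Fin (p + 2) → Fin a)).filter fun c =>
                Function.Injective c).card ≤ a ^ (p + 2) := by
                refine (card_filter_le _ _).trans (le_of_eq ?_)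
                rw [card_univ, Fintype.card_fun, Fintype.card_fin, Fintype.card_fin]
              exact_mod_cast this
            have h10 : (E.card : ℝ) ≤ m := by exact_mod_cast hE
            have hX : 0 ≤ ((p + 2).factorial : ℝ) * (δ₂ * (n : ℝ) ^ (p + 2)) *
                (n : ℝ) ^ (k * a) := by positivity
            calc _ ≤ (m : ℝ) * (k * ((a : ℝ) ^ (p + 2) * (((p + 2).factorial : ℝ) *
                (δ₂ * (n : ℝ) ^ (p + 2)) * (n : ℝ) ^ (k * a)))) := by
                  apply mul_le_mul h10 _ (by positivity) (by positivity)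
                  apply mul_le_mul_of_nonneg_left _ (by positivity)
                  exact mul_le_mul_of_nonneg_right h9 hX
              _ = _ := by ring
    have h11 : (m : ℝ) * k * (a : ℝ) ^ (p + 2) * ((p + 2).factorial : ℝ) * δ₂ *
        (n : ℝ) ^ (p + 2) * (n : ℝ) ^ (k * a) ≤
        ((1 / (2 * (k : ℝ))) ^ (k * a) / 2 * (n : ℝ) ^ (k * a)) * (n : ℝ) ^ (p + 2) := by
      have := mul_le_mul_of_nonneg_right hδ₂
        (show (0 : ℝ) ≤ (n : ℝ) ^ (p + 2) * (n : ℝ) ^ (k * a) by positivity)
      calc _ = (m : ℝ) * k * (a : ℝ) ^ (p + 2) * ((p + 2).factorial : ℝ) * δ₂ *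
        ((n : ℝ) ^ (p + 2) * (n : ℝ) ^ (k * a)) := by ring
        _ ≤ _ := this
        _ = _ := by ring
    exact le_of_mul_le_mul_right (h1.trans h11) (by positivity)
  have h12 : (R0.card : ℝ) ≤ R.card + Bad.card := by
    exact_mod_cast (card_le_card hsub).trans (card_union_le _ _)
  linarith

/-- PROOF. Write `N = n`, `m = k |J|`. Sample space: pairs `(γ, ρ)`, `γ : J × Fin k → Fin (p+2) → V`,
`ρ : Fin k × Fin a → V`, `V = Fin n`, i.e. maps on an index set `I` with
`|I| = m (p+2) + k a ≤ q₀ := b k (p+2) + k a` elements.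
Good pairs: (A) for all `u`, `i` the tuple `γ (u, i)` is injective with image in `miss (p+2) G P u i`
(at least `|miss| ≥ δ n ^ (p+2)` tuples: one enumeration for each set); (B) `ρ (i, x) ∈ P i`, and for
`v ∈ E`, `i`, and all injective `c : Fin (p+2) → Fin a` the set of the `ρ (i, c y)` together with
`v` is not in `cross G P`. The number of `ρ` with (B) is at least `(n / (2k)) ^ (k a)` minus
`(p+3) b k a ^ (p+2) (p+2)! δ₂ n ^ (k a)` (`card_comp_le`, `card_tuples_le`), at least
`c₀ n ^ (k a)`, `c₀ = (2k) ^ (-k a) / 2`, for a suitable `δ₂` (if `a < p + 2` there is nothing to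
avoid). So there are at least `δ ^ m c₀ n ^ |I| ≥ (min δ 1) ^ (k b) c₀ n ^ |I|` pairs with (A), (B)
(`Fintype.card_piFinset`).
Bad pairs, seen as maps `ω : I → V`: (C) `ω` not injective: at most `|I| ^ 2 n ^ (|I| - 1)`;
(D) some value in `J ∪ E`: at most `|I| (b + (p+3) b) n ^ (|I| - 1)`; (E) for some injective
`c : Fin (p+3) → I` the image of `ω ∘ c` is in `cross G P`: at most
`|I| ^ (p+3) (p+3)! ε n ^ |I|`. For small `ε` and large `n` some pair satisfies (A), (B) and not
(C), (D), (E). Take the images. -/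
theorem exists_choice (p k a b : ℕ) (hk : 1 ≤ k) :
    ∃ δ₂ : ℝ, 0 < δ₂ ∧ ∀ δ : ℝ, 0 < δ → ∃ ε : ℝ, 0 < ε ∧ ∃ n₀ : ℕ, ∀ n : ℕ, n₀ ≤ n →
      ∀ (G : Finset (Finset (Fin n))) (P : Fin k → Finset (Fin n)), (∀ e ∈ G, e.card = p + 3) →
      (∀ i, (n : ℝ) ≤ 2 * k * ((P i).card : ℝ)) →
      ((cross G P).card : ℝ) ≤ ε * (n : ℝ) ^ (p + 3) →
      ∀ J E : Finset (Fin n), J.card ≤ b → E.card ≤ (p + 3) * b →
      (∀ u ∈ J, ∀ i, δ * (n : ℝ) ^ (p + 2) ≤ ((miss (p + 2) G P u i).card : ℝ)) →
      (∀ v ∈ E, (dg (cross G P) v : ℝ) ≤ δ₂ * (n : ℝ) ^ (p + 2)) →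
      ∃ (γ : Fin n → Fin k → Finset (Fin n)) (ρ : Fin k → Finset (Fin n)),
        (∀ u ∈ J, ∀ i, γ u i ∈ miss (p + 2) G P u i ∧ Disjoint (γ u i) (J ∪ E)) ∧
        (∀ u ∈ J, ∀ i, ∀ u' ∈ J, ∀ i', (u, i) ≠ (u', i') → Disjoint (γ u i) (γ u' i')) ∧
        (∀ i, ρ i ⊆ P i ∧ (ρ i).card = a ∧ Disjoint (ρ i) (J ∪ E)) ∧
        (∀ u ∈ J, ∀ i i', Disjoint (γ u i) (ρ i')) ∧
        (∀ e ∈ cross G P, ¬ e ⊆ (J.biUnion fun u => univ.biUnion (γ u)) ∪ univ.biUnion ρ) ∧
        (∀ v ∈ E, ∀ i, ∀ g ⊆ ρ i, g.card = p + 2 → insert v g ∉ cross G P) := by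
  classical
  set c₀ : ℝ := (1 / (2 * (k : ℝ))) ^ (k * a) / 2 with hc₀
  have hk0 : (0 : ℝ) < k := by exact_mod_cast hk
  have hc₀p : 0 < c₀ := by rw [hc₀]; positivity
  set m : ℕ := (p + 3) * b with hm
  set A₁ : ℝ := (m : ℝ) * k * (a : ℝ) ^ (p + 2) * ((p + 2).factorial : ℝ) with hA₁
  have hA₁0 : 0 ≤ A₁ := by rw [hA₁]; positivity
  refine ⟨c₀ / (A₁ + 1), by positivity, ?_⟩
  intro δ hδ
  set q₀ : ℕ := b * k * (p + 2) + k * a with hq₀
  set δ' : ℝ := min δ 1 with hδ'
  have hδ'0 : 0 < δ' := lt_min hδ one_pos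
  have hδ'1 : δ' ≤ 1 := min_le_right _ _
  set κ : ℝ := δ' ^ (b * k) * c₀ with hκ
  have hκ0 : 0 < κ := by rw [hκ]; positivity
  set A₂ : ℝ := (q₀ : ℝ) ^ (p + 3) * ((p + 3).factorial : ℝ) with hA₂
  have hA₂0 : 0 ≤ A₂ := by rw [hA₂]; positivity
  set A₃ : ℝ := (q₀ : ℝ) ^ 2 + q₀ * (b + m) with hA₃
  have hA₃0 : 0 ≤ A₃ := by rw [hA₃]; positivity
  refine ⟨κ / (4 * (A₂ + 1)), by positivity, max 1 (⌈4 * A₃ / κ⌉₊), ?_⟩
  intro n hn G P hG hP hX J E hJ hE hJm hEd
  have hn1 : 1 ≤ n := le_trans (le_max_left _ _) hn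
  have hn0 : (0 : ℝ) < n := by exact_mod_cast hn1
  have hnA : 4 * A₃ / κ ≤ n := le_trans (Nat.le_ceil _) (by exact_mod_cast le_trans (le_max_right _ _) hn)
  -- the sample space
  set MT : {u // u ∈ J} × Fin k → Finset (Fin (p + 2) → Fin n) := fun x =>
    univ.filter fun g => univ.image g ∈ miss (p + 2) G P x.1 x.2 with hMT
  set Γ : Finset ({u // u ∈ J} × Fin k → (Fin (p + 2) → Fin n)) := Fintype.piFinset MT with hΓ
  set R := univ.filter fun ρ : Fin k × Fin a → Fin n => (∀ x, ρ x ∈ P x.1) ∧
        ∀ v ∈ E, ∀ i, ∀ c : Fin (p + 2) → Fin a, Function.Injective c →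
          insert v (univ.image fun y => ρ (i, c y)) ∉ cross G P with hR
  have hRc : c₀ * (n : ℝ) ^ (k * a) ≤ (R.card : ℝ) := by
    refine embA_rho (m := m) hk hn1 hG hP hE (δ₂ := c₀ / (A₁ + 1)) (by positivity) hEd ?_
    rw [← hA₁, ← hc₀, mul_div_assoc', div_le_iff₀ (by positivity)]
    nlinarith
  have hMTc : ∀ x, δ' * (n : ℝ) ^ (p + 2) ≤ ((MT x).card : ℝ) := by
    intro x
    have h1 := hJm x.1 x.1.2 x.2
    have h2 := embA_le_tuples (miss (p + 2) G P x.1 x.2) (q := p + 2) (fun e he => by
      rw [miss, mem_filter, mem_powersetCard] at he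
      exact he.1.2)
    have h3 : ((miss (p + 2) G P x.1 x.2).card : ℝ) ≤ ((MT x).card : ℝ) := by exact_mod_cast h2
    refine le_trans ?_ (h1.trans h3)
    exact mul_le_mul_of_nonneg_right (min_le_left _ _) (by positivity)
  have hΓc : δ' ^ (b * k) * (n : ℝ) ^ (J.card * k * (p + 2)) ≤ (Γ.card : ℝ) := by
    rw [hΓ, Fintype.card_piFinset]
    push_cast
    have h1 : ∏ _x : {u // u ∈ J} × Fin k, (δ' * (n : ℝ) ^ (p + 2)) ≤
        ∏ x : {u // u ∈ J} × Fin k, ((MT x).card : ℝ) :=
      prod_le_prod (fun x _ => by positivity) (fun x _ => hMTc x)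
    rw [prod_const, card_univ, Fintype.card_prod, Fintype.card_coe, Fintype.card_fin, mul_pow,
      ← pow_mul] at h1
    refine le_trans ?_ h1
    have h2 : δ' ^ (b * k) ≤ δ' ^ (J.card * k) :=
      pow_le_pow_of_le_one hδ'0.le hδ'1 (Nat.mul_le_mul_right _ hJ)
    rw [mul_comm (p + 2) (J.card * k)]
    exact mul_le_mul_of_nonneg_right h2 (by positivity)
  -- the map to `I → V`
  let I : Type := (({u // u ∈ J} × Fin k) × Fin (p + 2)) ⊕ (Fin k × Fin a)
  have hIc : Fintype.card I = J.card * k * (p + 2) + k * a := by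
    show Fintype.card ((({u // u ∈ J} × Fin k) × Fin (p + 2)) ⊕ (Fin k × Fin a)) = _
    rw [Fintype.card_sum, Fintype.card_prod, Fintype.card_prod, Fintype.card_prod,
      Fintype.card_coe, Fintype.card_fin, Fintype.card_fin, Fintype.card_fin]
  have hIq : Fintype.card I ≤ q₀ := by
    rw [hIc, hq₀]
    apply Nat.add_le_add_right
    exact Nat.mul_le_mul_right _ (Nat.mul_le_mul_right _ hJ)
  have hIqR : (Fintype.card I : ℝ) ≤ q₀ := by exact_mod_cast hIq
  let ω : ({u // u ∈ J} × Fin k → (Fin (p + 2) → Fin n)) × (Fin k × Fin a → Fin n) → I → Fin n :=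
    fun x => Sum.elim (fun y => x.1 y.1 y.2) x.2
  have hωi : Function.Injective ω := by
    intro x x' h
    have h1 : ∀ y z, x.1 y z = x'.1 y z := fun y z => congrFun h (Sum.inl (y, z))
    have h2 : ∀ y, x.2 y = x'.2 y := fun y => congrFun h (Sum.inr y)
    exact Prod.ext (funext fun y => funext fun z => h1 y z) (funext h2)
  set B1 := univ.filter fun w : I → Fin n => ¬ Function.Injective w with hB1
  set B2 := univ.filter fun w : I → Fin n => ∃ x, w x ∈ J ∪ E with hB2
  set B3 := univ.filter fun w : I → Fin n => ∃ e ∈ cross G P, e ⊆ univ.image w with hB3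
  have hex : ∃ x ∈ Γ ×ˢ R, ω x ∉ B1 ∪ (B2 ∪ B3) := by
    by_contra hcon
    push Not at hcon
    have h1 : (Γ ×ˢ R).card ≤ (B1 ∪ (B2 ∪ B3)).card :=
      card_le_card_of_injOn ω (fun x hx => mem_coe.mpr (hcon x (mem_coe.mp hx))) hωi.injOn
    have h2 : (B1 ∪ (B2 ∪ B3)).card ≤ B1.card + (B2.card + B3.card) :=
      (card_union_le _ _).trans (Nat.add_le_add_left (card_union_le _ _) _)
    rw [card_product] at h1
    have h3 : (Γ.card : ℝ) * R.card ≤ B1.card + (B2.card + B3.card) := by
      exact_mod_cast h1.trans h2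
    have hpos : (0 : ℝ) < (n : ℝ) ^ (Fintype.card I) := by positivity
    have h4 : κ * (n : ℝ) ^ (Fintype.card I) ≤ (Γ.card : ℝ) * R.card := by
      rw [hκ, hIc, pow_add]
      calc δ' ^ (b * k) * c₀ * ((n : ℝ) ^ (J.card * k * (p + 2)) * (n : ℝ) ^ (k * a)) =
          (δ' ^ (b * k) * (n : ℝ) ^ (J.card * k * (p + 2))) * (c₀ * (n : ℝ) ^ (k * a)) := by ring
        _ ≤ _ := mul_le_mul hΓc hRc (by positivity) (by positivity)
    have h5 := embA_noninj (I := I) (V := Fin n)
    have h6 := embA_hit (I := I) (V := Fin n) (J ∪ E)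
    have hcr : ∀ e ∈ cross G P, e.card = p + 3 := by
      intro e he
      rw [cross, mem_filter] at he
      exact hG e he.1
    have h7 := embA_cont (I := I) (V := Fin n) (cross G P) hcr
    rw [← hB1, Fintype.card_fin] at h5
    rw [← hB2, Fintype.card_fin] at h6
    rw [← hB3, Fintype.card_fin] at h7
    have h5R : (B1.card : ℝ) * n ≤ (q₀ : ℝ) ^ 2 * (n : ℝ) ^ (Fintype.card I) := by
      have : (B1.card : ℝ) * n ≤ (Fintype.card I : ℝ) ^ 2 * (n : ℝ) ^ (Fintype.card I) := by
        exact_mod_cast h5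
      refine this.trans ?_
      apply mul_le_mul_of_nonneg_right _ hpos.le
      exact pow_le_pow_left₀ (by positivity) hIqR 2
    have h6R : (B2.card : ℝ) * n ≤ (q₀ : ℝ) * (b + m) * (n : ℝ) ^ (Fintype.card I) := by
      have h8 : (B2.card : ℝ) * n ≤ (Fintype.card I : ℝ) * ((J ∪ E).card : ℝ) *
          (n : ℝ) ^ (Fintype.card I) := by exact_mod_cast h6
      refine h8.trans ?_
      apply mul_le_mul_of_nonneg_right _ hpos.le
      have h9 : ((J ∪ E).card : ℝ) ≤ b + m := by
        exact_mod_cast (card_union_le J E).trans (Nat.add_le_add hJ hE)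
      exact mul_le_mul hIqR h9 (by positivity) (by positivity)
    have h7R : (B3.card : ℝ) ≤ A₂ * (κ / (4 * (A₂ + 1))) * (n : ℝ) ^ (Fintype.card I) := by
      have h8 : (B3.card : ℝ) * (n : ℝ) ^ (p + 3) ≤ (Fintype.card I : ℝ) ^ (p + 3) *
          (((p + 3).factorial : ℝ) * ((cross G P).card : ℝ)) * (n : ℝ) ^ (Fintype.card I) := by
        exact_mod_cast h7
      have h9 : (Fintype.card I : ℝ) ^ (p + 3) *
          (((p + 3).factorial : ℝ) * ((cross G P).card : ℝ)) * (n : ℝ) ^ (Fintype.card I) ≤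
          (A₂ * (κ / (4 * (A₂ + 1))) * (n : ℝ) ^ (Fintype.card I)) * (n : ℝ) ^ (p + 3) := by
        have h10 : (Fintype.card I : ℝ) ^ (p + 3) *
          (((p + 3).factorial : ℝ) * ((cross G P).card : ℝ)) ≤
          (q₀ : ℝ) ^ (p + 3) *
          (((p + 3).factorial : ℝ) * (κ / (4 * (A₂ + 1)) * (n : ℝ) ^ (p + 3))) := by
          apply mul_le_mul (pow_le_pow_left₀ (by positivity) hIqR _) _ (by positivity)
            (by positivity)
          exact mul_le_mul_of_nonneg_left hX (by positivity)
        calc _ ≤ ((q₀ : ℝ) ^ (p + 3) *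
          (((p + 3).factorial : ℝ) * (κ / (4 * (A₂ + 1)) * (n : ℝ) ^ (p + 3)))) *
            (n : ℝ) ^ (Fintype.card I) := mul_le_mul_of_nonneg_right h10 hpos.le
          _ = _ := by rw [hA₂]; ring
      exact le_of_mul_le_mul_right (h8.trans h9) (by positivity)
    have h8 : A₂ * (κ / (4 * (A₂ + 1))) ≤ κ / 4 := by
      rw [mul_div_assoc', div_le_div_iff₀ (by positivity) (by norm_num)]
      nlinarith
    have h9 : A₃ ≤ κ / 4 * n := by
      rw [div_le_iff₀ hκ0] at hnA
      linarith
    have h10 : ((B1.card : ℝ) + B2.card) * n ≤ κ / 4 * (n : ℝ) ^ (Fintype.card I) * n := by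
      calc ((B1.card : ℝ) + B2.card) * n = B1.card * n + B2.card * n := by ring
        _ ≤ (q₀ : ℝ) ^ 2 * (n : ℝ) ^ (Fintype.card I) +
            (q₀ : ℝ) * (b + m) * (n : ℝ) ^ (Fintype.card I) := add_le_add h5R h6R
        _ = A₃ * (n : ℝ) ^ (Fintype.card I) := by rw [hA₃]; ring
        _ ≤ (κ / 4 * n) * (n : ℝ) ^ (Fintype.card I) := mul_le_mul_of_nonneg_right h9 hpos.le
        _ = _ := by ring
    have h11 : (B1.card : ℝ) + B2.card ≤ κ / 4 * (n : ℝ) ^ (Fintype.card I) :=
      le_of_mul_le_mul_right h10 hn0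
    have h12 : (B3.card : ℝ) ≤ κ / 4 * (n : ℝ) ^ (Fintype.card I) :=
      h7R.trans (mul_le_mul_of_nonneg_right h8 hpos.le)
    have h13 : 0 < κ * (n : ℝ) ^ (Fintype.card I) := by positivity
    linarith
  obtain ⟨⟨γ₀, ρ₀⟩, hx, hω⟩ := hex
  rw [mem_product] at hx
  obtain ⟨hγ, hρ⟩ := hx
  rw [mem_union, mem_union, not_or, not_or] at hω
  obtain ⟨hω1, hω2, hω3⟩ := hω
  rw [hB1, mem_filter, not_and, not_not] at hω1
  have hinj := hω1 (mem_univ _)
  rw [hB2, mem_filter, not_and] at hω2
  have hhit := hω2 (mem_univ _)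
  push Not at hhit
  rw [hB3, mem_filter, not_and] at hω3
  have hcon := hω3 (mem_univ _)
  push Not at hcon
  simp only at hγ hρ
  rw [hΓ, Fintype.mem_piFinset] at hγ
  rw [hR, mem_filter] at hρ
  have hγm : ∀ x, univ.image (γ₀ x) ∈ miss (p + 2) G P x.1 x.2 := by
    intro x
    have := hγ x
    rw [hMT, mem_filter] at this
    exact this.2
  refine ⟨fun u i => if h : u ∈ J then univ.image (γ₀ (⟨u, h⟩, i)) else ∅,
    fun i => univ.image fun x : Fin a => ρ₀ (i, x), ?_, ?_, ?_, ?_, ?_, ?_⟩
  · intro u hu i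
    beta_reduce
    rw [dif_pos hu]
    refine ⟨hγm (⟨u, hu⟩, i), ?_⟩
    rw [disjoint_left]
    intro x hx
    obtain ⟨y, -, rfl⟩ := mem_image.mp hx
    exact hhit (Sum.inl ((⟨u, hu⟩, i), y))
  · intro u hu i u' hu' i' hne
    beta_reduce
    rw [dif_pos hu, dif_pos hu', disjoint_left]
    intro x hx hx'
    obtain ⟨y, -, rfl⟩ := mem_image.mp hx
    obtain ⟨y', -, hy'⟩ := mem_image.mp hx'
    have h1 := @hinj (Sum.inl ((⟨u', hu'⟩, i'), y')) (Sum.inl ((⟨u, hu⟩, i), y)) hy'
    rw [Sum.inl.injEq, Prod.mk.injEq, Prod.mk.injEq, Subtype.mk.injEq] at h1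
    exact hne (by rw [h1.1.1, h1.1.2])
  · intro i
    refine ⟨?_, ?_, ?_⟩
    · intro x hx
      obtain ⟨y, -, rfl⟩ := mem_image.mp hx
      exact hρ.2.1 (i, y)
    · rw [card_image_of_injective, card_univ, Fintype.card_fin]
      intro y y' h
      have h1 := @hinj (Sum.inr (i, y)) (Sum.inr (i, y')) h
      rw [Sum.inr.injEq, Prod.mk.injEq] at h1
      exact h1.2
    · rw [disjoint_left]
      intro x hx
      obtain ⟨y, -, rfl⟩ := mem_image.mp hx
      exact hhit (Sum.inr (i, y))
  · intro u hu i i'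
    beta_reduce
    rw [dif_pos hu, disjoint_left]
    intro x hx hx'
    obtain ⟨y, -, rfl⟩ := mem_image.mp hx
    obtain ⟨y', -, hy'⟩ := mem_image.mp hx'
    have h1 := @hinj (Sum.inr (i', y')) (Sum.inl ((⟨u, hu⟩, i), y)) hy'
    exact absurd h1 (by simp)
  · intro e he hsub
    apply hcon e he
    intro x hx
    have h1 := hsub hx
    rw [mem_union, mem_biUnion, mem_biUnion] at h1
    rw [mem_image]
    rcases h1 with ⟨u, hu, h2⟩ | ⟨i, -, h2⟩
    · rw [mem_biUnion] at h2
      obtain ⟨i, -, h3⟩ := h2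
      beta_reduce at h3
      rw [dif_pos hu] at h3
      obtain ⟨y, -, hy⟩ := mem_image.mp h3
      exact ⟨Sum.inl ((⟨u, hu⟩, i), y), mem_univ _, hy⟩
    · obtain ⟨y, -, hy⟩ := mem_image.mp h2
      exact ⟨Sum.inr (i, y), mem_univ _, hy⟩
  · intro v hv i g hg hgc
    have h1 : ∀ x : g, ∃ y : Fin a, ρ₀ (i, y) = x := by
      intro x
      obtain ⟨y, -, hy⟩ := mem_image.mp (hg x.2)
      exact ⟨y, hy⟩
    choose τ hτ using h1
    obtain ⟨eq⟩ : Nonempty (Fin (p + 2) ≃ g) := by
      rw [← Fintype.card_eq, Fintype.card_fin, Fintype.card_coe, hgc]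
    have h2 := hρ.2.2 v hv i (fun y => τ (eq y)) (by
      intro y y' h
      apply eq.injective
      apply Subtype.ext
      rw [← hτ (eq y), ← hτ (eq y')]
      have h' : τ (eq y) = τ (eq y') := h
      rw [h'])
    have h3 : (univ.image fun y => ρ₀ (i, τ (eq y))) = g := by
      ext x
      rw [mem_image]
      constructor
      · rintro ⟨y, -, rfl⟩
        rw [hτ]; exact (eq y).2
      · intro hx
        exact ⟨eq.symm ⟨x, hx⟩, mem_univ _, by rw [hτ, Equiv.apply_symm_apply]⟩
    rwa [h3] at h2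

end Pool.Agent.Lib.MP_455133_co.WN
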