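import Mathlib
import Pool.Agent.Lib.MP_455133_co.WN.WDefs

/-!
The embedding lemma: the chosen sets give a large set without complete `(a+1)`-sets.
-/

namespace Pool.Agent.Lib.MP_455133_co.WN

open Finset

private theorem embB_sdiff {V : Type*} [DecidableEq V] {e S : Finset V} (h : ¬ e ⊆ S) :
    1 ≤ (e \ S).card := by
  rw [Nat.one_le_iff_ne_zero, Ne, Finset.card_eq_zero, Finset.sdiff_eq_empty_iff_subset]
  exact h

private theorem embB_big {V ι : Type*} [DecidableEq V] {s : Finset ι} {f : ι → Finset V}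
    {S : Finset V} (hd : ∀ x ∈ s, ∀ y ∈ s, x ≠ y → Disjoint (f x) (f y))
    (hn : ∀ x ∈ s, ¬ f x ⊆ S) : s.card ≤ (s.biUnion fun x => f x \ S).card := by
  rw [Finset.card_biUnion]
  · calc s.card = ∑ _x ∈ s, 1 := by rw [Finset.sum_const, smul_eq_mul, mul_one]
      _ ≤ ∑ x ∈ s, (f x \ S).card := Finset.sum_le_sum fun x hx => embB_sdiff (hn x hx)
  · intro x hx y hy hxy
    exact (hd x hx y hy hxy).mono Finset.sdiff_subset Finset.sdiff_subset

/-- PROOF. Let `E = M.biUnion id`, `h i` the number of the `e ∈ M` inside `P i` (`∑ h i = |M|`),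
`ρ' i ⊆ ρ i` with `a - (p+2) (|J| + h i)` points, `T` the union of `J`, `E`, all `γ u i` (`u ∈ J`)
and all `ρ' i`. All these sets are disjoint, so `|T| = |J| + (p+3) |M| + (p+2) k |J| + k a -
(p+2) (k |J| + |M|) = k a + b`.
Let `S ⊆ T`, `|S| = a + 1`, and suppose that all `(p+3)`-subsets of `S` are in `G`. Let
`Q = S \ (J ∪ E)`; `|Q| ≥ a + 1 - |J| - (p+3) |M| ≥ p + 3`. (1) `Q` is inside some `P i`: otherwise
there are two points of `Q` in different parts, a `(p+3)`-subset `R` of `Q` containing both is in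
`cross G P`, inside the union of the `γ`, `ρ`, a contradiction. (2) `S ∩ E ⊆ P i`: otherwise let
`v ∈ S ∩ E`, `v ∈ P l`, `l ≠ i`; `Q ∩ ρ' i` has at least `|Q| - (p+2) |J| ≥ p + 2` points, take
`p + 2` of them, `g`; `insert v g ⊆ S` is in `G`, so in `cross G P`, a contradiction. (3) So
`S \ J ⊆ T_i := T ∩ P i \ J` (`γ u l`, `ρ' l` are inside `P l`), `|T_i| = (p+3) h i + (p+2) |J| +
a - (p+2) (|J| + h i) = a + h i`. Let `x = |S ∩ J|`; `|T_i \ S| = a + h i - (a + 1 - x) =
h i + x - 1`. But the `h i + x` disjoint sets `e ∈ M`, `e ⊆ P i`, and `γ u i`, `u ∈ S ∩ J`, are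
inside `T_i` and not inside `S` (`e ∉ G`, `insert u (γ u i) ∉ G`), so each has a point in
`T_i \ S`, a contradiction. -/
theorem emb_free {p k a b n : ℕ} (hab : (p + 3) * (b + 1) ≤ a + 1)
    {G : Finset (Finset (Fin n))} {P : Fin k → Finset (Fin n)}
    (hP : ∀ i j, i ≠ j → Disjoint (P i) (P j)) {J : Finset (Fin n)} {M : Finset (Finset (Fin n))}
    (hM : ∀ e ∈ M, e.card = p + 3 ∧ e ∉ G ∧ ∃ i, e ⊆ P i)
    (hMd : ∀ e ∈ M, ∀ e' ∈ M, e ≠ e' → Disjoint e e') (hMJ : ∀ e ∈ M, Disjoint e J)
    (hJM : J.card + M.card = b)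
    {γ : Fin n → Fin k → Finset (Fin n)} {ρ : Fin k → Finset (Fin n)}
    (h1 : ∀ u ∈ J, ∀ i, γ u i ∈ miss (p + 2) G P u i ∧ Disjoint (γ u i) (J ∪ M.biUnion id))
    (h2 : ∀ u ∈ J, ∀ i, ∀ u' ∈ J, ∀ i', (u, i) ≠ (u', i') → Disjoint (γ u i) (γ u' i'))
    (h3 : ∀ i, ρ i ⊆ P i ∧ (ρ i).card = a ∧ Disjoint (ρ i) (J ∪ M.biUnion id))
    (h4 : ∀ u ∈ J, ∀ i i', Disjoint (γ u i) (ρ i'))
    (h5 : ∀ e ∈ cross G P, ¬ e ⊆ (J.biUnion fun u => univ.biUnion (γ u)) ∪ univ.biUnion ρ)
    (h6 : ∀ v ∈ M.biUnion id, ∀ i, ∀ g ⊆ ρ i, g.card = p + 2 → insert v g ∉ cross G P) :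
    ∃ T : Finset (Fin n), T.card = k * a + b ∧
      ∀ S ⊆ T, S.card = a + 1 → ∃ R ⊆ S, R.card = p + 3 ∧ R ∉ G := by
  classical
  have hγ : ∀ u ∈ J, ∀ i, γ u i ⊆ P i ∧ (γ u i).card = p + 2 ∧ u ∉ γ u i ∧
      insert u (γ u i) ∉ G := by
    intro u hu i
    have h := (h1 u hu i).1
    unfold miss at h
    rw [Finset.mem_filter, Finset.mem_powersetCard] at h
    exact ⟨h.1.1, h.1.2, h.2.1, h.2.2⟩
  have hpart : ∀ {v : Fin n} {i j : Fin k}, v ∈ P i → v ∈ P j → i = j := by
    intro v i j hi hj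
    by_contra hij
    exact Finset.disjoint_left.1 (hP i j hij) hi hj
  obtain ⟨h, hh⟩ : ∃ h : Fin k → ℕ, ∀ i, h i = (M.filter fun e => e ⊆ P i).card :=
    ⟨_, fun _ => rfl⟩
  have hsum : ∑ i, h i = M.card := by
    have hM' : M = univ.biUnion fun i => M.filter fun e => e ⊆ P i := by
      ext e
      simp only [Finset.mem_biUnion, Finset.mem_univ, true_and, Finset.mem_filter]
      constructor
      · intro he
        obtain ⟨i, hi⟩ := (hM e he).2.2
        exact ⟨i, he, hi⟩
      · rintro ⟨i, he, _⟩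
        exact he
    have hd : ∀ i ∈ (univ : Finset (Fin k)), ∀ j ∈ (univ : Finset (Fin k)), i ≠ j →
        Disjoint (M.filter fun e => e ⊆ P i) (M.filter fun e => e ⊆ P j) := by
      intro i _ j _ hij
      rw [Finset.disjoint_left]
      intro e he he'
      rw [Finset.mem_filter] at he he'
      have hc := (hM e he.1).1
      obtain ⟨v, hv⟩ : e.Nonempty := by
        rw [← Finset.card_pos, hc]
        omega
      exact hij (hpart (he.2 hv) (he'.2 hv))
    have h7 := Finset.card_biUnion hd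
    rw [← hM'] at h7
    rw [h7]
    exact Finset.sum_congr rfl fun i _ => hh i
  have hhM : ∀ i, h i ≤ M.card := by
    intro i
    rw [hh i]
    exact Finset.card_le_card (Finset.filter_subset _ _)
  have key : (p + 3) * b + (p + 2) ≤ a := by
    have : (p + 3) * (b + 1) = (p + 3) * b + (p + 3) := by ring
    omega
  have hle : ∀ i, (p + 2) * (J.card + h i) ≤ a := by
    intro i
    have h7 : J.card + h i ≤ b := by
      have := hhM i
      omega
    have h8 : (p + 2) * (J.card + h i) ≤ (p + 3) * b :=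
      Nat.mul_le_mul (by omega) h7
    omega
  have hex : ∀ i, ∃ r : Finset (Fin n), r ⊆ ρ i ∧ r.card = a - (p + 2) * (J.card + h i) := by
    intro i
    obtain ⟨r, hr, hr'⟩ := Finset.exists_subset_card_eq
      (s := ρ i) (n := a - (p + 2) * (J.card + h i)) (by rw [(h3 i).2.1]; exact Nat.sub_le _ _)
    exact ⟨r, hr, hr'⟩
  choose ρ' hρ' hρc using hex
  obtain ⟨E, hE⟩ : ∃ E : Finset (Fin n), E = M.biUnion id := ⟨_, rfl⟩
  obtain ⟨Γ, hΓ⟩ : ∃ Γ : Finset (Fin n), Γ = J.biUnion fun u => univ.biUnion (γ u) := ⟨_, rfl⟩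
  obtain ⟨R', hR'⟩ : ∃ R' : Finset (Fin n), R' = univ.biUnion ρ' := ⟨_, rfl⟩
  rw [← hE] at h1 h3 h6
  rw [← hΓ] at h5
  -- the cardinalities
  have hEc : E.card = (p + 3) * M.card := by
    rw [hE, Finset.card_biUnion, Finset.sum_const_nat (m := p + 3), mul_comm]
    · exact fun x hx => (hM x hx).1
    · exact fun x hx y hy hxy => hMd x hx y hy hxy
  have hΓc : Γ.card = J.card * (k * (p + 2)) := by
    rw [hΓ, Finset.card_biUnion, Finset.sum_const_nat (m := k * (p + 2))]
    · intro u hu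
      rw [Finset.card_biUnion, Finset.sum_const_nat (m := p + 2), Finset.card_univ, Fintype.card_fin]
      · intro i _
        exact (hγ u hu i).2.1
      · intro i _ j _ hij
        exact h2 u hu i u hu j (fun h8 => hij (Prod.mk.inj h8).2)
    · intro u hu u' hu' huu
      change Disjoint (univ.biUnion (γ u)) (univ.biUnion (γ u'))
      rw [Finset.disjoint_biUnion_left]
      intro i _
      rw [Finset.disjoint_biUnion_right]
      intro j _
      exact h2 u hu i u' hu' j (fun h8 => huu (Prod.mk.inj h8).1)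
  have hRc : R'.card + (p + 2) * (k * J.card + M.card) = k * a := by
    rw [hR', Finset.card_biUnion]
    · have h7 : (p + 2) * (k * J.card + M.card) = ∑ i : Fin k, (p + 2) * (J.card + h i) := by
        rw [← Finset.mul_sum, Finset.sum_add_distrib, hsum, Finset.sum_const, Finset.card_univ,
          Fintype.card_fin, smul_eq_mul]
      rw [h7, ← Finset.sum_add_distrib, Finset.sum_const_nat (m := a), Finset.card_univ,
        Fintype.card_fin]
      intro i _
      rw [hρc i, Nat.sub_add_cancel (hle i)]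
    · intro i _ j _ hij
      exact (hP i j hij).mono ((hρ' i).trans (h3 i).1) ((hρ' j).trans (h3 j).1)
  have dJE : Disjoint J E := by
    rw [hE, Finset.disjoint_biUnion_right]
    exact fun e he => (hMJ e he).symm
  have dΓ : Disjoint Γ (J ∪ E) := by
    rw [hΓ, Finset.disjoint_biUnion_left]
    intro u hu
    rw [Finset.disjoint_biUnion_left]
    exact fun i _ => (h1 u hu i).2
  have dR : Disjoint R' (J ∪ E) := by
    rw [hR', Finset.disjoint_biUnion_left]
    exact fun i _ => (h3 i).2.2.mono_left (hρ' i)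
  have dΓR : Disjoint Γ R' := by
    rw [hΓ, Finset.disjoint_biUnion_left]
    intro u hu
    rw [Finset.disjoint_biUnion_left]
    intro i _
    rw [hR', Finset.disjoint_biUnion_right]
    exact fun j _ => (h4 u hu i j).mono_right (hρ' j)
  have hΓP : ∀ v ∈ Γ, ∃ u ∈ J, ∃ i, v ∈ γ u i ∧ v ∈ P i := by
    intro v hv
    rw [hΓ, Finset.mem_biUnion] at hv
    obtain ⟨u, hu, hv⟩ := hv
    obtain ⟨i, _, hv⟩ := Finset.mem_biUnion.1 hv
    exact ⟨u, hu, i, hv, (hγ u hu i).1 hv⟩
  have hRP : ∀ v ∈ R', ∃ i, v ∈ ρ' i ∧ v ∈ P i := by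
    intro v hv
    rw [hR'] at hv
    obtain ⟨i, _, hv⟩ := Finset.mem_biUnion.1 hv
    exact ⟨i, hv, (h3 i).1 (hρ' i hv)⟩
  have hEP : ∀ v ∈ E, ∃ e ∈ M, ∃ i, v ∈ e ∧ e ⊆ P i := by
    intro v hv
    rw [hE] at hv
    obtain ⟨e, he, hv⟩ := Finset.mem_biUnion.1 hv
    obtain ⟨i, hi⟩ := (hM e he).2.2
    exact ⟨e, he, i, hv, hi⟩
  refine ⟨(J ∪ E) ∪ (Γ ∪ R'), ?_, ?_⟩
  · have d1 : Disjoint (J ∪ E) (Γ ∪ R') := by
      rw [Finset.disjoint_union_right]
      exact ⟨dΓ.symm, dR.symm⟩
    rw [Finset.card_union_of_disjoint d1, Finset.card_union_of_disjoint dJE,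
      Finset.card_union_of_disjoint dΓR, hEc, hΓc, ← hRc, ← hJM]
    ring
  · intro S hS hSc
    by_contra hcon
    push Not at hcon
    obtain ⟨Q, hQ⟩ : ∃ Q : Finset (Fin n), Q = S \ (J ∪ E) := ⟨_, rfl⟩
    have hQS : Q ⊆ S := by rw [hQ]; exact Finset.sdiff_subset
    have hQT : Q ⊆ Γ ∪ R' := by
      intro v hv
      rw [hQ, Finset.mem_sdiff] at hv
      rcases Finset.mem_union.1 (hS hv.1) with h7 | h7
      · exact absurd h7 hv.2
      · exact h7
    have hQc : (p + 3) + (p + 2) * J.card ≤ Q.card := by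
      have h7 : S.card ≤ Q.card + (J ∪ E).card := by
        rw [hQ]
        have h8 := Finset.card_sdiff_add_card_inter S (J ∪ E)
        have h9 : (S ∩ (J ∪ E)).card ≤ (J ∪ E).card := Finset.card_le_card Finset.inter_subset_right
        omega
      rw [Finset.card_union_of_disjoint dJE, hEc, hSc] at h7
      have h8 : (p + 3) * b = J.card + (p + 2) * J.card + (p + 3) * M.card := by
        rw [← hJM]
        ring
      omega
    -- (1)
    have hQne : Q.Nonempty := by
      rw [← Finset.card_pos]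
      omega
    obtain ⟨q, hq⟩ := hQne
    have hTP : ∀ v ∈ Γ ∪ R', ∃ i, v ∈ P i := by
      intro v hv
      rcases Finset.mem_union.1 hv with h7 | h7
      · obtain ⟨u, _, i, _, hi⟩ := hΓP v h7
        exact ⟨i, hi⟩
      · obtain ⟨i, _, hi⟩ := hRP v h7
        exact ⟨i, hi⟩
    have hR'ρ : R' ⊆ univ.biUnion ρ := by
      intro v hv
      rw [hR'] at hv
      obtain ⟨i, hi, hv⟩ := Finset.mem_biUnion.1 hv
      exact Finset.mem_biUnion.2 ⟨i, hi, hρ' i hv⟩
    obtain ⟨i, hqi⟩ := hTP q (hQT hq)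
    have hQP : Q ⊆ P i := by
      intro q' hq'
      by_contra hq'i
      have hne : q ≠ q' := fun h7 => hq'i (h7 ▸ hqi)
      have hpair : ({q, q'} : Finset (Fin n)) ⊆ Q := by
        intro v hv
        rw [Finset.mem_insert, Finset.mem_singleton] at hv
        rcases hv with rfl | rfl
        · exact hq
        · exact hq'
      obtain ⟨R, hR1, hR2, hR3⟩ := Finset.exists_subsuperset_card_eq hpair
        (n := p + 3) (by rw [Finset.card_pair hne]; omega) (by omega)
      have hqR : q ∈ R := hR1 (Finset.mem_insert_self _ _)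
      have hqR' : q' ∈ R := hR1 (Finset.mem_insert_of_mem (Finset.mem_singleton_self _))
      have hRG := hcon R (hR2.trans hQS) hR3
      have hRcr : R ∈ cross G P := by
        unfold cross
        rw [Finset.mem_filter]
        refine ⟨hRG, ?_, ?_⟩
        · intro v hv
          obtain ⟨j, hj⟩ := hTP v (hQT (hR2 hv))
          exact Finset.mem_biUnion.2 ⟨j, Finset.mem_univ _, hj⟩
        · intro j hj
          have h8 := hpart hqi (hj hqR)
          exact hq'i (h8 ▸ hj hqR')
      refine h5 R hRcr ?_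
      exact (hR2.trans hQT).trans (Finset.union_subset_union (Finset.Subset.refl _) hR'ρ)
    -- the points of `Q` in `Γ`
    have hΓi : ∀ v ∈ Γ, v ∈ P i → v ∈ J.biUnion fun u => γ u i := by
      intro v hv hvi
      obtain ⟨u, hu, j, hj, hj'⟩ := hΓP v hv
      rw [hpart hj' hvi] at hj
      exact Finset.mem_biUnion.2 ⟨u, hu, hj⟩
    have hRi : ∀ v ∈ R', v ∈ P i → v ∈ ρ' i := by
      intro v hv hvi
      obtain ⟨j, hj, hj'⟩ := hRP v hv
      rw [hpart hj' hvi] at hj
      exact hj
    have hγc : (J.biUnion fun u => γ u i).card = J.card * (p + 2) := by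
      rw [Finset.card_biUnion, Finset.sum_const_nat (m := p + 2)]
      · intro u hu
        exact (hγ u hu i).2.1
      · intro u hu u' hu' huu
        exact h2 u hu i u' hu' i (fun h8 => huu (Prod.mk.inj h8).1)
    -- (2)
    have hSE : ∀ v ∈ S, v ∈ E → v ∈ P i := by
      intro v hv hvE
      by_contra hvi
      have h7 : p + 2 ≤ (Q ∩ ρ' i).card := by
        have h8 : Q ⊆ (J.biUnion fun u => γ u i) ∪ (Q ∩ ρ' i) := by
          intro w hw
          rw [Finset.mem_union]
          rcases Finset.mem_union.1 (hQT hw) with h9 | h9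
          · exact Or.inl (hΓi w h9 (hQP hw))
          · exact Or.inr (Finset.mem_inter.2 ⟨hw, hRi w h9 (hQP hw)⟩)
        have h9 := (Finset.card_le_card h8).trans (Finset.card_union_le _ _)
        rw [hγc, mul_comm] at h9
        omega
      obtain ⟨g, hg, hgc⟩ := Finset.exists_subset_card_eq h7
      have hgρ : g ⊆ ρ i := fun w hw => hρ' i (Finset.mem_inter.1 (hg hw)).2
      have hgQ : g ⊆ Q := fun w hw => (Finset.mem_inter.1 (hg hw)).1
      have hvg : v ∉ g := by
        intro hvg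
        have h8 := hgQ hvg
        rw [hQ, Finset.mem_sdiff] at h8
        exact h8.2 (Finset.mem_union_right _ hvE)
      have hins : insert v g ∈ G := by
        refine hcon _ ?_ ?_
        · intro w hw
          rcases Finset.mem_insert.1 hw with h8 | h8
          · rw [h8]; exact hv
          · exact hQS (hgQ h8)
        · rw [Finset.card_insert_of_notMem hvg, hgc]
      refine h6 v hvE i g hgρ hgc ?_
      unfold cross
      rw [Finset.mem_filter]
      refine ⟨hins, ?_, ?_⟩
      · intro w hw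
        rcases Finset.mem_insert.1 hw with h8 | h8
        · obtain ⟨e, _, j, hj, hj'⟩ := hEP v hvE
          rw [h8]
          exact Finset.mem_biUnion.2 ⟨j, Finset.mem_univ _, hj' hj⟩
        · exact Finset.mem_biUnion.2 ⟨i, Finset.mem_univ _, (h3 i).1 (hgρ h8)⟩
      · intro j hj
        obtain ⟨w, hw⟩ : g.Nonempty := by
          rw [← Finset.card_pos, hgc]
          omega
        have h8 := hpart ((h3 i).1 (hgρ hw)) (hj (Finset.mem_insert_of_mem hw))
        exact hvi (h8 ▸ hj (Finset.mem_insert_self v g))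
    -- (3)
    obtain ⟨A, hA⟩ : ∃ A : Finset (Fin n), A = (M.filter fun e => e ⊆ P i).biUnion id := ⟨_, rfl⟩
    obtain ⟨B, hB⟩ : ∃ B : Finset (Fin n), B = J.biUnion fun u => γ u i := ⟨_, rfl⟩
    have hAc : A.card = (p + 3) * h i := by
      rw [hA, hh i, Finset.card_biUnion, Finset.sum_const_nat (m := p + 3), mul_comm]
      · exact fun x hx => (hM x (Finset.mem_filter.1 hx).1).1
      · exact fun x hx y hy hxy =>
          hMd x (Finset.mem_filter.1 hx).1 y (Finset.mem_filter.1 hy).1 hxy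
    have hBc : B.card = J.card * (p + 2) := by rw [hB, hγc]
    have hTi : (A ∪ B ∪ ρ' i).card ≤ a + h i := by
      have h7 := (Finset.card_union_le (A ∪ B) (ρ' i)).trans
        (Nat.add_le_add_right (Finset.card_union_le A B) _)
      rw [hAc, hBc, hρc i] at h7
      have h8 := hle i
      have h9 : (p + 3) * h i + J.card * (p + 2) = h i + (p + 2) * (J.card + h i) := by ring
      omega
    have hAE : A ⊆ E := by
      rw [hA, hE]
      exact Finset.biUnion_subset_biUnion_of_subset_left _ (Finset.filter_subset _ _)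
    have hBΓ : B ⊆ Γ := by
      intro v hv
      rw [hB] at hv
      obtain ⟨u, hu, hv⟩ := Finset.mem_biUnion.1 hv
      rw [hΓ]
      exact Finset.mem_biUnion.2 ⟨u, hu, Finset.mem_biUnion.2 ⟨i, Finset.mem_univ _, hv⟩⟩
    have hSJ : S \ J ⊆ A ∪ B ∪ ρ' i := by
      intro v hv
      rw [Finset.mem_sdiff] at hv
      by_cases hvE : v ∈ E
      · have h7 := hSE v hv.1 hvE
        obtain ⟨e, he, j, hj, hj'⟩ := hEP v hvE
        have h8 := hpart (hj' hj) h7
        rw [h8] at hj'
        refine Finset.mem_union_left _ (Finset.mem_union_left _ ?_)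
        rw [hA]
        exact Finset.mem_biUnion.2 ⟨e, Finset.mem_filter.2 ⟨he, hj'⟩, hj⟩
      · have hvQ : v ∈ Q := by
          rw [hQ, Finset.mem_sdiff, Finset.mem_union]
          exact ⟨hv.1, fun h7 => h7.elim hv.2 hvE⟩
        rcases Finset.mem_union.1 (hQT hvQ) with h9 | h9
        · refine Finset.mem_union_left _ (Finset.mem_union_right _ ?_)
          rw [hB]
          exact hΓi v h9 (hQP hvQ)
        · exact Finset.mem_union_right _ (hRi v h9 (hQP hvQ))
    have hA' : h i ≤ ((M.filter fun e => e ⊆ P i).biUnion fun e => id e \ S).card := by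
      rw [hh i]
      refine embB_big (fun x hx y hy hxy =>
        hMd x (Finset.mem_filter.1 hx).1 y (Finset.mem_filter.1 hy).1 hxy) ?_
      intro e he heS
      have h7 := hM e (Finset.mem_filter.1 he).1
      exact h7.2.1 (hcon e heS h7.1)
    have hB' : (S ∩ J).card ≤ ((S ∩ J).biUnion fun u => γ u i \ S).card := by
      refine embB_big (fun x hx y hy hxy => h2 x (Finset.mem_inter.1 hx).2 i y
        (Finset.mem_inter.1 hy).2 i (fun h8 => hxy (Prod.mk.inj h8).1)) ?_
      intro u hu huS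
      have hu' := Finset.mem_inter.1 hu
      have h7 := hγ u hu'.2 i
      refine h7.2.2.2 (hcon _ ?_ ?_)
      · intro w hw
        rcases Finset.mem_insert.1 hw with h8 | h8
        · rw [h8]; exact hu'.1
        · exact huS h8
      · rw [Finset.card_insert_of_notMem h7.2.2.1, h7.2.1]
    obtain ⟨A', hA''⟩ : ∃ A' : Finset (Fin n),
      A' = (M.filter fun e => e ⊆ P i).biUnion fun e => id e \ S := ⟨_, rfl⟩
    obtain ⟨B', hB''⟩ : ∃ B' : Finset (Fin n),
      B' = (S ∩ J).biUnion fun u => γ u i \ S := ⟨_, rfl⟩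
    rw [← hA''] at hA'
    rw [← hB''] at hB'
    have hA's : ∀ v ∈ A', v ∈ A ∧ v ∉ S := by
      intro v hv
      rw [hA''] at hv
      obtain ⟨e, he, hv⟩ := Finset.mem_biUnion.1 hv
      rw [Finset.mem_sdiff] at hv
      refine ⟨?_, hv.2⟩
      rw [hA]
      exact Finset.mem_biUnion.2 ⟨e, he, hv.1⟩
    have hB's : ∀ v ∈ B', v ∈ B ∧ v ∉ S := by
      intro v hv
      rw [hB''] at hv
      obtain ⟨u, hu, hv⟩ := Finset.mem_biUnion.1 hv
      rw [Finset.mem_sdiff] at hv
      refine ⟨?_, hv.2⟩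
      rw [hB]
      exact Finset.mem_biUnion.2 ⟨u, (Finset.mem_inter.1 hu).2, hv.1⟩
    have d1 : Disjoint A' B' := by
      rw [Finset.disjoint_left]
      intro v hv hv'
      exact Finset.disjoint_left.1 dΓ (hBΓ (hB's v hv').1)
        (Finset.mem_union_right _ (hAE (hA's v hv).1))
    have d2 : Disjoint (A' ∪ B') (S \ J) := by
      rw [Finset.disjoint_left]
      intro v hv hv'
      rcases Finset.mem_union.1 hv with h7 | h7
      · exact (hA's v h7).2 (Finset.mem_sdiff.1 hv').1
      · exact (hB's v h7).2 (Finset.mem_sdiff.1 hv').1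
    have hfin : (A' ∪ B') ∪ (S \ J) ⊆ A ∪ B ∪ ρ' i := by
      refine Finset.union_subset (Finset.union_subset ?_ ?_) hSJ
      · intro v hv
        exact Finset.mem_union_left _ (Finset.mem_union_left _ (hA's v hv).1)
      · intro v hv
        exact Finset.mem_union_left _ (Finset.mem_union_right _ (hB's v hv).1)
    have h7 := (Finset.card_le_card hfin).trans hTi
    rw [Finset.card_union_of_disjoint d2, Finset.card_union_of_disjoint d1] at h7
    have h8 := Finset.card_sdiff_add_card_inter S J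
    omega

end Pool.Agent.Lib.MP_455133_co.WN
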