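import Mathlib
import Pool.Agent.Lib.MP_455133_co.WN.EmbA
import Pool.Agent.Lib.MP_455133_co.WN.EmbB

/-!
The embedding lemma.
-/

namespace Pool.Agent.Lib.MP_455133_co.WN

open Finset

/-- PROOF. If `b ≤ |J| + |M|`, take subsets with `|J'| + |M'| = b` (first `J' ⊆ J` with
`min b |J|` points). `exists_choice` with `E = M'.biUnion id` (`|E| ≤ (p+3) b`) and `emb_free`
contradict the covering property. -/
theorem emb (p k a b : ℕ) (hk : 1 ≤ k) (hab : (p + 3) * (b + 1) ≤ a + 1) :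
    ∃ δ₂ : ℝ, 0 < δ₂ ∧ ∀ δ : ℝ, 0 < δ → ∃ ε : ℝ, 0 < ε ∧ ∃ n₀ : ℕ, ∀ n : ℕ, n₀ ≤ n →
      ∀ (G : Finset (Finset (Fin n))) (P : Fin k → Finset (Fin n)), (∀ e ∈ G, e.card = p + 3) →
      (∀ i j, i ≠ j → Disjoint (P i) (P j)) →
      (∀ i, (n : ℝ) ≤ 2 * k * ((P i).card : ℝ)) →
      ((cross G P).card : ℝ) ≤ ε * (n : ℝ) ^ (p + 3) →
      (∀ T : Finset (Fin n), T.card = k * a + b →
        ∃ S ⊆ T, S.card = a + 1 ∧ ∀ R ⊆ S, R.card = p + 3 → R ∈ G) →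
      ∀ (J : Finset (Fin n)) (M : Finset (Finset (Fin n))),
      (∀ u ∈ J, ∀ i, δ * (n : ℝ) ^ (p + 2) ≤ ((miss (p + 2) G P u i).card : ℝ)) →
      (∀ e ∈ M, e.card = p + 3 ∧ e ∉ G ∧ (∃ i, e ⊆ P i) ∧
        ∀ v ∈ e, (dg (cross G P) v : ℝ) ≤ δ₂ * (n : ℝ) ^ (p + 2)) →
      (∀ e ∈ M, ∀ e' ∈ M, e ≠ e' → Disjoint e e') → (∀ e ∈ M, Disjoint e J) →
      J.card + M.card < b := by
  obtain ⟨δ₂, h2, h⟩ := exists_choice p k a b hk
  refine ⟨δ₂, h2, fun δ hδ => ?_⟩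
  obtain ⟨ε, hε, n₀, h⟩ := h δ hδ
  refine ⟨ε, hε, n₀, fun n hn G P hG hP hPn hcr hT J M hJ hM hMd hMJ => ?_⟩
  by_contra hcon
  have hcon' : b ≤ J.card + M.card := not_lt.1 hcon
  obtain ⟨J', hJ'J, hJ'c⟩ := Finset.exists_subset_card_eq (s := J) (n := min b J.card)
    (min_le_right _ _)
  obtain ⟨M', hM'M, hM'c⟩ := Finset.exists_subset_card_eq (s := M) (n := b - J'.card) (by
    rw [hJ'c]
    omega)
  have hJ'b : J'.card ≤ b := hJ'c ▸ min_le_left _ _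
  have hJM : J'.card + M'.card = b := by omega
  have hE : (M'.biUnion id).card ≤ (p + 3) * b := by
    refine Finset.card_biUnion_le.trans ?_
    refine (Finset.sum_le_card_nsmul M' (fun e => (id e).card) (p + 3)
      fun e he => (hM e (hM'M he)).1.le).trans ?_
    rw [smul_eq_mul, mul_comm]
    exact Nat.mul_le_mul_left _ (by omega)
  obtain ⟨γ, ρ, c1, c2, c3, c4, c5, c6⟩ := h n hn G P hG hPn hcr J' (M'.biUnion id) hJ'b hE
    (fun u hu => hJ u (hJ'J hu)) (fun v hv => by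
      obtain ⟨e, he, hve⟩ := Finset.mem_biUnion.1 hv
      exact (hM e (hM'M he)).2.2.2 v hve)
  obtain ⟨T, hTc, hTf⟩ := emb_free hab hP (J := J') (M := M')
    (fun e he => ⟨(hM e (hM'M he)).1, (hM e (hM'M he)).2.1, (hM e (hM'M he)).2.2.1⟩)
    (fun e he e' he' hne => hMd e (hM'M he) e' (hM'M he') hne)
    (fun e he => (hMJ e (hM'M he)).mono_right hJ'J) hJM c1 c2 c3 c4 c5 c6
  obtain ⟨S, hST, hSc, hSR⟩ := hT T hTc
  obtain ⟨R, hRS, hRc, hRG⟩ := hTf S hST hSc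
  exact hRG (hSR R hRS hRc)

end Pool.Agent.Lib.MP_455133_co.WN
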