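import Mathlib
import Pool.Agent.Lib.MP_455133_co.WN.WDefs

/-!
The refined partition.
-/

namespace Pool.Agent.Lib.MP_455133_co.WN

open Finset

private theorem Refine_choose (n m : ℕ) : n.choose m ≤ n ^ m := by
  calc n.choose m ≤ n.choose m * m.factorial := Nat.le_mul_of_pos_right _ (Nat.factorial_pos m)
    _ = n.descFactorial m := by rw [Nat.descFactorial_eq_factorial_mul_choose, mul_comm]
    _ ≤ n ^ m := Nat.descFactorial_le_pow n m

private theorem Refine_meet {n : ℕ} (m : ℕ) (D : Finset (Fin n)) :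
    ((powersetCard (m + 1) (univ : Finset (Fin n))).filter fun g => ¬ Disjoint g D).card ≤ D.card * n ^ m := by
  have h1 : ((powersetCard (m + 1) (univ : Finset (Fin n))).filter fun g => ¬ Disjoint g D) ⊆
      D.biUnion fun v => (powersetCard m (univ : Finset (Fin n))).image (insert v) := by
    intro g hg
    rw [mem_filter, mem_powersetCard, Finset.not_disjoint_iff] at hg
    obtain ⟨⟨_, hc⟩, v, hvg, hvD⟩ := hg
    rw [mem_biUnion]
    refine ⟨v, hvD, mem_image.2 ⟨g.erase v, mem_powersetCard.2 ⟨subset_univ _, ?_⟩, insert_erase hvg⟩⟩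
    rw [card_erase_of_mem hvg, hc]
    rfl
  refine le_trans (card_le_card h1) (le_trans card_biUnion_le ?_)
  calc ∑ v ∈ D, ((powersetCard m (univ : Finset (Fin n))).image (insert v)).card ≤ ∑ _v ∈ D, n ^ m := by
        refine sum_le_sum fun v _ => le_trans card_image_le ?_
        rw [card_powersetCard, card_univ, Fintype.card_fin]
        exact Refine_choose n m
    _ = _ := by simp

private theorem Refine_count {n k : ℕ} (p : ℕ) (G : Finset (Finset (Fin n))) (P : Fin k → Finset (Fin n))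
    (S : Finset (Fin n)) (c : Fin n → Fin k) (hS : ∀ v ∈ S, v ∈ P (c v)) :
    ∑ v ∈ S, (miss (p + 2) G P v (c v)).card ≤
      (p + 3) * ((powersetCard (p + 3) (univ : Finset (Fin n))).filter fun e => e ∉ G ∧ ∃ i, e ⊆ P i).card := by
  set M := (powersetCard (p + 3) (univ : Finset (Fin n))).filter fun e => e ∉ G ∧ ∃ i, e ⊆ P i with hM
  have h1 : (M.sigma fun e => e).card = (p + 3) * M.card := by
    rw [card_sigma, sum_congr rfl (g := fun _ => p + 3), sum_const, smul_eq_mul, mul_comm]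
    intro e he
    exact (mem_powersetCard.1 (mem_filter.1 he).1).2
  rw [← h1, ← card_sigma]
  refine card_le_card_of_injOn (fun x => ⟨insert x.1 x.2, x.1⟩) ?_ ?_
  · rintro ⟨v, g⟩ hx
    rw [mem_coe, mem_sigma] at hx
    obtain ⟨hv, hg⟩ := hx
    simp only at hv hg
    unfold miss at hg
    rw [mem_filter, mem_powersetCard] at hg
    obtain ⟨⟨hgP, hgc⟩, hvg, hvG⟩ := hg
    rw [mem_coe, mem_sigma]
    refine ⟨?_, mem_insert_self _ _⟩
    rw [hM, mem_filter, mem_powersetCard]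
    refine ⟨⟨subset_univ _, ?_⟩, hvG, c v, insert_subset (hS v hv) hgP⟩
    simp only
    rw [card_insert_of_notMem hvg, hgc]
  · rintro ⟨v, g⟩ hx ⟨v', g'⟩ hx' he
    rw [mem_coe, mem_sigma] at hx hx'
    have hg := (mem_filter.1 hx.2).2.1
    have hg' := (mem_filter.1 hx'.2).2.1
    simp only at hg hg'
    simp only [Sigma.mk.injEq, heq_eq_eq] at he
    obtain ⟨he1, he2⟩ := he
    subst he2
    have h3 : g = g' := by
      rw [← erase_insert hg, ← erase_insert hg', he1]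
    rw [h3]

/-- PROOF. Every `v ∉ J` has some `i` with `|miss v i| < δ n ^ (p+2)`; let `c v` be such an `i`, the
index of the part `P i ∋ v` if that one is possible. `P' i` = the set of the `v ∉ J` with `c v = i`.
Let `D` be the set of all `v` which lie in no `P i`, or in `J`, or in some `P i` with
`|miss v i| ≥ δ n ^ (p+2)`. `|D| ≤ ε₃ n` with `ε₃ = ε + b / n + (p+3) ε / δ` (the sum of
`|miss v i|`, `v ∈ P i`, is at most `(p+3)` times the number of the missing sets inside a part).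
Outside `D` the two partitions agree: `P' i \ P i ⊆ D`, `P i \ P' i ⊆ D`. So:
sizes: `|P' i| ≥ (1-ε) n / k - ε₃ n ≥ n / (2k)`;
`cross G P'`: its members meet `D` (at most `ε₃ n n ^ (p+2)`) or are members of `G` inside no `P i`;
for `v ∈ P' i`: `|miss' v i| ≤ |miss v i| + |P' i \ P i| n ^ (p+1) ≤ (δ + ε₃) n ^ (p+2)`;
for `v ∈ J`: `|miss' v i| ≥ |miss v i| - |P i \ P' i| n ^ (p+1) ≥ (δ - ε₃) n ^ (p+2)`. -/
theorem refine_parts (p k b : ℕ) (hk : 1 ≤ k) {δ ε' : ℝ} (hδ : 0 < δ) (hε' : 0 < ε') :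
    ∃ ε : ℝ, 0 < ε ∧ ∃ n₀ : ℕ, ∀ n : ℕ, n₀ ≤ n →
      ∀ (G : Finset (Finset (Fin n))) (P : Fin k → Finset (Fin n)), (∀ e ∈ G, e.card = p + 3) →
      (∀ i j, i ≠ j → Disjoint (P i) (P j)) →
      (∀ i, (1 - ε) * ((n : ℝ) / k) ≤ ((P i).card : ℝ)) →
      ((G.filter fun e => ∀ i, ¬ e ⊆ P i).card : ℝ) ≤ ε * (n : ℝ) ^ (p + 3) →
      (((powersetCard (p + 3) (univ : Finset (Fin n))).filter fun e =>
          e ∉ G ∧ ∃ i, e ⊆ P i).card : ℝ) ≤ ε * (n : ℝ) ^ (p + 3) →
      ∀ J : Finset (Fin n),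
      (∀ v, v ∈ J ↔ ∀ i, δ * (n : ℝ) ^ (p + 2) ≤ ((miss (p + 2) G P v i).card : ℝ)) →
      J.card ≤ b →
      ∃ P' : Fin k → Finset (Fin n), (∀ i j, i ≠ j → Disjoint (P' i) (P' j)) ∧
        univ.biUnion P' = univ \ J ∧ (∀ i, (n : ℝ) ≤ 2 * k * ((P' i).card : ℝ)) ∧
        ((cross G P').card : ℝ) ≤ ε' * (n : ℝ) ^ (p + 3) ∧
        (∀ i, ∀ v ∈ P' i, ((miss (p + 2) G P' v i).card : ℝ) ≤ 2 * δ * (n : ℝ) ^ (p + 2)) ∧
        (∀ v ∈ J, ∀ i, δ / 2 * (n : ℝ) ^ (p + 2) ≤ ((miss (p + 2) G P' v i).card : ℝ)) := by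
  classical
  have hk0 : (0 : ℝ) < k := by exact_mod_cast hk
  set η : ℝ := min (ε' / 2) (min (δ / 2) (1 / (4 * k))) with hη
  have hη0 : 0 < η := lt_min (by positivity) (lt_min (by positivity) (by positivity))
  have hη1 : η ≤ ε' / 2 := min_le_left _ _
  have hη2 : η ≤ δ / 2 := le_trans (min_le_right _ _) (min_le_left _ _)
  have hη3 : η ≤ 1 / (4 * k) := le_trans (min_le_right _ _) (min_le_right _ _)
  set K : ℝ := 1 + (p + 3) / δ with hK
  have hK1 : 1 ≤ K := by
    rw [hK]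
    have : (0 : ℝ) ≤ (p + 3) / δ := by positivity
    linarith
  refine ⟨η / (2 * K), by positivity, ⌈2 * b / η⌉₊ + 1, ?_⟩
  intro n hn G P hG hP hPc hcr hmi J hJ hJb
  set ε : ℝ := η / (2 * K) with hε
  have hε0 : 0 < ε := by positivity
  have hεK : ε * K = η / 2 := by
    rw [hε]
    field_simp
  have hεη : ε ≤ η / 2 := by
    rw [← hεK]
    nlinarith
  have hnR : (2 * b / η : ℝ) ≤ n := by
    refine le_trans (Nat.le_ceil _) ?_
    exact_mod_cast le_trans (Nat.le_succ _) hn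
  have hn1 : 1 ≤ n := le_trans (Nat.le_add_left _ _) hn
  have hn0 : (0 : ℝ) < n := by exact_mod_cast hn1
  have hbn : (b : ℝ) ≤ η / 2 * n := by
    rw [div_le_iff₀ hη0] at hnR
    linarith
  let Bd : Fin n → Fin k → Prop := fun v i => δ * (n : ℝ) ^ (p + 2) ≤ ((miss (p + 2) G P v i).card : ℝ)
  have hc : ∀ v, ∃ i : Fin k, (v ∉ J → ¬ Bd v i) ∧ ∀ i', v ∈ P i' → ¬ Bd v i' → v ∉ J → i = i' := by
    intro v
    by_cases h : ∃ i', v ∈ P i' ∧ ¬ Bd v i'
    · obtain ⟨i', h1, h2⟩ := h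
      refine ⟨i', fun _ => h2, fun i'' h3 _ _ => ?_⟩
      by_contra hne
      exact Finset.disjoint_left.1 (hP i' i'' hne) h1 h3
    · by_cases hv : v ∈ J
      · exact ⟨⟨0, hk⟩, fun h1 => absurd hv h1, fun _ _ _ h1 => absurd hv h1⟩
      · have h1 : ¬ ∀ i, Bd v i := fun h1 => hv ((hJ v).2 h1)
        push Not at h1
        obtain ⟨i, hi⟩ := h1
        exact ⟨i, fun _ => hi, fun i' h2 h3 _ => absurd ⟨i', h2, h3⟩ h⟩
  choose c hc1 hc2 using hc
  let P' : Fin k → Finset (Fin n) := fun i => (univ \ J).filter fun v => c v = i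
  have hmP' : ∀ i v, v ∈ P' i ↔ v ∉ J ∧ c v = i := by
    intro i v
    simp only [P', mem_filter, mem_sdiff, mem_univ, true_and]
  let D : Finset (Fin n) := univ.filter fun v => (∀ i, v ∉ P i) ∨ v ∈ J ∨ ∃ i, v ∈ P i ∧ Bd v i
  have hDP : ∀ v, v ∉ D → ∀ i, v ∈ P i ↔ v ∈ P' i := by
    intro v hv i
    have hv' : ¬ ((∀ i, v ∉ P i) ∨ v ∈ J ∨ ∃ i, v ∈ P i ∧ Bd v i) := fun h =>
      hv (mem_filter.2 ⟨mem_univ _, h⟩)
    push Not at hv'
    obtain ⟨⟨i0, hi0⟩, hvJ, hB⟩ := hv'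
    rw [hmP']
    constructor
    · intro hi
      exact ⟨hvJ, hc2 v i hi (hB i hi) hvJ⟩
    · rintro ⟨_, h1⟩
      have h2 := hc2 v i0 hi0 (hB i0 hi0) hvJ
      rw [← h1, h2]
      exact hi0
  have hPsum : (1 - ε) * n ≤ ((univ.biUnion P).card : ℝ) := by
    rw [card_biUnion fun i _ j _ hij => hP i j hij]
    push_cast
    calc (1 - ε) * (n : ℝ) = ∑ _i : Fin k, (1 - ε) * ((n : ℝ) / k) := by
          rw [sum_const, card_univ, Fintype.card_fin, nsmul_eq_mul]
          field_simp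
      _ ≤ _ := sum_le_sum fun i _ => hPc i
  have hD1 : (((univ : Finset (Fin n)) \ univ.biUnion P).card : ℝ) ≤ ε * n := by
    rw [card_sdiff_of_subset (subset_univ _), Nat.cast_sub (card_le_card (subset_univ _)), card_univ, Fintype.card_fin]
    linarith
  let D3 : Finset (Fin n) := univ.filter fun v => ∃ i, v ∈ P i ∧ Bd v i
  have hD3 : (D3.card : ℝ) ≤ (p + 3) / δ * ε * n := by
    have hch : ∀ v : Fin n, ∃ i : Fin k, v ∈ D3 → v ∈ P i ∧ Bd v i := by
      intro v
      by_cases hv : v ∈ D3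
      · obtain ⟨i, hi⟩ := (mem_filter.1 hv).2
        exact ⟨i, fun _ => hi⟩
      · exact ⟨⟨0, hk⟩, fun h => absurd h hv⟩
    choose c3 hc3 using hch
    have h1 := Refine_count p G P D3 c3 fun v hv => (hc3 v hv).1
    have h2 : (D3.card : ℝ) * (δ * (n : ℝ) ^ (p + 2)) ≤ (p + 3) * (ε * (n : ℝ) ^ (p + 3)) := by
      calc (D3.card : ℝ) * (δ * (n : ℝ) ^ (p + 2)) = ∑ _v ∈ D3, δ * (n : ℝ) ^ (p + 2) := by
            rw [sum_const, nsmul_eq_mul]
        _ ≤ ∑ v ∈ D3, ((miss (p + 2) G P v (c3 v)).card : ℝ) := sum_le_sum fun v hv => (hc3 v hv).2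
        _ ≤ (p + 3) * ((((powersetCard (p + 3) (univ : Finset (Fin n))).filter fun e =>
              e ∉ G ∧ ∃ i, e ⊆ P i).card : ℕ) : ℝ) := by exact_mod_cast h1
        _ ≤ _ := mul_le_mul_of_nonneg_left hmi (by positivity)
    have hpos : 0 < δ * (n : ℝ) ^ (p + 2) := by positivity
    refine le_of_mul_le_mul_right (le_trans h2 (le_of_eq ?_)) hpos
    rw [pow_succ (n : ℝ) (p + 2)]
    field_simp
  have hDc : (D.card : ℝ) ≤ η * n := by
    have h1 : D ⊆ ((univ \ univ.biUnion P) ∪ J) ∪ D3 := by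
      intro v hv
      rcases (mem_filter.1 hv).2 with h | h | h
      · refine mem_union_left _ (mem_union_left _ ?_)
        rw [mem_sdiff, mem_biUnion]
        exact ⟨mem_univ _, fun ⟨i, _, hi⟩ => h i hi⟩
      · exact mem_union_left _ (mem_union_right _ h)
      · exact mem_union_right _ (mem_filter.2 ⟨mem_univ _, h⟩)
    have h2 : D.card ≤ ((univ : Finset (Fin n)) \ univ.biUnion P).card + J.card + D3.card :=
      le_trans (card_le_card h1) (le_trans (card_union_le _ _) (Nat.add_le_add_right (card_union_le _ _) _))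
    have h3 : (D.card : ℝ) ≤ (((univ : Finset (Fin n)) \ univ.biUnion P).card : ℝ) + (J.card : ℝ) + (D3.card : ℝ) := by
      exact_mod_cast h2
    have h4 : (J.card : ℝ) ≤ b := by exact_mod_cast hJb
    have h5 : ε * n + (p + 3) / δ * ε * n = η / 2 * n := by
      rw [← hεK, hK]
      ring
    linarith
  have hmeet : ∀ m : ℕ, ((((powersetCard (m + 1) (univ : Finset (Fin n))).filter fun g => ¬ Disjoint g D).card : ℕ) : ℝ) ≤
      η * (n : ℝ) ^ (m + 1) := by
    intro m
    have h1 := Refine_meet m D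
    calc ((((powersetCard (m + 1) (univ : Finset (Fin n))).filter fun g => ¬ Disjoint g D).card : ℕ) : ℝ)
        ≤ (D.card : ℝ) * (n : ℝ) ^ m := by exact_mod_cast h1
      _ ≤ (η * n) * (n : ℝ) ^ m := mul_le_mul_of_nonneg_right hDc (by positivity)
      _ = η * (n : ℝ) ^ (m + 1) := by ring
  refine ⟨P', ?_, ?_, ?_, ?_, ?_, ?_⟩
  · intro i j hij
    rw [Finset.disjoint_left]
    intro v hi hj
    exact hij (((hmP' i v).1 hi).2.symm.trans ((hmP' j v).1 hj).2)
  · ext v
    rw [mem_biUnion, mem_sdiff]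
    constructor
    · rintro ⟨i, _, hi⟩
      exact ⟨mem_univ _, ((hmP' i v).1 hi).1⟩
    · rintro ⟨_, hv⟩
      exact ⟨c v, mem_univ _, (hmP' _ v).2 ⟨hv, rfl⟩⟩
  · intro i
    have h1 : P i ⊆ P' i ∪ D := by
      intro v hv
      by_cases hD : v ∈ D
      · exact mem_union_right _ hD
      · exact mem_union_left _ ((hDP v hD i).1 hv)
    have h2 : ((P i).card : ℝ) ≤ ((P' i).card : ℝ) + (D.card : ℝ) := by
      exact_mod_cast le_trans (card_le_card h1) (card_union_le _ _)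
    have h3 := hPc i
    have h4 : (1 - ε) * ((n : ℝ) / k) - η * n ≤ ((P' i).card : ℝ) := by linarith
    have h5 : 2 * k * ((1 - ε) * ((n : ℝ) / k) - η * n) = (2 * (1 - ε) - 2 * (k * η)) * n := by
      field_simp
    have h6 : k * η ≤ 1 / 4 := by
      calc k * η ≤ k * (1 / (4 * k)) := mul_le_mul_of_nonneg_left hη3 hk0.le
        _ = 1 / 4 := by field_simp
    have h7 : η ≤ 1 / 4 := by
      have h8 : (1 : ℝ) ≤ k := by exact_mod_cast hk
      nlinarith
    have h9 : (n : ℝ) ≤ (2 * (1 - ε) - 2 * (k * η)) * n := by nlinarith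
    rw [← h5] at h9
    exact le_trans h9 (mul_le_mul_of_nonneg_left h4 (by positivity))
  · have h1 : cross G P' ⊆ (G.filter fun e => ∀ i, ¬ e ⊆ P i) ∪
        ((powersetCard ((p + 2) + 1) (univ : Finset (Fin n))).filter fun g => ¬ Disjoint g D) := by
      intro e he
      unfold cross at he
      rw [mem_filter] at he
      obtain ⟨heG, _, heP⟩ := he
      by_cases hd : Disjoint e D
      · refine mem_union_left _ (mem_filter.2 ⟨heG, fun i hi => heP i fun v hv => ?_⟩)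
        exact (hDP v (Finset.disjoint_left.1 hd hv) i).1 (hi hv)
      · exact mem_union_right _ (mem_filter.2 ⟨mem_powersetCard.2 ⟨subset_univ _, hG e heG⟩, hd⟩)
    have h2 : ((cross G P').card : ℝ) ≤ ((G.filter fun e => ∀ i, ¬ e ⊆ P i).card : ℝ) +
        ((((powersetCard ((p + 2) + 1) (univ : Finset (Fin n))).filter fun g => ¬ Disjoint g D).card : ℕ) : ℝ) := by
      exact_mod_cast le_trans (card_le_card h1) (card_union_le _ _)
    have h3 := hmeet (p + 2)
    have h4 : ε * (n : ℝ) ^ (p + 3) + η * (n : ℝ) ^ (p + 2 + 1) ≤ ε' * (n : ℝ) ^ (p + 3) := by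
      have : ε + η ≤ ε' := by linarith
      calc ε * (n : ℝ) ^ (p + 3) + η * (n : ℝ) ^ (p + 2 + 1) = (ε + η) * (n : ℝ) ^ (p + 3) := by ring
        _ ≤ _ := mul_le_mul_of_nonneg_right this (by positivity)
    linarith
  · intro i v hv
    obtain ⟨hvJ, hcv⟩ := (hmP' i v).1 hv
    have h0 := hc1 v hvJ
    rw [hcv] at h0
    have h0' : ((miss (p + 2) G P v i).card : ℝ) < δ * (n : ℝ) ^ (p + 2) := not_le.1 h0
    have h1 : miss (p + 2) G P' v i ⊆ miss (p + 2) G P v i ∪
        ((powersetCard ((p + 1) + 1) (univ : Finset (Fin n))).filter fun g => ¬ Disjoint g D) := by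
      intro g hg
      unfold miss at hg
      rw [mem_filter, mem_powersetCard] at hg
      obtain ⟨⟨hgP, hgc⟩, h3, h4⟩ := hg
      by_cases hd : Disjoint g D
      · refine mem_union_left _ ?_
        unfold miss
        rw [mem_filter, mem_powersetCard]
        exact ⟨⟨fun w hw => (hDP w (Finset.disjoint_left.1 hd hw) i).2 (hgP hw), hgc⟩, h3, h4⟩
      · exact mem_union_right _ (mem_filter.2 ⟨mem_powersetCard.2 ⟨subset_univ _, hgc⟩, hd⟩)
    have h2 : ((miss (p + 2) G P' v i).card : ℝ) ≤ ((miss (p + 2) G P v i).card : ℝ) +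
        ((((powersetCard ((p + 1) + 1) (univ : Finset (Fin n))).filter fun g => ¬ Disjoint g D).card : ℕ) : ℝ) := by
      exact_mod_cast le_trans (card_le_card h1) (card_union_le _ _)
    have h3 := hmeet (p + 1)
    have h4 : η * (n : ℝ) ^ (p + 1 + 1) ≤ δ * (n : ℝ) ^ (p + 2) :=
      mul_le_mul_of_nonneg_right (by linarith) (by positivity)
    linarith
  · intro v hv i
    have h0 := (hJ v).1 hv i
    have h1 : miss (p + 2) G P v i ⊆ miss (p + 2) G P' v i ∪
        ((powersetCard ((p + 1) + 1) (univ : Finset (Fin n))).filter fun g => ¬ Disjoint g D) := by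
      intro g hg
      unfold miss at hg
      rw [mem_filter, mem_powersetCard] at hg
      obtain ⟨⟨hgP, hgc⟩, h3, h4⟩ := hg
      by_cases hd : Disjoint g D
      · refine mem_union_left _ ?_
        unfold miss
        rw [mem_filter, mem_powersetCard]
        exact ⟨⟨fun w hw => (hDP w (Finset.disjoint_left.1 hd hw) i).1 (hgP hw), hgc⟩, h3, h4⟩
      · exact mem_union_right _ (mem_filter.2 ⟨mem_powersetCard.2 ⟨subset_univ _, hgc⟩, hd⟩)
    have h2 : ((miss (p + 2) G P v i).card : ℝ) ≤ ((miss (p + 2) G P' v i).card : ℝ) +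
        ((((powersetCard ((p + 1) + 1) (univ : Finset (Fin n))).filter fun g => ¬ Disjoint g D).card : ℕ) : ℝ) := by
      exact_mod_cast le_trans (card_le_card h1) (card_union_le _ _)
    have h3 := hmeet (p + 1)
    have h4 : η * (n : ℝ) ^ (p + 1 + 1) ≤ δ / 2 * (n : ℝ) ^ (p + 2) :=
      mul_le_mul_of_nonneg_right (by linarith) (by positivity)
    have h5 : δ * (n : ℝ) ^ (p + 2) = δ / 2 * (n : ℝ) ^ (p + 2) + δ / 2 * (n : ℝ) ^ (p + 2) := by ring
    linarith

end Pool.Agent.Lib.MP_455133_co.WN
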