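import Mathlib
import Pool.Agent.Lib.MP_455133_co.WN.WDefs

/-!
From nearly disjoint, nearly complete sets to disjoint parts.
-/

namespace Pool.Agent.Lib.MP_455133_co.WN

open Finset

private theorem Parts_pow (n : ℕ) {η : ℝ} (h0 : 0 ≤ η) (h1 : η ≤ 1) :
    (1 + η) ^ n ≤ 1 + (2 ^ n - 1) * η := by
  induction n with
  | zero => simp
  | succ n ih =>
    have h2 : (1 : ℝ) ≤ 2 ^ n := one_le_pow₀ (by norm_num)
    calc (1 + η) ^ (n + 1) = (1 + η) ^ n * (1 + η) := pow_succ _ _
      _ ≤ (1 + (2 ^ n - 1) * η) * (1 + η) := mul_le_mul_of_nonneg_right ih (by linarith)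
      _ ≤ 1 + (2 ^ (n + 1) - 1) * η := by
        rw [pow_succ]
        nlinarith [mul_nonneg (sub_nonneg.2 h2) (mul_nonneg h0 (sub_nonneg.2 h1))]

/-- `k (N / k) ^ (q + 1) ≤ N ^ (q + 1)` -/
private theorem Parts_kpow (q k : ℕ) (hk : 1 ≤ k) {x : ℝ} (hx : 0 ≤ x) :
    (k : ℝ) * (x / k) ^ (q + 1) ≤ x ^ (q + 1) := by
  have hk0 : (0 : ℝ) < k := by exact_mod_cast hk
  have hk1 : (1 : ℝ) ≤ k := by exact_mod_cast hk
  have h1 : x / k ≤ x := div_le_self hx hk1
  have h2 : (x / k) ^ q ≤ x ^ q := pow_le_pow_left₀ (by positivity) h1 q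
  calc (k : ℝ) * (x / k) ^ (q + 1) = (x / k) ^ q * ((x / k) * k) := by rw [pow_succ]; ring
    _ = (x / k) ^ q * x := by rw [div_mul_cancel₀ x hk0.ne']
    _ ≤ x ^ q * x := mul_le_mul_of_nonneg_right h2 hx
    _ = x ^ (q + 1) := (pow_succ _ _).symm

private theorem Parts_choose {n : ℕ} (q : ℕ) :
    ((q.factorial : ℕ) : ℝ) * ((n.choose q : ℕ) : ℝ) ≤ (n : ℝ) ^ q := by
  have h1 : ((n.choose q : ℕ) : ℝ) ≤ (n : ℝ) ^ q / (q.factorial : ℝ) := Nat.choose_le_pow_div q n
  have h2 : (0 : ℝ) < (q.factorial : ℝ) := by exact_mod_cast q.factorial_pos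
  rw [le_div_iff₀ h2] at h1
  linarith

/-- PROOF. `P i = A i \ ⋃_(l < i) A l`, `D = N / k`.
(1) `(p+3)! |G[A i]| ≤ |A i| ^ (p+3)`, so `|A i| ≥ (1 - η) D` (as `(1-η) ^ (p+3) ≤ 1 - η`), and
`|P i| ≥ |A i| - k η N ≥ (1 - η - k² η) D`.
(2) An `e ∈ G` inside no `P i`: (a) it meets some `A i` and is not inside it: at most `k η N ^ (p+3)`;
or (b) it meets no `A i`: it is inside the complement of the union, which has at most
`N - ∑ |P i| ≤ (η + k ^ 2 η) N` points: at most `(η + k² η) N N ^ (p+2)`. There is no other case: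
if `e` is inside each `A i` which it meets and meets at least one, take the least `i` with
`e ⊆ A i`; then `e` is disjoint from the `A l`, `l < i`, so `e ⊆ P i`.
(3) The `(p+3)`-sets inside some `P i` which are not in `G`: for each `i` at most
`(|A i| ^ (p+3) - (1 - η) D ^ (p+3)) / (p+3)! ≤ ((1+η) ^ (p+3) - (1 - η)) N ^ (p+3)`.
Choose `η` small. -/
theorem parts_of_sets (p k : ℕ) (hk : 1 ≤ k) {ε : ℝ} (hε : 0 < ε) :
    ∃ η : ℝ, 0 < η ∧ ∀ (N : ℕ) (G : Finset (Finset (Fin N))) (A : Fin k → Finset (Fin N)), 0 < N →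
      (∀ e ∈ G, e.card = p + 3) →
      (∀ i, ((A i).card : ℝ) ≤ (1 + η) * ((N : ℝ) / k)) →
      (∀ i, (1 - η) * ((N : ℝ) / k) ^ (p + 3) ≤
        ((p + 3).factorial : ℝ) * ((G.filter fun e => e ⊆ A i).card : ℝ)) →
      (∀ i, ((G.filter fun e => (e ∩ A i).Nonempty ∧ ¬ e ⊆ A i).card : ℝ) ≤
        η * (N : ℝ) ^ (p + 3)) →
      (∀ i j, i ≠ j → ((A i ∩ A j).card : ℝ) ≤ η * N) →
      ∃ P : Fin k → Finset (Fin N), (∀ i j, i ≠ j → Disjoint (P i) (P j)) ∧
        (∀ i, (1 - ε) * ((N : ℝ) / k) ≤ ((P i).card : ℝ)) ∧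
        ((G.filter fun e => ∀ i, ¬ e ⊆ P i).card : ℝ) ≤ ε * (N : ℝ) ^ (p + 3) ∧
        (((powersetCard (p + 3) (univ : Finset (Fin N))).filter fun e =>
          e ∉ G ∧ ∃ i, e ⊆ P i).card : ℝ) ≤ ε * (N : ℝ) ^ (p + 3) := by
  classical
  have hM : (0 : ℝ) < 2 ^ (p + 3) + (k : ℝ) ^ 2 + k + 1 := by positivity
  have hk0 : (0 : ℝ) < k := by exact_mod_cast hk
  obtain ⟨η, hη0, hη1, hηε⟩ : ∃ η : ℝ, 0 < η ∧ η ≤ 1 ∧
      (2 ^ (p + 3) + (k : ℝ) ^ 2 + k + 1) * η ≤ ε := by
    refine ⟨min 1 (ε / (2 ^ (p + 3) + (k : ℝ) ^ 2 + k + 1)), ?_, min_le_left _ _, ?_⟩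
    · exact lt_min one_pos (div_pos hε hM)
    · calc (2 ^ (p + 3) + (k : ℝ) ^ 2 + k + 1) * min 1 (ε / (2 ^ (p + 3) + (k : ℝ) ^ 2 + k + 1))
          ≤ (2 ^ (p + 3) + (k : ℝ) ^ 2 + k + 1) * (ε / (2 ^ (p + 3) + (k : ℝ) ^ 2 + k + 1)) :=
            mul_le_mul_of_nonneg_left (min_le_right _ _) hM.le
        _ = ε := by
            rw [mul_comm]
            exact div_mul_cancel₀ ε hM.ne'
  have h2p : (0 : ℝ) < 2 ^ (p + 3) := by positivity
  refine ⟨η, hη0, fun N G A hN hG h1 h2 h3 h4 => ?_⟩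
  have hN0 : (0 : ℝ) < N := by exact_mod_cast hN
  obtain ⟨D, hD⟩ : ∃ D : ℝ, D = (N : ℝ) / k := ⟨_, rfl⟩
  have hD0 : 0 < D := by rw [hD]; positivity
  have hkD : (k : ℝ) * D = N := by rw [hD]; field_simp
  rw [← hD] at h1 h2 ⊢
  have hfac : (1 : ℝ) ≤ ((p + 3).factorial : ℝ) := by exact_mod_cast (p + 3).factorial_pos
  -- the members of `G` inside `A i`
  have hGA : ∀ i, (G.filter fun e => e ⊆ A i) =
      (powersetCard (p + 3) (A i)).filter fun e => e ∈ G := by
    intro i
    ext e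
    rw [mem_filter, mem_filter, mem_powersetCard]
    constructor
    · rintro ⟨a, b⟩
      exact ⟨⟨b, hG e a⟩, a⟩
    · rintro ⟨⟨a, _⟩, b⟩
      exact ⟨b, a⟩
  have hGle : ∀ i, ((p + 3).factorial : ℝ) * ((G.filter fun e => e ⊆ A i).card : ℝ) ≤
      ((A i).card : ℝ) ^ (p + 3) := by
    intro i
    refine le_trans (mul_le_mul_of_nonneg_left ?_ (by linarith)) (Parts_choose (p + 3))
    rw [hGA i]
    have := card_filter_le (powersetCard (p + 3) (A i)) (fun e => e ∈ G)
    rw [card_powersetCard] at this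
    exact_mod_cast this
  have hAlow : ∀ i, (1 - η) * D ≤ ((A i).card : ℝ) := by
    intro i
    have h5 : ((1 - η) * D) ^ (p + 3) ≤ ((A i).card : ℝ) ^ (p + 3) := by
      refine le_trans ?_ ((h2 i).trans (hGle i))
      rw [mul_pow]
      refine mul_le_mul_of_nonneg_right ?_ (by positivity)
      have h6 : (1 - η) ^ (p + 2) ≤ 1 := pow_le_one₀ (by linarith) (by linarith)
      calc (1 - η) ^ (p + 3) = (1 - η) ^ (p + 2) * (1 - η) := pow_succ _ _
        _ ≤ 1 * (1 - η) := mul_le_mul_of_nonneg_right h6 (by linarith)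
        _ = 1 - η := one_mul _
    exact le_of_pow_le_pow_left₀ (by omega) (Nat.cast_nonneg _) h5
  -- the parts
  let B : Fin k → Finset (Fin N) := fun i => (univ.filter fun l : Fin k => l < i).biUnion A
  let P : Fin k → Finset (Fin N) := fun i => A i \ B i
  have hPA : ∀ i, P i ⊆ A i := fun i => sdiff_subset
  have hPB : ∀ i l, l < i → Disjoint (P i) (A l) := by
    intro i l hl
    rw [disjoint_left]
    intro x hx hx'
    rw [mem_sdiff] at hx
    exact hx.2 (mem_biUnion.2 ⟨l, mem_filter.2 ⟨mem_univ _, hl⟩, hx'⟩)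
  have hdis : ∀ i j, i ≠ j → Disjoint (P i) (P j) := by
    intro i j hij
    rcases lt_or_gt_of_ne hij with h | h
    · exact (disjoint_of_subset_right (hPA i) (hPB j i h)).symm
    · exact disjoint_of_subset_right (hPA j) (hPB i j h)
  have hPlow : ∀ i, (1 - η - (k : ℝ) ^ 2 * η) * D ≤ ((P i).card : ℝ) := by
    intro i
    have h5 : (P i).card + (A i ∩ B i).card = (A i).card := card_sdiff_add_card_inter _ _
    have h6 : A i ∩ B i ⊆ (univ.filter fun l : Fin k => l < i).biUnion fun l => A i ∩ A l := by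
      intro x hx
      rw [mem_inter, mem_biUnion] at hx
      obtain ⟨hx1, l, hl, hxl⟩ := hx
      exact mem_biUnion.2 ⟨l, hl, mem_inter.2 ⟨hx1, hxl⟩⟩
    have h7 : ((A i ∩ B i).card : ℝ) ≤ k * (η * N) := by
      have h8 : ((A i ∩ B i).card : ℝ) ≤
          ∑ l ∈ univ.filter (fun l : Fin k => l < i), ((A i ∩ A l).card : ℝ) := by
        have := (card_le_card h6).trans card_biUnion_le
        exact_mod_cast this
      refine h8.trans ?_
      have h9 : ∑ l ∈ univ.filter (fun l : Fin k => l < i), ((A i ∩ A l).card : ℝ) ≤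
          ∑ _l ∈ univ.filter (fun l : Fin k => l < i), η * (N : ℝ) := by
        refine sum_le_sum fun l hl => h4 i l ?_
        exact (ne_of_gt (mem_filter.1 hl).2)
      refine h9.trans ?_
      rw [sum_const, nsmul_eq_mul]
      refine mul_le_mul_of_nonneg_right ?_ (by positivity)
      have h10 := card_filter_le (univ : Finset (Fin k)) (fun l => l < i)
      rw [card_univ, Fintype.card_fin] at h10
      exact_mod_cast h10
    have h5' : ((P i).card : ℝ) + ((A i ∩ B i).card : ℝ) = ((A i).card : ℝ) := by exact_mod_cast h5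
    have h11 := hAlow i
    have h12 : (k : ℝ) * (η * N) = (k : ℝ) ^ 2 * η * D := by rw [← hkD]; ring
    rw [h12] at h7
    nlinarith
  refine ⟨P, hdis, fun i => ?_, ?_, ?_⟩
  · refine le_trans ?_ (hPlow i)
    refine mul_le_mul_of_nonneg_right ?_ hD0.le
    nlinarith
  · -- the members inside no part
    let U : Finset (Fin N) := (univ.biUnion A)ᶜ
    have hU : (U.card : ℝ) ≤ (η + (k : ℝ) ^ 2 * η) * N := by
      have h5 : (univ.biUnion A).card + U.card = N := by
        have := card_add_card_compl (univ.biUnion A)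
        rw [Fintype.card_fin] at this
        exact this
      have h6 : (univ.biUnion P).card = ∑ i, (P i).card :=
        card_biUnion fun i _ j _ hij => hdis i j hij
      have h7 : univ.biUnion P ⊆ univ.biUnion A := by
        intro x hx
        rw [mem_biUnion] at hx ⊢
        obtain ⟨i, hi, hxi⟩ := hx
        exact ⟨i, hi, hPA i hxi⟩
      have h8 := card_le_card h7
      rw [h6] at h8
      have h9 : ∑ i : Fin k, (1 - η - (k : ℝ) ^ 2 * η) * D ≤ ∑ i, ((P i).card : ℝ) :=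
        sum_le_sum fun i _ => hPlow i
      rw [sum_const, card_univ, Fintype.card_fin, nsmul_eq_mul] at h9
      have h10 : (∑ i, ((P i).card : ℝ)) ≤ ((univ.biUnion A).card : ℝ) := by exact_mod_cast h8
      have h11 : ((univ.biUnion A).card : ℝ) + (U.card : ℝ) = N := by exact_mod_cast h5
      have h12 : (k : ℝ) * ((1 - η - (k : ℝ) ^ 2 * η) * D) = (1 - η - (k : ℝ) ^ 2 * η) * N := by
        rw [← hkD]; ring
      rw [h12] at h9
      linarith
    have hsub : (G.filter fun e => ∀ i, ¬ e ⊆ P i) ⊆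
        ((univ : Finset (Fin k)).biUnion fun i => G.filter fun e => (e ∩ A i).Nonempty ∧ ¬ e ⊆ A i) ∪
          powersetCard (p + 3) U := by
      intro e he
      rw [mem_filter] at he
      rw [mem_union]
      by_cases hc : ∃ i, (e ∩ A i).Nonempty ∧ ¬ e ⊆ A i
      · obtain ⟨i, hi⟩ := hc
        exact Or.inl (mem_biUnion.2 ⟨i, mem_univ _, mem_filter.2 ⟨he.1, hi⟩⟩)
      · right
        push Not at hc
        rw [mem_powersetCard]
        refine ⟨?_, hG e he.1⟩
        by_contra hcon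
        have hex : ∃ i, (e ∩ A i).Nonempty := by
          rw [subset_iff] at hcon
          push Not at hcon
          obtain ⟨x, hx, hxU⟩ := hcon
          have hxA : x ∈ univ.biUnion A := by
            by_contra h
            exact hxU (mem_compl.2 h)
          obtain ⟨i, _, hxi⟩ := mem_biUnion.1 hxA
          exact ⟨i, x, mem_inter.2 ⟨hx, hxi⟩⟩
        have hne : (univ.filter fun i : Fin k => (e ∩ A i).Nonempty).Nonempty := by
          obtain ⟨i, hi⟩ := hex
          exact ⟨i, mem_filter.2 ⟨mem_univ _, hi⟩⟩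
        obtain ⟨i, hi, hmin⟩ := exists_min_image _ (fun i : Fin k => i) hne
        rw [mem_filter] at hi
        have hei : e ⊆ A i := hc i hi.2
        apply he.2 i
        intro x hx
        refine mem_sdiff.2 ⟨hei hx, fun hxB => ?_⟩
        obtain ⟨l, hl, hxl⟩ := mem_biUnion.1 hxB
        have hl' := (mem_filter.1 hl).2
        have h5 := hmin l (mem_filter.2 ⟨mem_univ _, x, mem_inter.2 ⟨hx, hxl⟩⟩)
        exact absurd hl' (not_lt.2 h5)
    have h5 : ((G.filter fun e => ∀ i, ¬ e ⊆ P i).card : ℝ) ≤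
        ∑ i : Fin k, ((G.filter fun e => (e ∩ A i).Nonempty ∧ ¬ e ⊆ A i).card : ℝ) +
          ((U.card.choose (p + 3) : ℕ) : ℝ) := by
      have h6 := (card_le_card hsub).trans (card_union_le _ _)
      have h7 : ((univ : Finset (Fin k)).biUnion fun i =>
          G.filter fun e => (e ∩ A i).Nonempty ∧ ¬ e ⊆ A i).card ≤
          ∑ i : Fin k, (G.filter fun e => (e ∩ A i).Nonempty ∧ ¬ e ⊆ A i).card := card_biUnion_le
      rw [card_powersetCard] at h6
      exact_mod_cast h6.trans (Nat.add_le_add_right h7 _)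
    have h6 : ∑ i : Fin k, ((G.filter fun e => (e ∩ A i).Nonempty ∧ ¬ e ⊆ A i).card : ℝ) ≤
        k * (η * (N : ℝ) ^ (p + 3)) := by
      refine (sum_le_sum fun i _ => h3 i).trans ?_
      rw [sum_const, card_univ, Fintype.card_fin, nsmul_eq_mul]
    have h7 : ((U.card.choose (p + 3) : ℕ) : ℝ) ≤ (η + (k : ℝ) ^ 2 * η) * (N : ℝ) ^ (p + 3) := by
      have h8 : ((p + 3).factorial : ℝ) * ((U.card.choose (p + 3) : ℕ) : ℝ) ≤ (U.card : ℝ) ^ (p + 3) :=
        Parts_choose (p + 3)
      have h9 : ((U.card.choose (p + 3) : ℕ) : ℝ) ≤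
          ((p + 3).factorial : ℝ) * ((U.card.choose (p + 3) : ℕ) : ℝ) :=
        le_mul_of_one_le_left (Nat.cast_nonneg _) hfac
      have h10 : (U.card : ℝ) ≤ N := by
        have := card_le_univ U
        rw [Fintype.card_fin] at this
        exact_mod_cast this
      have h11 : (U.card : ℝ) ^ (p + 2) ≤ (N : ℝ) ^ (p + 2) :=
        pow_le_pow_left₀ (Nat.cast_nonneg _) h10 _
      calc ((U.card.choose (p + 3) : ℕ) : ℝ) ≤ (U.card : ℝ) ^ (p + 3) := h9.trans h8
        _ = (U.card : ℝ) ^ (p + 2) * U.card := pow_succ _ _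
        _ ≤ (N : ℝ) ^ (p + 2) * ((η + (k : ℝ) ^ 2 * η) * N) :=
          mul_le_mul h11 hU (Nat.cast_nonneg _) (by positivity)
        _ = (η + (k : ℝ) ^ 2 * η) * (N : ℝ) ^ (p + 3) := by
          rw [pow_succ (N : ℝ) (p + 2)]; ring
    have h8 : (0 : ℝ) < (N : ℝ) ^ (p + 3) := by positivity
    calc ((G.filter fun e => ∀ i, ¬ e ⊆ P i).card : ℝ)
        ≤ k * (η * (N : ℝ) ^ (p + 3)) + (η + (k : ℝ) ^ 2 * η) * (N : ℝ) ^ (p + 3) := by linarith
      _ = ((k + 1 + (k : ℝ) ^ 2) * η) * (N : ℝ) ^ (p + 3) := by ring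
      _ ≤ ε * (N : ℝ) ^ (p + 3) := by
        refine mul_le_mul_of_nonneg_right ?_ h8.le
        nlinarith
  · -- the missing sets
    have hone : ∀ i, (((powersetCard (p + 3) (A i)).filter fun e => e ∉ G).card : ℝ) ≤
        2 ^ (p + 3) * η * D ^ (p + 3) := by
      intro i
      have h5 : ((powersetCard (p + 3) (A i)).filter fun e => e ∈ G).card +
          ((powersetCard (p + 3) (A i)).filter fun e => e ∉ G).card = (A i).card.choose (p + 3) := by
        rw [← card_powersetCard]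
        exact card_filter_add_card_filter_not _
      rw [← hGA i] at h5
      have h6 : ((G.filter fun e => e ⊆ A i).card : ℝ) +
          (((powersetCard (p + 3) (A i)).filter fun e => e ∉ G).card : ℝ) =
            (((A i).card.choose (p + 3) : ℕ) : ℝ) := by exact_mod_cast h5
      have h7 : ((p + 3).factorial : ℝ) * (((A i).card.choose (p + 3) : ℕ) : ℝ) ≤
          ((A i).card : ℝ) ^ (p + 3) := Parts_choose (p + 3)
      have h8 : ((A i).card : ℝ) ^ (p + 3) ≤ (1 + η) ^ (p + 3) * D ^ (p + 3) := by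
        rw [← mul_pow]
        exact pow_le_pow_left₀ (Nat.cast_nonneg _) (h1 i) _
      have h9 := h2 i
      have h10 := Parts_pow (p + 3) hη0.le hη1
      have h11 : (0 : ℝ) < D ^ (p + 3) := by positivity
      have h12 : (1 + η) ^ (p + 3) * D ^ (p + 3) ≤ (1 + (2 ^ (p + 3) - 1) * η) * D ^ (p + 3) :=
        mul_le_mul_of_nonneg_right h10 h11.le
      have h13 : ((p + 3).factorial : ℝ) *
          (((powersetCard (p + 3) (A i)).filter fun e => e ∉ G).card : ℝ) ≤
            2 ^ (p + 3) * η * D ^ (p + 3) := by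
        have h14 : ((p + 3).factorial : ℝ) *
            (((powersetCard (p + 3) (A i)).filter fun e => e ∉ G).card : ℝ) =
            ((p + 3).factorial : ℝ) * (((A i).card.choose (p + 3) : ℕ) : ℝ) -
            ((p + 3).factorial : ℝ) * ((G.filter fun e => e ⊆ A i).card : ℝ) := by
          rw [← h6]; ring
        rw [h14]
        linarith
      exact le_trans (le_mul_of_one_le_left (Nat.cast_nonneg _) hfac) h13
    have hsub : ((powersetCard (p + 3) (univ : Finset (Fin N))).filter fun e =>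
        e ∉ G ∧ ∃ i, e ⊆ P i) ⊆
        (univ : Finset (Fin k)).biUnion fun i => (powersetCard (p + 3) (A i)).filter fun e => e ∉ G := by
      intro e he
      rw [mem_filter, mem_powersetCard] at he
      obtain ⟨⟨_, hc⟩, hn, i, hi⟩ := he
      exact mem_biUnion.2 ⟨i, mem_univ _, mem_filter.2 ⟨mem_powersetCard.2 ⟨hi.trans (hPA i), hc⟩, hn⟩⟩
    have h5 : (((powersetCard (p + 3) (univ : Finset (Fin N))).filter fun e =>
        e ∉ G ∧ ∃ i, e ⊆ P i).card : ℝ) ≤
        ∑ i : Fin k, (((powersetCard (p + 3) (A i)).filter fun e => e ∉ G).card : ℝ) := by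
      have := (card_le_card hsub).trans card_biUnion_le
      exact_mod_cast this
    refine h5.trans ((sum_le_sum fun i _ => hone i).trans ?_)
    rw [sum_const, card_univ, Fintype.card_fin, nsmul_eq_mul]
    have h6 : (k : ℝ) * D ^ (p + 3) ≤ (N : ℝ) ^ (p + 3) := by
      rw [hD]
      exact Parts_kpow (p + 2) k hk hN0.le
    have h7 : (0 : ℝ) < (N : ℝ) ^ (p + 3) := by positivity
    calc (k : ℝ) * (2 ^ (p + 3) * η * D ^ (p + 3)) = (2 ^ (p + 3) * η) * (k * D ^ (p + 3)) := by ring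
      _ ≤ (2 ^ (p + 3) * η) * (N : ℝ) ^ (p + 3) := mul_le_mul_of_nonneg_left h6 (by positivity)
      _ ≤ ε * (N : ℝ) ^ (p + 3) := by
        refine mul_le_mul_of_nonneg_right ?_ h7.le
        nlinarith [mul_nonneg (sq_nonneg (k : ℝ)) hη0.le, mul_nonneg hk0.le hη0.le]

end Pool.Agent.Lib.MP_455133_co.WN
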