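import Mathlib
import Pool.Agent.Lib.MP_455133_co.WN.WDefs

/-!
Choice of `k` nearly disjoint sets.
-/

namespace Pool.Agent.Lib.MP_455133_co.WN

open Finset

private theorem Select_count {N q : ℕ} (Y : Finset (Finset (Fin N))) (S : Finset (Fin N))
    (hY : ∀ e ∈ Y, e.card = q) : ∑ u ∈ S, (Y.filter fun e => u ∈ e).card ≤ q * Y.card := by
  calc ∑ u ∈ S, (Y.filter fun e => u ∈ e).card ≤ ∑ u ∈ univ, (Y.filter fun e => u ∈ e).card :=
        Finset.sum_le_sum_of_subset (Finset.subset_univ _)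
    _ = ∑ e ∈ Y, ((univ : Finset (Fin N)).filter fun u => u ∈ e).card :=
        Finset.sum_card_bipartiteAbove_eq_sum_card_bipartiteBelow (fun u e => u ∈ e)
    _ = ∑ e ∈ Y, q := Finset.sum_congr rfl fun e he => by
        rw [← hY e he]
        congr 1
        ext u
        simp
    _ = q * Y.card := by rw [Finset.sum_const, smul_eq_mul, mul_comm]

private theorem Select_step (p k : ℕ) (hk : 1 ≤ k) {θ ζ η : ℝ} (hζ : 0 < ζ) (hη : 0 < η)
    (hK : ((p + 1).factorial : ℝ) * (p + 3) * (2 * k) ^ (p + 1) * ζ ≤ θ)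
    (hsm : η * (2 + (p + 3) * k / ζ) ≤ 1 / (2 * k)) {N : ℕ} (G : Finset (Finset (Fin N)))
    (B : Finset (Fin N)) (A : Fin N → Finset (Fin N)) (hN : 0 < N) (hG : ∀ e ∈ G, e.card = p + 3)
    (hB : (B.card : ℝ) ≤ η * N)
    (hA1 : ∀ v, v ∉ B → ((A v).card : ℝ) ≤ (1 + η) * ((N : ℝ) / k))
    (hA2 : ∀ v, v ∉ B → ((G.filter fun e => (e ∩ A v).Nonempty ∧ ¬ e ⊆ A v).card : ℝ) ≤
      η * (N : ℝ) ^ (p + 3))
    (hA3 : ∀ v, v ∉ B → ∀ u ∈ A v,
      ((N : ℝ) / k / 2) ^ (p + 1) ≤ ((p + 1).factorial : ℝ) * (cd G u v : ℝ))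
    {i : ℕ} (hi : i < k) (x : Fin i → Fin N) (hx : ∀ l, x l ∉ B) :
    ∃ v, v ∉ B ∧ ∀ l, ((A v ∩ A (x l)).card : ℝ) ≤ θ * N := by
  classical
  have hM : (0 : ℝ) < N := by exact_mod_cast hN
  have hk0 : (0 : ℝ) < k := by exact_mod_cast (by omega : 0 < k)
  have hik : (i : ℝ) ≤ k - 1 := by
    have : i + 1 ≤ k := hi
    have h : ((i + 1 : ℕ) : ℝ) ≤ k := by exact_mod_cast this
    push_cast at h
    linarith
  have hi0 : (0 : ℝ) ≤ i := Nat.cast_nonneg _
  set U : Finset (Fin N) := univ.biUnion (fun l => A (x l)) with hU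
  set Z : Finset (Finset (Fin N)) :=
    univ.biUnion (fun l => G.filter fun e => (e ∩ A (x l)).Nonempty ∧ ¬ e ⊆ A (x l)) with hZ
  have hZG : ∀ e ∈ Z, e.card = p + 3 := by
    intro e he
    obtain ⟨l, -, hl⟩ := Finset.mem_biUnion.1 he
    exact hG e (Finset.mem_filter.1 hl).1
  have hUc : (U.card : ℝ) ≤ i * ((1 + η) * ((N : ℝ) / k)) := by
    have h1 : (U.card : ℝ) ≤ ∑ l : Fin i, ((A (x l)).card : ℝ) := by
      have h := Finset.card_biUnion_le (s := (univ : Finset (Fin i))) (t := fun l => A (x l))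
      exact_mod_cast h
    refine h1.trans ((Finset.sum_le_sum fun l _ => hA1 (x l) (hx l)).trans ?_)
    rw [Finset.sum_const, Finset.card_univ, Fintype.card_fin, nsmul_eq_mul]
  have hZc : (Z.card : ℝ) ≤ i * (η * (N : ℝ) ^ (p + 3)) := by
    have h1 : (Z.card : ℝ) ≤ ∑ l : Fin i,
        ((G.filter fun e => (e ∩ A (x l)).Nonempty ∧ ¬ e ⊆ A (x l)).card : ℝ) := by
      have h := Finset.card_biUnion_le (s := (univ : Finset (Fin i)))
        (t := fun l => G.filter fun e => (e ∩ A (x l)).Nonempty ∧ ¬ e ⊆ A (x l))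
      exact_mod_cast h
    refine h1.trans ((Finset.sum_le_sum fun l _ => hA2 (x l) (hx l)).trans ?_)
    rw [Finset.sum_const, Finset.card_univ, Fintype.card_fin, nsmul_eq_mul]
  set Bad : Finset (Fin N) := univ.filter fun v => v ∉ U ∧
    ζ * (N : ℝ) ^ (p + 2) < ((G.filter fun e => v ∈ e ∧ (e ∩ U).Nonempty).card : ℝ) with hBad
  have hc : ∀ v, v ∉ U → (G.filter fun e => v ∈ e ∧ (e ∩ U).Nonempty).card ≤
      (Z.filter fun e => v ∈ e).card := by
    intro v hv
    refine Finset.card_le_card fun e he => ?_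
    obtain ⟨h1, h2, u, hu⟩ := Finset.mem_filter.1 he
    obtain ⟨hue, huU⟩ := Finset.mem_inter.1 hu
    obtain ⟨l, -, hl⟩ := Finset.mem_biUnion.1 huU
    refine Finset.mem_filter.2 ⟨Finset.mem_biUnion.2 ⟨l, Finset.mem_univ _, Finset.mem_filter.2
      ⟨h1, ⟨u, Finset.mem_inter.2 ⟨hue, hl⟩⟩, fun hsub => ?_⟩⟩, h2⟩
    exact hv (Finset.mem_biUnion.2 ⟨l, Finset.mem_univ _, hsub h2⟩)
  have hBc : (Bad.card : ℝ) * (ζ * (N : ℝ) ^ (p + 2)) ≤ (p + 3) * (i * (η * (N : ℝ) ^ (p + 3))) := by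
    have h1 : (Bad.card : ℝ) * (ζ * (N : ℝ) ^ (p + 2)) ≤ ∑ v ∈ Bad, ((Z.filter fun e => v ∈ e).card : ℝ) := by
      rw [← nsmul_eq_mul]
      refine Finset.card_nsmul_le_sum _ _ _ fun v hv => ?_
      obtain ⟨-, hvU, hv2⟩ := Finset.mem_filter.1 hv
      refine hv2.le.trans ?_
      exact_mod_cast hc v hvU
    have h2 : ∑ v ∈ Bad, ((Z.filter fun e => v ∈ e).card : ℝ) ≤ ((p + 3 : ℕ) : ℝ) * Z.card := by
      have h := Select_count Z Bad hZG
      exact_mod_cast h
    refine h1.trans (h2.trans ?_)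
    push_cast
    exact mul_le_mul_of_nonneg_left hZc (by positivity)
  have hBc' : (Bad.card : ℝ) ≤ (p + 3) * k / ζ * η * N := by
    have hpos : (0 : ℝ) < ζ * (N : ℝ) ^ (p + 2) := by positivity
    refine le_of_mul_le_mul_right (hBc.trans ?_) hpos
    have e1 : (p + 3) * (k : ℝ) / ζ * η * N * (ζ * (N : ℝ) ^ (p + 2)) = (p + 3) * (k * (η * (N : ℝ) ^ (p + 3))) := by
      field_simp
      ring
    rw [e1]
    refine mul_le_mul_of_nonneg_left (mul_le_mul_of_nonneg_right ?_ (by positivity)) (by positivity)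
    linarith
  obtain ⟨v, hvU, hvB, hvBad⟩ : ∃ v, v ∉ U ∧ v ∉ B ∧ v ∉ Bad := by
    by_contra hne
    push Not at hne
    have h1 : (univ : Finset (Fin N)) ⊆ (U ∪ B) ∪ Bad := by
      intro v _
      by_cases h1 : v ∈ U
      · exact Finset.mem_union_left _ (Finset.mem_union_left _ h1)
      by_cases h2 : v ∈ B
      · exact Finset.mem_union_left _ (Finset.mem_union_right _ h2)
      · exact Finset.mem_union_right _ (hne v h1 h2)
    have h2 : N ≤ U.card + B.card + Bad.card := by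
      have h := Finset.card_le_card h1
      rw [Finset.card_univ, Fintype.card_fin] at h
      exact h.trans ((Finset.card_union_le _ _).trans (Nat.add_le_add_right (Finset.card_union_le _ _) _))
    have h3 : (N : ℝ) ≤ U.card + B.card + Bad.card := by exact_mod_cast h2
    have h4 : (i : ℝ) * ((1 + η) * ((N : ℝ) / k)) ≤ (1 - 1 / k) * N + η * N := by
      have h5 : (i : ℝ) * ((1 + η) * ((N : ℝ) / k)) ≤ (k - 1) * ((1 + η) * ((N : ℝ) / k)) :=
        mul_le_mul_of_nonneg_right hik (by positivity)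
      have h6 : ((k : ℝ) - 1) * ((1 + η) * ((N : ℝ) / k)) = (1 - 1 / k) * N + η * N - η * (1 / k) * N := by
        field_simp
        ring
      have h7 : 0 ≤ η * (1 / k) * (N : ℝ) := by positivity
      linarith
    have h5 : (N : ℝ) ≤ N * (1 - 1 / k + η * (2 + (p + 3) * k / ζ)) := by
      have h6 : (N : ℝ) * (1 - 1 / k + η * (2 + (p + 3) * k / ζ)) =
          (1 - 1 / k) * N + η * N + η * N + (p + 3) * k / ζ * η * N := by ring
      rw [h6]
      linarith
    have h6 : (N : ℝ) * (1 - 1 / k + η * (2 + (p + 3) * k / ζ)) ≤ N * (1 - 1 / k + 1 / (2 * k)) :=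
      mul_le_mul_of_nonneg_left (by linarith) hM.le
    have h7 : (N : ℝ) * (1 - 1 / k + 1 / (2 * k)) = N - N / (2 * k) := by
      field_simp
      ring
    have h8 : (0 : ℝ) < N / (2 * k) := by positivity
    linarith
  refine ⟨v, hvB, fun l => ?_⟩
  have hcv : ((G.filter fun e => v ∈ e ∧ (e ∩ U).Nonempty).card : ℝ) ≤ ζ * (N : ℝ) ^ (p + 2) := by
    by_contra hlt
    exact hvBad (Finset.mem_filter.2 ⟨Finset.mem_univ _, hvU, lt_of_not_ge hlt⟩)
  have h1 : ∑ u ∈ A v ∩ U, cd G u v ≤ (p + 3) * (G.filter fun e => v ∈ e ∧ (e ∩ U).Nonempty).card := by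
    refine (Finset.sum_le_sum fun u hu => ?_).trans
      (Select_count (G.filter fun e => v ∈ e ∧ (e ∩ U).Nonempty) (A v ∩ U)
        fun e he => hG e (Finset.mem_filter.1 he).1)
    unfold cd
    refine Finset.card_le_card fun e he => ?_
    obtain ⟨g1, g2, g3⟩ := Finset.mem_filter.1 he
    exact Finset.mem_filter.2 ⟨Finset.mem_filter.2 ⟨g1, g3, u, Finset.mem_inter.2
      ⟨g2, (Finset.mem_inter.1 hu).2⟩⟩, g2⟩
  have h2 : ((A v ∩ U).card : ℝ) * ((N : ℝ) / k / 2) ^ (p + 1) ≤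
      ((p + 1).factorial : ℝ) * ((p + 3) * (ζ * (N : ℝ) ^ (p + 2))) := by
    calc ((A v ∩ U).card : ℝ) * ((N : ℝ) / k / 2) ^ (p + 1)
        ≤ ∑ u ∈ A v ∩ U, ((p + 1).factorial : ℝ) * (cd G u v : ℝ) := by
          rw [← nsmul_eq_mul]
          exact Finset.card_nsmul_le_sum _ _ _ fun u hu => hA3 v hvB u (Finset.mem_inter.1 hu).1
      _ = ((p + 1).factorial : ℝ) * ((∑ u ∈ A v ∩ U, cd G u v : ℕ) : ℝ) := by
          rw [← Finset.mul_sum, Nat.cast_sum]
      _ ≤ ((p + 1).factorial : ℝ) * ((p + 3) * (ζ * (N : ℝ) ^ (p + 2))) := by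
          refine mul_le_mul_of_nonneg_left ?_ (Nat.cast_nonneg _)
          have h3 : ((∑ u ∈ A v ∩ U, cd G u v : ℕ) : ℝ) ≤
              (((p + 3) * (G.filter fun e => v ∈ e ∧ (e ∩ U).Nonempty).card : ℕ) : ℝ) := by
            exact_mod_cast h1
          refine h3.trans ?_
          push_cast
          exact mul_le_mul_of_nonneg_left hcv (by positivity)
  have h3 : ((A v ∩ A (x l)).card : ℝ) ≤ ((A v ∩ U).card : ℝ) := by
    have h : A v ∩ A (x l) ⊆ A v ∩ U := Finset.inter_subset_inter_left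
      (Finset.subset_biUnion_of_mem (fun l => A (x l)) (Finset.mem_univ l))
    exact_mod_cast Finset.card_le_card h
  refine h3.trans ?_
  have hpos : (0 : ℝ) < ((N : ℝ) / k / 2) ^ (p + 1) := by positivity
  refine le_of_mul_le_mul_right (h2.trans ?_) hpos
  have e1 : ((p + 1).factorial : ℝ) * ((p + 3) * (ζ * (N : ℝ) ^ (p + 2))) =
      ((p + 1).factorial : ℝ) * (p + 3) * (2 * k) ^ (p + 1) * ζ * N * ((N : ℝ) / k / 2) ^ (p + 1) := by
    rw [div_div, div_pow]
    have h4 : ((k : ℝ) * 2) ^ (p + 1) ≠ 0 := by positivity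
    rw [mul_comm (2 : ℝ) k]
    field_simp
    ring
  rw [e1]
  exact mul_le_mul_of_nonneg_right (mul_le_mul_of_nonneg_right hK hM.le) hpos.le

/-- Abstract selection. `G` is a family of `(p+3)`-sets on `N` points; for each point `v` outside
the exceptional set `B` a set `A v` with at most `(1+η) N/k` points is given, such that at most
`η N ^ (p+3)` members of `G` meet `A v` without being inside it, and `cd G u v` is large for
`u ∈ A v`. PROOF. Given `θ`; choose `x : Fin k → Fin N` one after the other (induction over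
`i ≤ k`): if `x_0, ..., x_(i-1)` are chosen, `i < k`, let `U` be the union of the `A (x_l)`,
`|U| ≤ (k-1) (1+η) N/k`. For `v ∉ U` let `c v` be the number of the `e ∈ G` with `v ∈ e` which meet
`U`; such an `e` meets some `A (x_l)` and is not inside it, so `∑_(v ∉ U) c v ≤ (p+3) k η N^(p+3)`,
and the number of the `v ∉ U` with `c v > η' N ^ (p+2)` is at most `((p+3) k η / η') N`. Take
`x_i = v ∉ U ∪ B` with `c v ≤ η' N ^ (p+2)`; it exists if
`(k-1)(1+η)/k + η + (p+3) k η / η' < 1`. Then for `l < i`, `u ∈ A v ∩ A (x_l)`: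
`(N/(2k)) ^ (p+1) ≤ (p+1)! cd G u v`, and the sum of `cd G u v` over `u ∈ U` is at most
`(p+3) c v`, so `|A v ∩ U| ≤ (p+1)! (2k) ^ (p+1) (p+3) η' N`. Choose `η'` with
`(p+1)! (2k)^(p+1) (p+3) η' ≤ θ` and then `η`. -/
theorem select (p k : ℕ) (hk : 1 ≤ k) {θ : ℝ} (hθ : 0 < θ) :
    ∃ η : ℝ, 0 < η ∧ ∀ (N : ℕ) (G : Finset (Finset (Fin N))) (B : Finset (Fin N))
      (A : Fin N → Finset (Fin N)), 0 < N → (∀ e ∈ G, e.card = p + 3) →
      (B.card : ℝ) ≤ η * N →
      (∀ v, v ∉ B → ((A v).card : ℝ) ≤ (1 + η) * ((N : ℝ) / k)) →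
      (∀ v, v ∉ B → ((G.filter fun e => (e ∩ A v).Nonempty ∧ ¬ e ⊆ A v).card : ℝ) ≤
        η * (N : ℝ) ^ (p + 3)) →
      (∀ v, v ∉ B → ∀ u ∈ A v,
        ((N : ℝ) / k / 2) ^ (p + 1) ≤ ((p + 1).factorial : ℝ) * (cd G u v : ℝ)) →
      ∃ x : Fin k → Fin N, (∀ i, x i ∉ B) ∧
        ∀ i j, i ≠ j → ((A (x i) ∩ A (x j)).card : ℝ) ≤ θ * N := by
  have hk0 : (0 : ℝ) < k := by exact_mod_cast (by omega : 0 < k)
  set K : ℝ := ((p + 1).factorial : ℝ) * (p + 3) * (2 * k) ^ (p + 1) with hK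
  have hKpos : 0 < K := by
    have := Nat.factorial_pos (p + 1)
    positivity
  set ζ : ℝ := θ / K with hζ
  have hζpos : 0 < ζ := div_pos hθ hKpos
  have hden : (0 : ℝ) < 2 + (p + 3) * k / ζ := by positivity
  refine ⟨1 / (2 * k) / (2 + (p + 3) * k / ζ), by positivity, ?_⟩
  intro N G B A hN hG hB hA1 hA2 hA3
  have key : ∀ i : ℕ, i ≤ k → ∃ x : Fin i → Fin N, (∀ l, x l ∉ B) ∧
      ∀ l m, l ≠ m → ((A (x l) ∩ A (x m)).card : ℝ) ≤ θ * N := by
    intro i
    induction i with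
    | zero => exact fun _ => ⟨Fin.elim0, fun l => l.elim0, fun l => l.elim0⟩
    | succ i ih =>
      intro hi
      obtain ⟨x, hx1, hx2⟩ := ih (by omega)
      obtain ⟨v, hv1, hv2⟩ := Select_step p k hk (θ := θ) hζpos
        (η := 1 / (2 * k) / (2 + (p + 3) * k / ζ)) (by positivity)
        (by
          rw [← hK, hζ, mul_div_cancel₀ _ hKpos.ne'])
        (by rw [div_mul_cancel₀ _ hden.ne']) G B A hN hG hB hA1 hA2 hA3 (by omega) x hx1
      refine ⟨Fin.cons v x, ?_, ?_⟩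
      · refine Fin.cases ?_ fun l => ?_
        · rw [Fin.cons_zero]
          exact hv1
        · rw [Fin.cons_succ]
          exact hx1 l
      · refine Fin.cases ?_ fun l => ?_
        · refine Fin.cases ?_ fun m => ?_
          · intro h
            exact absurd rfl h
          · intro _
            rw [Fin.cons_zero, Fin.cons_succ]
            exact hv2 m
        · refine Fin.cases ?_ fun m => ?_
          · intro _
            rw [Fin.cons_zero, Fin.cons_succ, Finset.inter_comm]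
            exact hv2 l
          · intro h
            rw [Fin.cons_succ, Fin.cons_succ]
            exact hx2 l m fun h' => h (by rw [h'])
  exact key k le_rfl

end Pool.Agent.Lib.MP_455133_co.WN
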