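import Mathlib
import Pool.Agent.Lib.MP_455133_co.LR.KKR
import Pool.Agent.Lib.MP_455133_co.WN.WDefs

/-!
Local Kruskal-Katona inequalities: `G` a family of `(p+3)`-sets, `H` a family of `(p+4)`-sets all
of whose `(p+3)`-subsets are in `G`.
-/

namespace Pool.Agent.Lib.MP_455133_co.WN

open Finset Pool.Agent.Lib.MP_455133_co.LR

variable {n p : ℕ} {G H : Finset (Finset (Fin n))}

private theorem Local_pow (i : ℕ) {z : ℝ} (hz : 0 ≤ z) : z ^ (i + 1) ≤ P0 (i + 1) (z + i) := by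
  induction i with
  | zero => simp [P0]
  | succ i ih =>
    have h1 : z + ((i + 1 : ℕ) : ℝ) - 1 = z + i := by
      push_cast
      ring
    rw [P0_shift, h1, pow_succ' z (i + 1)]
    have h2 : (0 : ℝ) ≤ ((i + 1 : ℕ) : ℝ) := Nat.cast_nonneg _
    exact mul_le_mul (by linarith) ih (by positivity) (by linarith)

/-- the members containing `u` and `v` without `u` and `v` -/
private def Local_ex (G : Finset (Finset (Fin n))) (u v : Fin n) : Finset (Finset (Fin n)) :=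
  (G.filter fun e => u ∈ e ∧ v ∈ e).image fun e => (e.erase u).erase v

private theorem Local_ex_card (G : Finset (Finset (Fin n))) {u v : Fin n} (huv : u ≠ v) :
    (Local_ex G u v).card = cd G u v := by
  unfold Local_ex cd
  refine card_image_of_injOn fun e he f hf hef => ?_
  rw [mem_coe, mem_filter] at he hf
  have hef' : (e.erase u).erase v = (f.erase u).erase v := hef
  have h1 : insert v ((e.erase u).erase v) = e.erase u :=
    insert_erase (mem_erase.2 ⟨huv.symm, he.2.2⟩)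
  have h2 : insert v ((f.erase u).erase v) = f.erase u :=
    insert_erase (mem_erase.2 ⟨huv.symm, hf.2.2⟩)
  rw [← insert_erase he.2.1, ← insert_erase hf.2.1, ← h1, ← h2, hef']

private theorem Local_ex_size {q : ℕ} (hG : ∀ e ∈ G, e.card = q + 2) {u v : Fin n} (huv : u ≠ v) :
    ∀ f ∈ Local_ex G u v, f.card = q := by
  intro f hf
  obtain ⟨e, he, rfl⟩ := mem_image.1 hf
  rw [mem_filter] at he
  rw [card_erase_of_mem (mem_erase.2 ⟨huv.symm, he.2.2⟩), card_erase_of_mem he.2.1, hG e he.1]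
  omega

/-- PROOF. `F` = the sets `e \ {u, v}`, `e ∈ H`, `u, v ∈ e` (size `p + 2`), `G'` = the sets
`e \ {u, v}`, `e ∈ G`, `u, v ∈ e` (size `p + 1`); for `f ∈ F`, `x ∈ f`: `f.erase x ∈ G'`. If `F` is
empty the left side is `0`. `LR.KKR_of_subset p F G'` with `x = max (z + p) (p + 1)`:
`P0 (p+1) (z + p) = ∏_(i ≤ p) (z + p - i) ≥ z ^ (p+1) ≥ (p+1)! |G'|` (and `P0_mono`), so
`(p + 2) |F| ≤ (x - (p + 1)) |G'| ≤ z |G'|`. -/
theorem cd_le (hG : ∀ e ∈ G, e.card = p + 3) (hH : ∀ e ∈ H, e.card = p + 4)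
    (hGH : ∀ e ∈ H, ∀ v ∈ e, e.erase v ∈ G) {u v : Fin n} (huv : u ≠ v) {z : ℝ} (hz : 0 ≤ z)
    (h : ((p + 1).factorial : ℝ) * (cd G u v : ℝ) ≤ z ^ (p + 1)) :
    ((p : ℝ) + 2) * (cd H u v : ℝ) ≤ z * (cd G u v : ℝ) := by
  have hFG : ∀ f ∈ Local_ex H u v, ∀ x ∈ f, f.erase x ∈ Local_ex G u v := by
    intro f hf x hx
    obtain ⟨e, he, rfl⟩ := mem_image.1 hf
    rw [mem_filter] at he
    have hx1 : x ≠ v := (mem_erase.1 hx).1
    have hx2 : x ≠ u := (mem_erase.1 (mem_erase.1 hx).2).1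
    have hx3 : x ∈ e := (mem_erase.1 (mem_erase.1 hx).2).2
    refine mem_image.2 ⟨e.erase x, mem_filter.2 ⟨hGH e he.1 x hx3, mem_erase.2 ⟨hx2.symm, he.2.1⟩,
      mem_erase.2 ⟨hx1.symm, he.2.2⟩⟩, ?_⟩
    show ((e.erase x).erase u).erase v = ((e.erase u).erase v).erase x
    rw [erase_right_comm (a := x) (b := u), erase_right_comm (a := x) (b := v)]
  have hcG := Local_ex_card G huv
  have hcH := Local_ex_card H huv
  have hP : ((p + 1).factorial : ℝ) * ((Local_ex G u v).card : ℝ) ≤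
      P0 (p + 1) (max (z + p) ((p : ℝ) + 1)) := by
    rw [hcG]
    refine h.trans ((Local_pow p hz).trans (P0_mono ?_ (le_max_left _ _)))
    push_cast
    linarith
  have h1 := KKR_of_subset p (Local_ex H u v) (Local_ex G u v)
    (Local_ex_size (q := p + 1) hG huv) (Local_ex_size (q := p + 2) hH huv) hFG
    (max (z + p) ((p : ℝ) + 1)) (le_max_right _ _) hP
  rw [hcG, hcH] at h1
  refine h1.trans (mul_le_mul_of_nonneg_right ?_ (Nat.cast_nonneg _))
  have h2 : max (z + p) ((p : ℝ) + 1) ≤ z + (p + 1) := max_le (by linarith) (by linarith)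
  linarith

/-- PROOF. The map `e ↦ e.erase u` is injective on the members of `H` containing `u`, `v`. -/
theorem cd_le_dg (hGH : ∀ e ∈ H, ∀ v ∈ e, e.erase v ∈ G) {u v : Fin n} (huv : u ≠ v) :
    cd H u v ≤ dg G v := by
  unfold cd dg
  refine card_le_card_of_injOn (fun e => e.erase u) ?_ ?_
  · intro e he
    rw [mem_coe, mem_filter] at he
    rw [mem_coe, mem_filter]
    exact ⟨hGH e he.1 u he.2.1, mem_erase.2 ⟨huv.symm, he.2.2⟩⟩
  · intro e he f hf hef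
    rw [mem_coe, mem_filter] at he hf
    have hef' : e.erase u = f.erase u := hef
    rw [← insert_erase he.2.1, ← insert_erase hf.2.1, hef']

/-- PROOF. Double counting. -/
theorem sum_cd {q : ℕ} (hG : ∀ e ∈ G, e.card = q + 1) (v : Fin n) :
    ∑ u ∈ univ.erase v, cd G u v = q * dg G v := by
  have h1 : ∀ u, cd G u v = ∑ e ∈ G.filter (fun e => v ∈ e), if u ∈ e then 1 else 0 := by
    intro u
    unfold cd
    rw [← card_filter, filter_filter]
    congr 1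
    refine filter_congr fun e _ => ?_
    exact and_comm
  rw [sum_congr rfl fun u _ => h1 u, sum_comm]
  unfold dg
  rw [mul_comm, ← smul_eq_mul, ← sum_const]
  refine sum_congr rfl fun e he => ?_
  rw [mem_filter] at he
  rw [← card_filter]
  have h2 : (univ.erase v).filter (fun u => u ∈ e) = e.erase v := by
    ext u
    rw [mem_filter, mem_erase, mem_erase]
    exact ⟨fun h => ⟨h.1.1, h.2⟩, fun h => ⟨⟨h.1, mem_univ u⟩, h.2⟩⟩
  rw [h2, card_erase_of_mem he.2, hG e he.1, Nat.add_sub_cancel]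

/-- PROOF. Put `Z = D`. For `u ≠ v`: `(p + 2) cd H u v ≤ Z cd G u v`: if `(p+1)! cd G u v ≤
Z ^ (p+1)` this is `cd_le`, otherwise `(p + 2) cd H u v ≤ (p + 2) dg G v ≤ Z ^ (p+2) / (p+1)! ≤
Z cd G u v` by `cd_le_dg`. -/
theorem cd_le_D (hG : ∀ e ∈ G, e.card = p + 3) (hH : ∀ e ∈ H, e.card = p + 4)
    (hGH : ∀ e ∈ H, ∀ v ∈ e, e.erase v ∈ G) {u v : Fin n} (huv : u ≠ v) {D : ℝ} (hD : 0 ≤ D)
    (hd : ((p + 2).factorial : ℝ) * (dg G v : ℝ) ≤ D ^ (p + 2)) :
    ((p : ℝ) + 2) * (cd H u v : ℝ) ≤ D * (cd G u v : ℝ) := by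
  by_cases hc : ((p + 1).factorial : ℝ) * (cd G u v : ℝ) ≤ D ^ (p + 1)
  · exact cd_le hG hH hGH huv hD hc
  · push Not at hc
    have hf : (0 : ℝ) < ((p + 1).factorial : ℝ) := by exact_mod_cast Nat.factorial_pos _
    have h1 : (cd H u v : ℝ) ≤ (dg G v : ℝ) := by exact_mod_cast cd_le_dg hGH huv
    have h2 : ((p + 2).factorial : ℝ) = ((p : ℝ) + 2) * ((p + 1).factorial : ℝ) := by
      rw [Nat.factorial_succ (p + 1)]
      push_cast
      ring
    rw [h2] at hd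
    have hp : (0 : ℝ) ≤ (p : ℝ) + 2 := by positivity
    have h3 : ((p + 1).factorial : ℝ) * (((p : ℝ) + 2) * (cd H u v : ℝ)) ≤
        ((p + 1).factorial : ℝ) * (D * (cd G u v : ℝ)) := by
      calc ((p + 1).factorial : ℝ) * (((p : ℝ) + 2) * (cd H u v : ℝ))
          ≤ ((p + 1).factorial : ℝ) * (((p : ℝ) + 2) * (dg G v : ℝ)) := by gcongr
        _ = ((p : ℝ) + 2) * ((p + 1).factorial : ℝ) * (dg G v : ℝ) := by ring
        _ ≤ D ^ (p + 2) := hd
        _ = D * D ^ (p + 1) := pow_succ' D (p + 1)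
        _ ≤ D * (((p + 1).factorial : ℝ) * (cd G u v : ℝ)) := mul_le_mul_of_nonneg_left hc.le hD
        _ = ((p + 1).factorial : ℝ) * (D * (cd G u v : ℝ)) := by ring
    exact le_of_mul_le_mul_left h3 hf

/-- PROOF. Sum of `cd_le_D` (for `(1-ζ)^(p+1) D^(p+1) < (p+1)! cd G u v`) and of `cd_le` with
`z = (1 - ζ) D` (for the other `u`) over `u ≠ v`, with `sum_cd` for `G` and `H`. -/
theorem local_sum (hG : ∀ e ∈ G, e.card = p + 3) (hH : ∀ e ∈ H, e.card = p + 4)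
    (hGH : ∀ e ∈ H, ∀ v ∈ e, e.erase v ∈ G) {v : Fin n} {D ζ : ℝ} (hD : 0 ≤ D) (hζ : 0 ≤ ζ)
    (hζ1 : ζ ≤ 1) (hd : ((p + 2).factorial : ℝ) * (dg G v : ℝ) ≤ D ^ (p + 2)) :
    ((p : ℝ) + 2) * ((p : ℝ) + 3) * (dg H v : ℝ) +
      ζ * D * (((∑ u ∈ (univ.erase v).filter fun u =>
        ((p + 1).factorial : ℝ) * (cd G u v : ℝ) ≤ ((1 - ζ) * D) ^ (p + 1), cd G u v) : ℕ) : ℝ) ≤
      D * ((p : ℝ) + 2) * (dg G v : ℝ) := by
  have hsG : ∑ u ∈ univ.erase v, cd G u v = (p + 2) * dg G v := sum_cd (q := p + 2) hG v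
  have hsH : ∑ u ∈ univ.erase v, cd H u v = (p + 3) * dg H v := sum_cd (q := p + 3) hH v
  have hsG' : ∑ u ∈ univ.erase v, (cd G u v : ℝ) = ((p : ℝ) + 2) * (dg G v : ℝ) := by
    exact_mod_cast hsG
  have hsH' : ∑ u ∈ univ.erase v, (cd H u v : ℝ) = ((p : ℝ) + 3) * (dg H v : ℝ) := by
    exact_mod_cast hsH
  have hterm : ∀ u ∈ univ.erase v, ((p : ℝ) + 2) * (cd H u v : ℝ) +
      ζ * D * (if ((p + 1).factorial : ℝ) * (cd G u v : ℝ) ≤ ((1 - ζ) * D) ^ (p + 1)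
        then (cd G u v : ℝ) else 0) ≤ D * (cd G u v : ℝ) := by
    intro u hu
    have huv : u ≠ v := (mem_erase.1 hu).1
    by_cases hc : ((p + 1).factorial : ℝ) * (cd G u v : ℝ) ≤ ((1 - ζ) * D) ^ (p + 1)
    · rw [if_pos hc]
      have h1 := cd_le hG hH hGH huv (mul_nonneg (sub_nonneg.2 hζ1) hD) hc
      have h2 : D * (cd G u v : ℝ) = (1 - ζ) * D * (cd G u v : ℝ) + ζ * D * (cd G u v : ℝ) := by ring
      linarith
    · rw [if_neg hc, mul_zero, add_zero]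
      exact cd_le_D hG hH hGH huv hD hd
  have hsum := sum_le_sum hterm
  rw [sum_add_distrib, ← mul_sum, ← mul_sum, ← mul_sum, hsG', hsH', ← sum_filter] at hsum
  push_cast
  have h3 : ((p : ℝ) + 2) * ((p : ℝ) + 3) * (dg H v : ℝ) =
      ((p : ℝ) + 2) * (((p : ℝ) + 3) * (dg H v : ℝ)) := by ring
  have h4 : D * ((p : ℝ) + 2) * (dg G v : ℝ) = D * (((p : ℝ) + 2) * (dg G v : ℝ)) := by ring
  rw [h3, h4]
  exact hsum

end Pool.Agent.Lib.MP_455133_co.WN
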