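import Mathlib
import Pool.Agent.Lib.MP_455133_co.WN.Local

/-!
A vertex with nearly the right degree which lies in nearly the right number of members of `H` is
adjacent to a nearly complete set.
-/

namespace Pool.Agent.Lib.MP_455133_co.WN

open Finset

private lemma Struct_pow (m : ℕ) {η : ℝ} (h0 : 0 ≤ η) (h1 : η ≤ 1) :
    (1 + η) ^ m ≤ 1 + (2 ^ m - 1) * η := by
  induction m with
  | zero => simp
  | succ m ih =>
    have h2 : (1 : ℝ) ≤ 2 ^ m := one_le_pow₀ (by norm_num)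
    have h3 : (1 + η) ^ m * (1 + η) ≤ (1 + (2 ^ m - 1) * η) * (1 + η) :=
      mul_le_mul_of_nonneg_right ih (by linarith)
    rw [pow_succ, pow_succ]
    nlinarith [mul_nonneg (sub_nonneg.2 h2) (mul_nonneg h0 (sub_nonneg.2 h1))]

private lemma Struct_par (p : ℕ) {ε : ℝ} (hε : 0 < ε) (hε1 : ε ≤ 1) :
    ∃ ζ η : ℝ, 0 < ζ ∧ ζ ≤ 1 / 16 ∧ 0 < η ∧ η < 1 ∧ (1 + η) ≤ (1 + ε) * (1 - ζ) ^ (p + 1) ∧
      ζ * η + ((p : ℝ) + 3) * ((1 + η) ^ (p + 3) - (1 - η)) ≤ ζ * ε := by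
  have hp : (0 : ℝ) ≤ p := Nat.cast_nonneg p
  obtain ⟨ζ, hζ⟩ : ∃ ζ : ℝ, ζ = ε / (8 * ((p : ℝ) + 2)) := ⟨_, rfl⟩
  have hζ0 : 0 < ζ := by rw [hζ]; positivity
  have hζm : ((p : ℝ) + 2) * ζ = ε / 8 := by rw [hζ]; field_simp
  have hζ16 : ζ ≤ 1 / 16 := by nlinarith
  have h2 : (1 : ℝ) ≤ 2 ^ (p + 3) := one_le_pow₀ (by norm_num)
  obtain ⟨η, hη⟩ : ∃ η : ℝ, η = ζ * ε / (4 * (((p : ℝ) + 3) * 2 ^ (p + 3))) := ⟨_, rfl⟩
  have hη0 : 0 < η := by rw [hη]; positivity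
  have hηm : ((p : ℝ) + 3) * 2 ^ (p + 3) * η = ζ * ε / 4 := by rw [hη]; field_simp
  have h3 : 1 ≤ ((p : ℝ) + 3) * 2 ^ (p + 3) := by nlinarith
  have hηle : η ≤ ζ * ε / 4 := by
    rw [← hηm]
    nlinarith
  have hζε : ζ * ε ≤ ε / 16 := by nlinarith
  have hη1 : η < 1 := by linarith
  refine ⟨ζ, η, hζ0, hζ16, hη0, hη1, ?_, ?_⟩
  · have hb : 1 + ((p + 1 : ℕ) : ℝ) * (-ζ) ≤ (1 + (-ζ)) ^ (p + 1) :=
      one_add_mul_le_pow (by linarith) (p + 1)
    rw [← sub_eq_add_neg] at hb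
    have hb2 : 1 - ε / 8 ≤ (1 - ζ) ^ (p + 1) := by
      refine le_trans ?_ hb
      push_cast
      nlinarith
    have hb3 : (1 + ε) * (1 - ε / 8) ≤ (1 + ε) * (1 - ζ) ^ (p + 1) :=
      mul_le_mul_of_nonneg_left hb2 (by linarith)
    nlinarith
  · have hpw := Struct_pow (p + 3) hη0.le hη1.le
    have h4 : ((p : ℝ) + 3) * ((1 + η) ^ (p + 3) - (1 - η)) ≤ ζ * ε / 4 := by
      rw [← hηm, mul_assoc]
      refine mul_le_mul_of_nonneg_left ?_ (by linarith)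
      linarith
    have h5 : ζ * η ≤ ζ * ε / 4 := by nlinarith
    have h6 : 0 < ζ * ε := mul_pos hζ0 hε
    linarith

/-- PROOF. Let `E = (1 + η) D`, `0 < ζ < 1`, `A` the set of the `u ≠ v` with
`(p+1)! cd G u v > ((1 - ζ) E) ^ (p+1)`, `S` the sum of `cd G u v` over the other `u ≠ v`.
(1) `local_sum` for `E`: `ζ E S ≤ E (p+2) dg G v - (p+2)(p+3) dg H v ≤
(E ^ (p+3) - (1 - η) D ^ (p+3)) / (p+1)!`, so `S ≤ ((1+η) ^ (p+3) - (1 - η)) / ζ *
D ^ (p+2) / (p+1)!`.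
(2) `|A| ((1-ζ) E) ^ (p+1) / (p+1)! ≤ (p+2) dg G v ≤ E ^ (p+2) / (p+1)!` (`sum_cd`), so
`|A| ≤ E / (1-ζ) ^ (p+1)`.
(3) The members of `H` which contain `v` and are not inside `A ∪ {v}` number at most the sum of
`cd H u v` over the other `u`, at most `E / (p+2) * S` (`cd_le_D`).
(4) For the other members `e ∈ H`, `v ∈ e`: `e.erase v ∈ G` is inside `A`. So the members of `G`
inside `A` number at least `dg H v - E S / (p+2)`.
For given `ε` take first `ζ` (e.g. `ζ = ε / (8 (p + 2))`), then `η` small. -/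
theorem local_structure (p : ℕ) {ε : ℝ} (hε : 0 < ε) (hε1 : ε ≤ 1) :
    ∃ η : ℝ, 0 < η ∧ η < 1 ∧ ∀ (n : ℕ) (G H : Finset (Finset (Fin n))),
      (∀ e ∈ G, e.card = p + 3) → (∀ e ∈ H, e.card = p + 4) →
      (∀ e ∈ H, ∀ v ∈ e, e.erase v ∈ G) → ∀ (v : Fin n) (D : ℝ), 0 < D →
      ((p + 2).factorial : ℝ) * (dg G v : ℝ) ≤ ((1 + η) * D) ^ (p + 2) →
      (1 - η) * D ^ (p + 3) ≤ ((p + 3).factorial : ℝ) * (dg H v : ℝ) →
      ∃ A : Finset (Fin n), (A.card : ℝ) ≤ (1 + ε) * D ∧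
        (1 - ε) * D ^ (p + 3) ≤ ((p + 3).factorial : ℝ) * ((G.filter fun e => e ⊆ A).card : ℝ) ∧
        ∀ u ∈ A, (D / 2) ^ (p + 1) ≤ ((p + 1).factorial : ℝ) * (cd G u v : ℝ) := by
  classical
  obtain ⟨ζ, η, hζ0, hζ16, hη0, hη1, hpar1, hpar2⟩ := Struct_par p hε hε1
  refine ⟨η, hη0, hη1, ?_⟩
  intro n G H hG hH hGH v D hD hdG hdH
  have hp : (0 : ℝ) ≤ p := Nat.cast_nonneg p
  obtain ⟨E, hE⟩ : ∃ E : ℝ, E = (1 + η) * D := ⟨_, rfl⟩
  have hE0 : 0 < E := by rw [hE]; positivity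
  have hDE : D ≤ E := by rw [hE]; nlinarith
  rw [← hE] at hdG
  obtain ⟨c, hc⟩ : ∃ c : ℝ, c = ((p + 1).factorial : ℝ) := ⟨_, rfl⟩
  have hc0 : 0 < c := by
    rw [hc]
    exact_mod_cast Nat.factorial_pos _
  have hf2 : ((p + 2).factorial : ℝ) = ((p : ℝ) + 2) * c := by
    rw [Nat.factorial_succ (p + 1), hc]
    push_cast
    ring
  have hf3 : ((p + 3).factorial : ℝ) = ((p : ℝ) + 3) * (((p : ℝ) + 2) * c) := by
    rw [Nat.factorial_succ (p + 2), ← hf2]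
    push_cast
    ring
  obtain ⟨Bd, hBd⟩ : ∃ Bd : Finset (Fin n), Bd = (univ.erase v).filter fun u =>
    ((p + 1).factorial : ℝ) * (cd G u v : ℝ) ≤ ((1 - ζ) * E) ^ (p + 1) := ⟨_, rfl⟩
  obtain ⟨A, hA⟩ : ∃ A : Finset (Fin n), A = (univ.erase v).filter fun u =>
    ¬ (((p + 1).factorial : ℝ) * (cd G u v : ℝ) ≤ ((1 - ζ) * E) ^ (p + 1)) := ⟨_, rfl⟩
  obtain ⟨S, hS⟩ : ∃ S : ℝ, S = ((∑ u ∈ Bd, cd G u v : ℕ) : ℝ) := ⟨_, rfl⟩
  have hS0 : 0 ≤ S := by rw [hS]; exact Nat.cast_nonneg _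
  have h1 := local_sum hG hH hGH (v := v) (D := E) (ζ := ζ) hE0.le hζ0.le (by linarith) hdG
  rw [← hBd, ← hS] at h1
  have hEp : E ^ (p + 3) = (1 + η) ^ (p + 3) * D ^ (p + 3) := by rw [hE, mul_pow]
  have hDp : 0 < D ^ (p + 3) := pow_pos hD _
  have hSb : ζ * (c * (E * S)) ≤ ((1 + η) ^ (p + 3) - (1 - η)) * D ^ (p + 3) := by
    have h2 : c * (((p : ℝ) + 2) * ((p : ℝ) + 3) * (dg H v : ℝ) + ζ * E * S) ≤
        c * (E * ((p : ℝ) + 2) * (dg G v : ℝ)) := mul_le_mul_of_nonneg_left h1 hc0.le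
    rw [hf3] at hdH
    rw [hf2] at hdG
    have h3 : E * (((p : ℝ) + 2) * c * (dg G v : ℝ)) ≤ E * E ^ (p + 2) :=
      mul_le_mul_of_nonneg_left hdG hE0.le
    have h4 : E * E ^ (p + 2) = (1 + η) ^ (p + 3) * D ^ (p + 3) := by rw [← hEp]; ring
    rw [h4] at h3
    linarith
  refine ⟨A, ?_, ?_, ?_⟩
  · have hAle : (A.card : ℝ) * ((1 - ζ) * E) ^ (p + 1) ≤ E ^ (p + 2) := by
      refine le_trans ?_ hdG
      have hsum : ((∑ u ∈ univ.erase v, cd G u v : ℕ) : ℝ) = ((p : ℝ) + 2) * (dg G v : ℝ) := by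
        rw [sum_cd (q := p + 2) hG v]
        push_cast
        ring
      rw [hf2, mul_comm ((p : ℝ) + 2) c, mul_assoc, ← hsum]
      have hsub : ((∑ u ∈ A, cd G u v : ℕ) : ℝ) ≤ ((∑ u ∈ univ.erase v, cd G u v : ℕ) : ℝ) := by
        have : (∑ u ∈ A, cd G u v) ≤ ∑ u ∈ univ.erase v, cd G u v := by
          refine Finset.sum_le_sum_of_subset ?_
          rw [hA]
          exact Finset.filter_subset _ _
        exact_mod_cast this
      refine le_trans ?_ (mul_le_mul_of_nonneg_left hsub hc0.le)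
      push_cast
      rw [Finset.mul_sum, ← nsmul_eq_mul, ← Finset.sum_const]
      refine Finset.sum_le_sum fun u hu => ?_
      rw [hA] at hu
      rw [hc]
      exact le_of_lt (not_le.1 (Finset.mem_filter.1 hu).2)
    have hEq : 0 < E ^ (p + 1) := pow_pos hE0 _
    have hA2 : (A.card : ℝ) * (1 - ζ) ^ (p + 1) ≤ E := by
      rw [mul_pow, ← mul_assoc, pow_succ E (p + 1), mul_comm (E ^ (p + 1)) E] at hAle
      exact le_of_mul_le_mul_right hAle hEq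
    have hz : 0 < (1 - ζ) ^ (p + 1) := pow_pos (by linarith) _
    have hA3 : (A.card : ℝ) * (1 - ζ) ^ (p + 1) ≤ (1 + ε) * D * (1 - ζ) ^ (p + 1) := by
      refine hA2.trans ?_
      rw [hE]
      have := mul_le_mul_of_nonneg_right hpar1 hD.le
      linarith
    exact le_of_mul_le_mul_right hA3 hz
  · have hN : dg H v ≤ (G.filter fun e => e ⊆ A).card + ∑ u ∈ Bd, cd H u v := by
      have hsub : (H.filter fun e => v ∈ e) ⊆ (H.filter fun e => v ∈ e ∧ e.erase v ⊆ A) ∪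
          Bd.biUnion fun u => H.filter fun e => u ∈ e ∧ v ∈ e := by
        intro e he
        obtain ⟨heH, hve⟩ := Finset.mem_filter.1 he
        by_cases hsubA : e.erase v ⊆ A
        · exact Finset.mem_union_left _ (Finset.mem_filter.2 ⟨heH, hve, hsubA⟩)
        · obtain ⟨u, hu, huA⟩ := Finset.not_subset.1 hsubA
          obtain ⟨huv, hue⟩ := Finset.mem_erase.1 hu
          refine Finset.mem_union_right _ (Finset.mem_biUnion.2 ⟨u, ?_, Finset.mem_filter.2 ⟨heH, hue, hve⟩⟩)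
          rw [hBd, Finset.mem_filter]
          refine ⟨Finset.mem_erase.2 ⟨huv, Finset.mem_univ u⟩, ?_⟩
          by_contra hno
          apply huA
          rw [hA, Finset.mem_filter]
          exact ⟨Finset.mem_erase.2 ⟨huv, Finset.mem_univ u⟩, hno⟩
      have hcard1 : (H.filter fun e => v ∈ e ∧ e.erase v ⊆ A).card ≤ (G.filter fun e => e ⊆ A).card := by
        refine Finset.card_le_card_of_injOn (fun e => e.erase v) ?_ ?_
        · intro e he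
          obtain ⟨heH, hve, heA⟩ := Finset.mem_filter.1 (Finset.mem_coe.1 he)
          exact Finset.mem_coe.2 (Finset.mem_filter.2 ⟨hGH e heH v hve, heA⟩)
        · intro e he e' he' h
          obtain ⟨-, hve, -⟩ := Finset.mem_filter.1 (Finset.mem_coe.1 he)
          obtain ⟨-, hve', -⟩ := Finset.mem_filter.1 (Finset.mem_coe.1 he')
          rw [← Finset.insert_erase hve, ← Finset.insert_erase hve']
          exact congrArg (insert v) h
      calc dg H v = (H.filter fun e => v ∈ e).card := rfl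
        _ ≤ _ := Finset.card_le_card hsub
        _ ≤ _ := Finset.card_union_le _ _
        _ ≤ _ := Nat.add_le_add hcard1 Finset.card_biUnion_le
    have hNr : (dg H v : ℝ) ≤ ((G.filter fun e => e ⊆ A).card : ℝ) + ((∑ u ∈ Bd, cd H u v : ℕ) : ℝ) := by
      exact_mod_cast hN
    have hsumH : ((p : ℝ) + 2) * ((∑ u ∈ Bd, cd H u v : ℕ) : ℝ) ≤ E * S := by
      rw [hS]
      push_cast
      rw [Finset.mul_sum, Finset.mul_sum]
      refine Finset.sum_le_sum fun u hu => ?_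
      rw [hBd] at hu
      have huv : u ≠ v := (Finset.mem_erase.1 (Finset.mem_filter.1 hu).1).1
      exact cd_le_D hG hH hGH huv hE0.le hdG
    obtain ⟨T, hT⟩ : ∃ T : ℝ, T = ((∑ u ∈ Bd, cd H u v : ℕ) : ℝ) := ⟨_, rfl⟩
    obtain ⟨N, hNe⟩ : ∃ N : ℝ, N = ((G.filter fun e => e ⊆ A).card : ℝ) := ⟨_, rfl⟩
    rw [← hT] at hNr hsumH
    rw [← hNe] at hNr ⊢
    have hcp : 0 ≤ ((p : ℝ) + 3) * c := by positivity
    have h5 : ((p + 3).factorial : ℝ) * (dg H v : ℝ) ≤ ((p + 3).factorial : ℝ) * (N + T) :=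
      mul_le_mul_of_nonneg_left hNr (Nat.cast_nonneg _)
    have h6 : ((p : ℝ) + 3) * c * (((p : ℝ) + 2) * T) ≤ ((p : ℝ) + 3) * c * (E * S) :=
      mul_le_mul_of_nonneg_left hsumH hcp
    have h7 : (1 - η) * D ^ (p + 3) - ((p : ℝ) + 3) * c * (E * S) ≤ ((p + 3).factorial : ℝ) * N := by
      have h8 : ((p + 3).factorial : ℝ) * (N + T) = ((p + 3).factorial : ℝ) * N + ((p : ℝ) + 3) * c * (((p : ℝ) + 2) * T) := by
        rw [hf3]
        ring
      linarith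
    have h9 : ζ * ((1 - ε) * D ^ (p + 3)) ≤ ζ * (((p + 3).factorial : ℝ) * N) := by
      have h10 : ζ * ((1 - η) * D ^ (p + 3) - ((p : ℝ) + 3) * c * (E * S)) ≤ ζ * (((p + 3).factorial : ℝ) * N) :=
        mul_le_mul_of_nonneg_left h7 hζ0.le
      have h11 : ((p : ℝ) + 3) * (ζ * (c * (E * S))) ≤ ((p : ℝ) + 3) * (((1 + η) ^ (p + 3) - (1 - η)) * D ^ (p + 3)) :=
        mul_le_mul_of_nonneg_left hSb (by linarith)
      have h12 : (ζ * η + ((p : ℝ) + 3) * ((1 + η) ^ (p + 3) - (1 - η))) * D ^ (p + 3) ≤ ζ * ε * D ^ (p + 3) :=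
        mul_le_mul_of_nonneg_right hpar2 hDp.le
      nlinarith
    exact le_of_mul_le_mul_left h9 hζ0
  · intro u hu
    rw [hA] at hu
    have h2 := not_le.1 (Finset.mem_filter.1 hu).2
    refine le_trans ?_ h2.le
    refine pow_le_pow_left₀ (by linarith) ?_ _
    nlinarith

end Pool.Agent.Lib.MP_455133_co.WN
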