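import Mathlib

/-!
Stability in the inequality between the means.
-/

namespace Pool.Agent.Lib.MP_455133_co.WN

open Finset

private theorem Mean_one {j : ℕ} (hj : 1 ≤ j) {x : ℝ} (hx : 0 < x) :
    (x - 1) ^ 2 / x ≤ x ^ j + j / x - (j + 1) := by
  have h1 : 1 + (j : ℝ) * (x - 1) ≤ x ^ j := by
    have h2 := one_add_mul_le_pow (a := x - 1) (by linarith) j
    rwa [add_sub_cancel] at h2
  have hj' : (1 : ℝ) ≤ j := by exact_mod_cast hj
  have h3 : (j : ℝ) / x = j * (1 - (x - 1) + (x - 1) ^ 2 / x) := by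
    field_simp
    ring
  have h4 : 0 ≤ (x - 1) ^ 2 / x := div_nonneg (sq_nonneg _) hx.le
  have h5 : (x - 1) ^ 2 / x ≤ j * ((x - 1) ^ 2 / x) := le_mul_of_one_le_left h4 hj'
  rw [h3]
  linarith

private theorem Mean_two {x ε : ℝ} (hx : 0 < x) (hε : 0 < ε) (hε1 : ε ≤ 1) (h : ε ≤ |x - 1|) :
    ε ^ 2 / 2 ≤ (x - 1) ^ 2 / x := by
  rw [div_le_div_iff₀ two_pos hx]
  rcases le_abs.1 h with h1 | h1
  · have h2 : ε ^ 2 ≤ (x - 1) ^ 2 := pow_le_pow_left₀ hε.le h1 2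
    have h3 : ε ^ 2 * (x - 1) ≤ (x - 1) ^ 2 := by
      have h4 : ε ^ 2 ≤ x - 1 := by nlinarith
      have h5 : 0 ≤ x - 1 := by linarith
      calc ε ^ 2 * (x - 1) ≤ (x - 1) * (x - 1) := mul_le_mul_of_nonneg_right h4 h5
        _ = (x - 1) ^ 2 := by ring
    nlinarith
  · have h2 : ε ^ 2 ≤ (x - 1) ^ 2 := by
      have h3 := pow_le_pow_left₀ hε.le h1 2
      rwa [neg_sq] at h3
    have h4 : x ≤ 1 := by linarith
    have h5 : ε ^ 2 * x ≤ ε ^ 2 := mul_le_of_le_one_right (sq_nonneg _) h4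
    nlinarith [sq_nonneg ε]

/-- PROOF. For `x > 0`, `j ≥ 1`: `x ^ j + j / x - (j + 1) ≥ j (x - 1) ^ 2 / x` (Bernoulli
`x ^ j ≥ 1 + j (x - 1)`, `one_add_mul_le_pow`, and `1 / x = 1 - (x - 1) + (x - 1) ^ 2 / x`), which is
`≥ 0`, and `≥ ε ^ 2 / 2` if `|x - 1| ≥ ε`, `0 < ε ≤ 1`. Sum over `v` with `x = y v / D`:
the sum of the left sides is at most `(1 + δ) N + j N - (j + 1) N = δ N`. -/
theorem count_bad {N j : ℕ} (hj : 1 ≤ j) {D : ℝ} (hD : 0 < D) (y : Fin N → ℝ)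
    (hy : ∀ v, 0 < y v) (h1 : ∑ v, 1 / y v ≤ N / D) {δ : ℝ}
    (h2 : ∑ v, y v ^ j ≤ (1 + δ) * N * D ^ j) {ε : ℝ} (hε : 0 < ε) (hε1 : ε ≤ 1) :
    ((univ.filter fun v => ε * D ≤ |y v - D|).card : ℝ) * ε ^ 2 ≤ 2 * δ * N := by
  have hx : ∀ v, 0 < y v / D := fun v => div_pos (hy v) hD
  have hterm : ∀ v, (if ε * D ≤ |y v - D| then ε ^ 2 / 2 else 0) ≤
      (y v / D) ^ j + j / (y v / D) - (j + 1) := by
    intro v
    refine le_trans ?_ (Mean_one hj (hx v))
    split_ifs with h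
    · refine Mean_two (hx v) hε hε1 ?_
      have h3 : y v / D - 1 = (y v - D) / D := by
        field_simp
      rw [h3, abs_div, abs_of_pos hD, le_div_iff₀ hD]
      exact h
    · exact div_nonneg (sq_nonneg _) (hx v).le
  have hsum := Finset.sum_le_sum fun v (_ : v ∈ (univ : Finset (Fin N))) => hterm v
  rw [Finset.sum_ite, Finset.sum_const, Finset.sum_const_zero, add_zero, nsmul_eq_mul] at hsum
  have h4 : ∑ v, ((y v / D) ^ j + j / (y v / D) - (j + 1)) ≤ δ * N := by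
    rw [Finset.sum_sub_distrib, Finset.sum_add_distrib]
    have h5 : ∑ v, (y v / D) ^ j ≤ (1 + δ) * N := by
      have h6 : ∑ v, (y v / D) ^ j = (∑ v, y v ^ j) / D ^ j := by
        rw [Finset.sum_div]
        exact Finset.sum_congr rfl fun v _ => div_pow _ _ _
      rw [h6, div_le_iff₀ (by positivity)]
      exact h2
    have h7 : ∑ v, (j : ℝ) / (y v / D) ≤ j * N := by
      have h8 : ∑ v, (j : ℝ) / (y v / D) = j * D * ∑ v, 1 / y v := by
        rw [Finset.mul_sum]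
        refine Finset.sum_congr rfl fun v _ => ?_
        have := (hy v).ne'
        field_simp
      rw [h8]
      calc (j : ℝ) * D * ∑ v, 1 / y v ≤ j * D * (N / D) :=
            mul_le_mul_of_nonneg_left h1 (by positivity)
        _ = j * N := by field_simp
    have h9 : ∑ _v : Fin N, ((j : ℝ) + 1) = N * (j + 1) := by
      rw [Finset.sum_const, Finset.card_univ, Fintype.card_fin, nsmul_eq_mul]
    rw [h9]
    linarith
  have h10 := hsum.trans h4
  linarith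

end Pool.Agent.Lib.MP_455133_co.WN
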