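import Mathlib
import Pool.Agent.Lib.MP_455133_co.LS.Main2
import Pool.Agent.Lib.MP_455133_co.WN.WDefs

/-!
The mean completion time is at least `a / (z + C)` if there are at most `z ^ j / j!` edges.
-/

namespace Pool.Agent.Lib.MP_455133_co.WN

open Finset Pool.Agent.Lib.MP_455133_co.LR

private theorem Root_chord {p a m : ℕ}
    (hc : (p + 2) * ((p + 2) ^ 2 + 1) ≤ 2 * a ∨ 6 * (p + 2) ^ 2 ≤ a) (ha : (p + 2) * (p + 3) ≤ a)
    (hm : (p + 3) * a ≤ (p + 2) * (m + 2)) : ChordAt p a m := by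
  by_cases hs1 : (p + 2) * ((p + 2) ^ 2 + 1) ≤ 2 * a
  · have hpa : p + 3 ≤ a := by nlinarith
    have ham : a ≤ m + 1 := by
      by_contra hlt
      push Not at hlt
      have h1 : (p + 3) * (m + 2) ≤ (p + 3) * a := Nat.mul_le_mul_left _ (by omega)
      nlinarith
    exact chordAt_of_K hm (by omega) (chordK hs1 ha ham)
  · have hs2 : 6 * (p + 2) ^ 2 ≤ a := by
      rcases hc with h | h
      · exact absurd h hs1
      · exact h
    have hp : 10 ≤ p := by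
      by_contra hlt
      push Not at hlt
      apply hs1
      have h1 : (p + 2) ^ 2 + 1 ≤ 12 * (p + 2) := by
        interval_cases p <;> norm_num
      have h2 : (p + 2) * ((p + 2) ^ 2 + 1) ≤ (p + 2) * (12 * (p + 2)) :=
        Nat.mul_le_mul_left _ h1
      nlinarith
    exact LS.chordAt2 hp hs2 hm

private theorem Root_card {p m l : ℕ} {z : ℝ} (hz : 0 ≤ z) (hm : ⌈z⌉₊ + p + 1 ≤ m)
    (hl : ((p + 2).factorial : ℝ) * l ≤ z ^ (p + 2)) :
    (l : ℝ) ≤ (m.choose (p + 1) : ℝ) + (m.choose (p + 2) : ℝ) := by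
  have h1 : (m + 1 + 1 - (p + 2)) ^ (p + 2) ≤ (m + 1).descFactorial (p + 2) :=
    Nat.pow_sub_le_descFactorial (m + 1) (p + 2)
  rw [Nat.descFactorial_eq_factorial_mul_choose, show m + 1 + 1 - (p + 2) = m - p by omega,
    Nat.choose_succ_succ' m (p + 1)] at h1
  have h2 : (((m - p : ℕ) : ℝ)) ^ (p + 2) ≤
      ((p + 2).factorial : ℝ) * ((m.choose (p + 1) : ℝ) + (m.choose (p + 2) : ℝ)) := by
    exact_mod_cast h1
  have h3 : z ≤ ((m - p : ℕ) : ℝ) := by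
    refine (Nat.le_ceil z).trans ?_
    exact_mod_cast (show ⌈z⌉₊ ≤ m - p by omega)
  have h4 : z ^ (p + 2) ≤ ((m - p : ℕ) : ℝ) ^ (p + 2) := pow_le_pow_left₀ hz h3 _
  have h5 : (0 : ℝ) < ((p + 2).factorial : ℝ) := by exact_mod_cast Nat.factorial_pos _
  exact le_of_mul_le_mul_left (hl.trans (h4.trans h2)) h5

private theorem Root_frac {a m c l C2 R : ℝ} (ha : 0 ≤ a) (hm : 0 ≤ m) (hc : 0 < c)
    (hl : l ≤ c + C2)
    (h : a / (m + 1) - a / ((m + 1) * (m + 2) * c) * (l - C2) ≤ R) : a / (m + 2) ≤ R := by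
  have h1 : a / ((m + 1) * (m + 2) * c) * (l - C2) ≤ a / ((m + 1) * (m + 2) * c) * c := by
    apply mul_le_mul_of_nonneg_left (by linarith)
    positivity
  have h2 : a / (m + 1) - a / ((m + 1) * (m + 2) * c) * c = a / (m + 2) := by
    field_simp
    ring
  linarith

/-- PROOF. `ChordAt p a m` holds for all `m` with `(p + 3) a ≤ (p + 2) (m + 2)`: from
`LR.chordAt_of_K`, `LR.chordK` in the first case, from `LS.chordAt2` in the second (there `10 ≤ p`,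
as in the proof of `LS.turan_lower2`). Let `m₀ = 2 a + p + 1`, `C = m₀ + p + 4`. Given `z` put
`m = max m₀ (⌈z⌉₊ + p + 1)`. Then `(p+2)! C(m+1, p+2) = (m+1).descFactorial (p+2) ≥
(m - p) ^ (p+2) ≥ z ^ (p+2) ≥ (p+2)! |L|` (`Nat.pow_sub_le_descFactorial`), so `|L| ≤ C(m, p+1) +
C(m, p+2)`, and the chord inequality gives `a/(m+1) - a/((m+1)(m+2)) = a/(m+2) ≤ RR`; finally
`m + 2 ≤ z + C`. -/
theorem RR_root {p a : ℕ}
    (hc : (p + 2) * ((p + 2) ^ 2 + 1) ≤ 2 * a ∨ 6 * (p + 2) ^ 2 ≤ a) (ha : (p + 2) * (p + 3) ≤ a) :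
    ∃ C : ℝ, 0 < C ∧ ∀ (n : ℕ) (L : Finset (Finset (Fin n))), (∀ e ∈ L, e.card = p + 2) →
      ∀ W : Finset (Fin n), su L ⊆ W → ∀ z : ℝ, 0 ≤ z →
        ((p + 2).factorial : ℝ) * L.card ≤ z ^ (p + 2) →
        (a : ℝ) / (z + C) ≤ RR (p + 2) a L W.card W := by
  refine ⟨((2 * a + p + 1 : ℕ) : ℝ) + p + 4, by positivity, fun n L hL W hW z hz hcard => ?_⟩
  obtain ⟨m, hmd⟩ : ∃ m : ℕ, m = max (2 * a + p + 1) (⌈z⌉₊ + p + 1) := ⟨_, rfl⟩
  have hm1 : 2 * a + p + 1 ≤ m := by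
    rw [hmd]
    exact le_max_left _ _
  have hm2 : ⌈z⌉₊ + p + 1 ≤ m := by
    rw [hmd]
    exact le_max_right _ _
  have hm3 : (p + 3) * a ≤ (p + 2) * (m + 2) := by
    calc (p + 3) * a ≤ (p + 2) * (2 * a) := by nlinarith
      _ ≤ (p + 2) * (m + 2) := Nat.mul_le_mul_left _ (by omega)
  have h := Root_chord hc ha hm3 n L hL W hW
  have hcpos : (0 : ℝ) < (m.choose (p + 1) : ℝ) := by exact_mod_cast Nat.choose_pos (by omega)
  have h1 := Root_frac (Nat.cast_nonneg a) (Nat.cast_nonneg m) hcpos (Root_card hz hm2 hcard) h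
  refine le_trans ?_ h1
  have hm4 : (m : ℝ) + 2 ≤ z + (((2 * a + p + 1 : ℕ) : ℝ) + p + 4) := by
    have hceil := Nat.ceil_lt_add_one hz
    have h0 : (0 : ℝ) ≤ ((2 * a + p + 1 : ℕ) : ℝ) := Nat.cast_nonneg _
    have hp0 : (0 : ℝ) ≤ (p : ℝ) := Nat.cast_nonneg _
    rcases le_total (2 * a + p + 1) (⌈z⌉₊ + p + 1) with h5 | h5
    · rw [max_eq_right h5] at hmd
      rw [hmd]
      push_cast at h0 ⊢
      linarith
    · rw [max_eq_left h5] at hmd
      rw [hmd]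
      linarith
  exact div_le_div_of_nonneg_left (Nat.cast_nonneg a) (by positivity) hm4

end Pool.Agent.Lib.MP_455133_co.WN
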