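import Mathlib
import Pool.Agent.Lib.MP_455133_co.WN.Root
import Pool.Agent.Lib.MP_455133_co.WN.Mean

/-!
Almost all vertices have the right degree.
-/

namespace Pool.Agent.Lib.MP_455133_co.WN

open Finset Pool.Agent.Lib.MP_455133_co.LR

private theorem typical_root {j : ℕ} (hj : j ≠ 0) {x : ℝ} (hx : 0 ≤ x) :
    ∃ z : ℝ, 0 ≤ z ∧ z ^ j = x :=
  ⟨x ^ ((j : ℝ)⁻¹), Real.rpow_nonneg hx _, Real.rpow_inv_natCast_pow hx hj⟩

private theorem typical_theta {j : ℕ} (hj : j ≠ 0) {x : ℝ} (hx : 1 < x) :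
    ∃ θ : ℝ, 0 < θ ∧ (1 + θ) ^ j = x := by
  obtain ⟨w, hw0, hw⟩ := typical_root hj (by linarith : (0 : ℝ) ≤ x)
  have h1 : 1 < w := by
    by_contra h
    push Not at h
    have := pow_le_one₀ (n := j) hw0 h
    linarith
  refine ⟨w - 1, by linarith, ?_⟩
  rw [add_sub_cancel]
  exact hw

private theorem typical_split {j : ℕ} {z C θ : ℝ} (hz : 0 ≤ z) (hC : 0 < C) (hθ : 0 < θ) :
    (z + C) ^ j ≤ (1 + θ) ^ j * z ^ j + (C + C / θ) ^ j := by
  have hp1 : 0 ≤ (1 + θ) ^ j * z ^ j := by positivity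
  have hp2 : 0 ≤ (C + C / θ) ^ j := by positivity
  by_cases h : C ≤ θ * z
  · have h1 : (z + C) ^ j ≤ ((1 + θ) * z) ^ j := by
      apply pow_le_pow_left₀ (by positivity)
      linarith
    rw [mul_pow] at h1
    linarith
  · push Not at h
    have h1 : z < C / θ := by
      rw [lt_div_iff₀ hθ]
      linarith
    have h2 : (z + C) ^ j ≤ (C + C / θ) ^ j := by
      apply pow_le_pow_left₀ (by positivity)
      linarith
    linarith

private theorem typical_sum {p k a N : ℕ} (ha : 1 ≤ a) {C : ℝ}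
    (hR : ∀ (n : ℕ) (L : Finset (Finset (Fin n))), (∀ e ∈ L, e.card = p + 2) →
      ∀ W : Finset (Fin n), su L ⊆ W → ∀ z : ℝ, 0 ≤ z →
        ((p + 2).factorial : ℝ) * L.card ≤ z ^ (p + 2) →
        (a : ℝ) / (z + C) ≤ RR (p + 2) a L W.card W)
    {𝒜 : Finset (Finset (Fin N))} (h : IsCovering (a + 1) (k * a + 1) 𝒜)
    (z : Fin N → ℝ) (hz : ∀ v, 0 ≤ z v)
    (hzp : ∀ v, z v ^ (p + 2) = ((p + 2).factorial : ℝ) * (dg (lowerShadow (p + 3) 𝒜) v : ℝ)) :
    ∑ v, 1 / (z v + C) ≤ k := by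
  set B := lowerShadow (p + 3) 𝒜 with hB
  have hBc : ∀ e ∈ B, e.card = p + 3 := shadow_card
  obtain ⟨I, -, hI2, hI3⟩ := exists_free (j := p + 2) ha B N (univ : Finset (Fin N)) (by simp)
  have hIt : I.card ≤ k * a := by
    by_contra hlt
    push Not at hlt
    obtain ⟨T, hT, hTt⟩ := exists_subset_card_eq (s := I) (n := k * a + 1) (by omega)
    obtain ⟨A, hA, hAT⟩ := h.2 T hTt
    exact hI2 A (hAT.trans hT) (h.1 A hA) (shadow_isK hA)
  have hIt' : (I.card : ℝ) ≤ (a : ℝ) * k := by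
    have : (I.card : ℝ) ≤ ((k * a : ℕ) : ℝ) := by exact_mod_cast hIt
    push_cast at this
    linarith
  have h1 : ∀ v ∈ (univ : Finset (Fin N)), (a : ℝ) / (z v + C) ≤
      RR (p + 2) a (lk B v) (N - 1) ((univ : Finset (Fin N)).erase v) := by
    intro v _
    have h2 : ∀ e ∈ lk B v, e.card = p + 2 := by
      intro S hS
      obtain ⟨h3, h4⟩ := mem_lk.mp hS
      have h5 := hBc _ h4
      rw [card_insert_of_notMem h3] at h5
      omega
    have h3 : su (lk B v) ⊆ (univ : Finset (Fin N)).erase v := by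
      intro x hx
      obtain ⟨e, he, hxe⟩ := mem_su.mp hx
      rw [mem_erase]
      exact ⟨fun h => (mem_lk.mp he).1 (h ▸ hxe), mem_univ _⟩
    have h6 : ((p + 2).factorial : ℝ) * ((lk B v).card : ℝ) ≤ z v ^ (p + 2) := by
      rw [hzp v, card_lk]
      exact le_refl _
    have h4 := hR N (lk B v) h2 _ h3 (z v) (hz v) h6
    have h5 : ((univ : Finset (Fin N)).erase v).card = N - 1 := by
      rw [card_erase_of_mem (mem_univ v), card_univ, Fintype.card_fin]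
    rw [h5] at h4
    exact h4
  have h2 := (sum_le_sum h1).trans (hI3.trans hIt')
  have h3 : ∑ v, (a : ℝ) / (z v + C) = a * ∑ v, 1 / (z v + C) := by
    rw [mul_sum]
    exact sum_congr rfl fun v _ => by ring
  have ha' : (0 : ℝ) < a := by exact_mod_cast ha
  rw [h3] at h2
  exact le_of_mul_le_mul_left h2 ha'

private theorem typical_pow {p k N : ℕ} (hk : 1 ≤ k) {𝒜 : Finset (Finset (Fin N))} {δ : ℝ}
    (hb : (k : ℝ) ^ (p + 2) * ((p + 3).factorial : ℝ) * ((lowerShadow (p + 3) 𝒜).card : ℝ) ≤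
        (1 + δ) * (N : ℝ) ^ (p + 3))
    (z : Fin N → ℝ)
    (hzp : ∀ v, z v ^ (p + 2) = ((p + 2).factorial : ℝ) * (dg (lowerShadow (p + 3) 𝒜) v : ℝ)) :
    ∑ v, z v ^ (p + 2) ≤ (1 + δ) * N * ((N : ℝ) / k) ^ (p + 2) := by
  have hk' : (0 : ℝ) < k := by exact_mod_cast hk
  have h1 : ∑ v, z v ^ (p + 2) =
      ((p + 3).factorial : ℝ) * ((lowerShadow (p + 3) 𝒜).card : ℝ) := by
    simp only [hzp]
    rw [← mul_sum, ← Nat.cast_sum]
    have h2 : ∑ v, dg (lowerShadow (p + 3) 𝒜) v = (p + 3) * (lowerShadow (p + 3) 𝒜).card := by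
      rw [← sum_card_lk (B := lowerShadow (p + 3) 𝒜) (r := p + 3) shadow_card]
      exact sum_congr rfl fun v _ => (card_lk _ _).symm
    rw [h2, Nat.factorial_succ (p + 2)]
    push_cast
    ring
  rw [h1, div_pow, ← mul_div_assoc, le_div_iff₀ (by positivity)]
  calc _ = (k : ℝ) ^ (p + 2) * ((p + 3).factorial : ℝ) *
        ((lowerShadow (p + 3) 𝒜).card : ℝ) := by ring
    _ ≤ _ := hb
    _ = _ := by ring

/-- PROOF. Write `j = p + 2`, `D = N / k`, `B = lowerShadow (p+3) 𝒜`, `d v = dg B v = |lk B v|`,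
`z v ≥ 0` with `z v ^ j = j! d v` (real root), `C` from `RR_root`, `y v = z v + C`.
(1) `∑ 1 / y v ≤ k`: `LR.exists_free` for `W = univ` gives a set `I` without complete `(a+1)`-sets
of `B`, so `|I| ≤ k a` (as in the proof of `LR.sum_line`), and `∑ RR ≤ |I|`, `RR ≥ a / y v`.
(2) `∑ z v ^ j = (p+2)! ∑ d v = (p+3)! |B| ≤ (1 + δ) N D ^ j` (`LR.sum_card_lk`).
(3) For `θ > 0`: `(z + C) ^ j ≤ (1 + θ) ^ j z ^ j + (C + C / θ) ^ j` (two cases `z ≥ C / θ` or not).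
(4) Given `η` let `ε = η / 2` and choose `δ'` with `2 δ' ≤ η ε ^ 2`, `θ`, `δ` with
`(1 + θ) ^ j (1 + δ) ≤ 1 + δ' / 2`, and `N₀` so large that `(C + C / θ) ^ j ≤ (δ' / 2) D ^ j` and
`C ≤ (η / 2) D`. Then `count_bad` applies with `δ'`: for all but `η N` vertices
`|y v - D| < ε D`, so `(1 - η) D ≤ z v ≤ (1 + η) D`; take the `j`-th powers. -/
theorem typical {p k a : ℕ} (hk : 1 ≤ k)
    (hc : (p + 2) * ((p + 2) ^ 2 + 1) ≤ 2 * a ∨ 6 * (p + 2) ^ 2 ≤ a) (ha : (p + 2) * (p + 3) ≤ a)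
    {η : ℝ} (hη : 0 < η) (hη1 : η < 1) :
    ∃ δ : ℝ, 0 < δ ∧ ∃ N₀ : ℕ, ∀ N : ℕ, N₀ ≤ N → ∀ 𝒜 : Finset (Finset (Fin N)),
      IsCovering (a + 1) (k * a + 1) 𝒜 →
      (k : ℝ) ^ (p + 2) * ((p + 3).factorial : ℝ) * ((lowerShadow (p + 3) 𝒜).card : ℝ) ≤
        (1 + δ) * (N : ℝ) ^ (p + 3) →
      ((univ.filter fun v : Fin N =>
        ¬ (((1 - η) * ((N : ℝ) / k)) ^ (p + 2) ≤
            ((p + 2).factorial : ℝ) * (dg (lowerShadow (p + 3) 𝒜) v : ℝ) ∧
          ((p + 2).factorial : ℝ) * (dg (lowerShadow (p + 3) 𝒜) v : ℝ) ≤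
            ((1 + η) * ((N : ℝ) / k)) ^ (p + 2))).card : ℝ) ≤ η * N := by
  have ha1 : 1 ≤ a := by nlinarith [Nat.zero_le p]
  obtain ⟨C, hC, hR⟩ := RR_root (p := p) (a := a) hc ha
  set δ' : ℝ := η ^ 3 / 8 with hδ'
  have hδ'0 : 0 < δ' := by positivity
  have hδ'1 : δ' ≤ 1 := by
    have : η ^ 3 ≤ 1 := pow_le_one₀ hη.le hη1.le
    rw [hδ']
    linarith
  obtain ⟨θ, hθ, hθj⟩ := typical_theta (j := p + 2) (by omega) (x := 1 + δ' / 8) (by linarith)
  refine ⟨δ' / 8, by positivity,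
    ⌈(k : ℝ) * (1 + 2 * (C + C / θ) ^ (p + 2) / δ' + 2 * C / η)⌉₊, ?_⟩
  intro N hN 𝒜 h𝒜 hb
  have hk' : (0 : ℝ) < k := by exact_mod_cast hk
  have hD : 1 + 2 * (C + C / θ) ^ (p + 2) / δ' + 2 * C / η ≤ (N : ℝ) / k := by
    rw [le_div_iff₀ hk']
    have h1 := Nat.le_ceil ((k : ℝ) * (1 + 2 * (C + C / θ) ^ (p + 2) / δ' + 2 * C / η))
    have h2 : ((⌈(k : ℝ) * (1 + 2 * (C + C / θ) ^ (p + 2) / δ' + 2 * C / η)⌉₊ : ℕ) : ℝ) ≤ N := by
      exact_mod_cast hN
    rw [mul_comm]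
    exact h1.trans h2
  set D : ℝ := (N : ℝ) / k with hDdef
  have hX0 : 0 ≤ 2 * (C + C / θ) ^ (p + 2) / δ' := by positivity
  have hY0 : 0 ≤ 2 * C / η := by positivity
  have hD1 : 1 ≤ D := by linarith
  have hD0 : 0 < D := by linarith
  have hDj : D ≤ D ^ (p + 2) := le_self_pow₀ hD1 (by omega)
  have hX : (C + C / θ) ^ (p + 2) ≤ δ' / 2 * D ^ (p + 2) := by
    have h1 : 2 * (C + C / θ) ^ (p + 2) / δ' ≤ D ^ (p + 2) := by linarith
    rw [div_le_iff₀ hδ'0] at h1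
    linarith
  have hY : C ≤ η / 2 * D := by
    have h1 : 2 * C / η ≤ D := by linarith
    rw [div_le_iff₀ hη] at h1
    linarith
  have hz : ∀ v, ∃ z : ℝ, 0 ≤ z ∧ z ^ (p + 2) =
      ((p + 2).factorial : ℝ) * (dg (lowerShadow (p + 3) 𝒜) v : ℝ) :=
    fun v => typical_root (by omega) (by positivity)
  choose z hz0 hzp using hz
  have h1 := typical_sum ha1 hR h𝒜 z hz0 hzp
  have h2 := typical_pow hk hb z hzp
  rw [← hDdef] at h2
  have h3 : ∑ v, (z v + C) ^ (p + 2) ≤ (1 + δ') * N * D ^ (p + 2) := by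
    calc ∑ v, (z v + C) ^ (p + 2)
        ≤ ∑ v, ((1 + θ) ^ (p + 2) * z v ^ (p + 2) + (C + C / θ) ^ (p + 2)) :=
          sum_le_sum fun v _ => typical_split (hz0 v) hC hθ
      _ = (1 + δ' / 8) * ∑ v, z v ^ (p + 2) + N * (C + C / θ) ^ (p + 2) := by
          rw [sum_add_distrib, ← mul_sum, hθj, sum_const, card_univ, Fintype.card_fin,
            nsmul_eq_mul]
      _ ≤ (1 + δ' / 8) * ((1 + δ' / 8) * N * D ^ (p + 2)) + N * (δ' / 2 * D ^ (p + 2)) :=
          add_le_add (mul_le_mul_of_nonneg_left h2 (by positivity))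
            (mul_le_mul_of_nonneg_left hX (by positivity))
      _ = ((1 + δ' / 8) * (1 + δ' / 8) + δ' / 2) * (N * D ^ (p + 2)) := by ring
      _ ≤ (1 + δ') * (N * D ^ (p + 2)) := by
          apply mul_le_mul_of_nonneg_right _ (by positivity)
          nlinarith
      _ = (1 + δ') * N * D ^ (p + 2) := by ring
  have hN0 : (N : ℝ) ≠ 0 := by
    intro h
    rw [hDdef, h, zero_div] at hD0
    exact lt_irrefl _ hD0
  have hND : (N : ℝ) / D = k := by
    rw [hDdef]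
    field_simp
  have h4 := count_bad (j := p + 2) (by omega) hD0 (fun v => z v + C)
    (fun v => by have := hz0 v; positivity) (by rw [hND]; exact h1) h3 (ε := η / 2)
    (by positivity) (by linarith)
  have h5 : ((univ.filter fun v : Fin N => η / 2 * D ≤ |z v + C - D|).card : ℝ) ≤ η * N := by
    have h6 : 0 < (η / 2) ^ 2 := by positivity
    have h7 : ((univ.filter fun v : Fin N => η / 2 * D ≤ |z v + C - D|).card : ℝ) *
        (η / 2) ^ 2 ≤ (η * N) * (η / 2) ^ 2 := by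
      refine h4.trans (le_of_eq ?_)
      rw [hδ']
      ring
    exact le_of_mul_le_mul_right h7 h6
  refine le_trans ?_ h5
  have h8 : (univ.filter fun v : Fin N =>
        ¬ (((1 - η) * D) ^ (p + 2) ≤
            ((p + 2).factorial : ℝ) * (dg (lowerShadow (p + 3) 𝒜) v : ℝ) ∧
          ((p + 2).factorial : ℝ) * (dg (lowerShadow (p + 3) 𝒜) v : ℝ) ≤
            ((1 + η) * D) ^ (p + 2))) ⊆
      (univ.filter fun v : Fin N => η / 2 * D ≤ |z v + C - D|) := by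
    intro v hv
    rw [mem_filter] at hv ⊢
    refine ⟨hv.1, ?_⟩
    by_contra hlt
    push Not at hlt
    rw [abs_lt] at hlt
    apply hv.2
    rw [← hzp v]
    have hη1' : 0 ≤ 1 - η := by linarith
    have hηD : 0 < η * D := by positivity
    constructor
    · exact pow_le_pow_left₀ (mul_nonneg hη1' hD0.le) (by linarith [hlt.1]) _
    · exact pow_le_pow_left₀ (hz0 v) (by linarith [hlt.2]) _
  exact_mod_cast card_le_card h8

end Pool.Agent.Lib.MP_455133_co.WN
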