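import Mathlib
import Pool.Agent.Lib.MP_455133_co.LS.Main2
import Pool.Agent.Lib.MP_455133_co.WN.Bal
import Pool.Agent.Lib.MP_455133_co.WN.Typical
import Pool.Agent.Lib.MP_455133_co.WN.Local

/-!
Almost all vertices lie in nearly the right number of `(p+4)`-sets of the `(p+4)`-shadow.
-/

namespace Pool.Agent.Lib.MP_455133_co.WN

open Finset

theorem shadow_erase {n r : ℕ} {𝒜 : Finset (Finset (Fin n))} :
    ∀ e ∈ lowerShadow (r + 1) 𝒜, ∀ v ∈ e, e.erase v ∈ lowerShadow r 𝒜 := by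
  intro e he v hv
  rw [lowerShadow, mem_filter, mem_powersetCard] at he ⊢
  obtain ⟨⟨-, h1⟩, A, hA, h2⟩ := he
  exact ⟨⟨subset_univ _, by rw [card_erase_of_mem hv, h1]; rfl⟩, A, hA,
    (erase_subset _ _).trans h2⟩

private theorem TypicalH_sum {n q : ℕ} {H : Finset (Finset (Fin n))} (hH : ∀ e ∈ H, e.card = q) :
    ∑ v, dg H v = q * H.card := by
  have h1 := Finset.sum_card_bipartiteAbove_eq_sum_card_bipartiteBelow
    (s := (univ : Finset (Fin n))) (t := H) (fun v e => v ∈ e)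
  have h2 : ∀ v ∈ (univ : Finset (Fin n)),
      (H.bipartiteAbove (fun (v : Fin n) (e : Finset (Fin n)) => v ∈ e) v).card = dg H v :=
    fun v _ => rfl
  have h3 : ∀ e ∈ H,
      ((univ : Finset (Fin n)).bipartiteBelow (fun (v : Fin n) (e : Finset (Fin n)) => v ∈ e) e).card
        = q := by
    intro e he
    rw [← hH e he]
    refine congrArg Finset.card ?_
    ext v
    simp [Finset.mem_bipartiteBelow]
  rw [sum_congr rfl h2, sum_congr rfl h3, sum_const, smul_eq_mul] at h1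
  rw [h1, mul_comm]

private theorem TypicalH_dg_le {n q : ℕ} {H : Finset (Finset (Fin n))}
    (hH : ∀ e ∈ H, e.card = q + 1) (v : Fin n) : dg H v ≤ n ^ q := by
  have h1 : ((H.filter fun e => v ∈ e).image fun e => e.erase v) ⊆ powersetCard q univ := by
    intro g hg
    obtain ⟨e, he, rfl⟩ := mem_image.1 hg
    rw [mem_filter] at he
    rw [mem_powersetCard, card_erase_of_mem he.2, hH e he.1]
    exact ⟨subset_univ _, rfl⟩
  have h2 : ((H.filter fun e => v ∈ e).image fun e => e.erase v).card = dg H v := by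
    refine card_image_of_injOn ?_
    intro e he f hf h
    have he2 : v ∈ e := (mem_filter.1 (mem_coe.1 he)).2
    have hf2 : v ∈ f := (mem_filter.1 (mem_coe.1 hf)).2
    have h3 : e.erase v = f.erase v := h
    rw [← insert_erase he2, ← insert_erase hf2, h3]
  rw [← h2]
  refine (card_le_card h1).trans ?_
  rw [card_powersetCard, card_univ, Fintype.card_fin]
  exact Nat.choose_le_pow n q

private theorem TypicalH_pow {x : ℝ} (hx : 0 ≤ x) (hx1 : x ≤ 1) (m : ℕ) :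
    (1 + x) ^ m ≤ 1 + ((2 : ℝ) ^ m - 1) * x := by
  induction m with
  | zero => simp
  | succ m ih =>
    have h2 : (1 : ℝ) ≤ 2 ^ m := one_le_pow₀ (by norm_num)
    have h3 : (1 + x) ^ (m + 1) ≤ (1 + ((2 : ℝ) ^ m - 1) * x) * (1 + x) := by
      rw [pow_succ]
      exact mul_le_mul_of_nonneg_right ih (by linarith)
    have h4 : x * x ≤ x := by nlinarith
    have h5 : ((2 : ℝ) ^ m - 1) * (x * x) ≤ ((2 : ℝ) ^ m - 1) * x :=
      mul_le_mul_of_nonneg_left h4 (by linarith)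
    rw [pow_succ (2 : ℝ) m]
    nlinarith

private theorem TypicalH_card {p k a N : ℕ} (hk : 1 ≤ k)
    (hc : (p + 3) * ((p + 3) ^ 2 + 1) ≤ 2 * a ∨ 6 * (p + 3) ^ 2 ≤ a)
    (hN : k * ((a + 1 - 2) / (p + 3) + a) ≤ N) {𝒜 : Finset (Finset (Fin N))}
    (h𝒜 : IsCovering (a + 1) (k * a + 1) 𝒜) :
    (N - k * (p + 4)) ^ (p + 4) ≤
      k ^ (p + 3) * (p + 4).factorial * (lowerShadow (p + 4) 𝒜).card := by
  have h1 : f N (p + 4) (a + 1) (k * (a + 1 - 1) + 1) =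
      (k - N % k) * (N / k).choose (p + 4) + (N % k) * (N / k + 1).choose (p + 4) :=
    LS.turan_exact2 (by omega) hc hk hN
  have h2 : f N (p + 4) (a + 1) (k * a + 1) ≤ (lowerShadow (p + 4) 𝒜).card := f_le h𝒜
  have h3 : bal k N (p + 3 + 1) ≤ (lowerShadow (p + 4) 𝒜).card := by
    refine le_trans (le_of_eq ?_) h2
    exact h1.symm
  exact (bal_lower hk N (p + 3)).trans (Nat.mul_le_mul_left _ h3)

/-- PROOF. Let `G`, `H` be the lower shadows for `p + 3` and `p + 4`, `D = N / k`.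
(1) `|H| ≥ f N (p+4) (a+1) (k a + 1) = bal k N (p+4)` (`LS.turan_exact2` for `r = p + 4`, `f_le`)
and `bal_lower`: `(p+4)! |H| k ^ (p+3) ≥ (N - k (p+4)) ^ (p+4) ≥ (1 - δ₁) N ^ (p+4)`.
(2) `∑ dg H v = (p+4) |H|`.
(3) `dg H v ≤ N ^ (p+3)` for all `v`; and if `(p+2)! dg G v ≤ ((1+η₁) D) ^ (p+2)`, then
`(p+3) (p+2) dg H v ≤ (1+η₁) D (p+2) dg G v` (`local_sum`, `ζ = 0`), so
`(p+3)! dg H v ≤ ((1+η₁) D) ^ (p+3)`; by `typical` (with `η₁`) this holds for all but `η₁ N` of `v`.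
(4) Let `m` be the number of `v` with `(p+3)! dg H v < (1-η) D ^ (p+3)`. Then
`(1 - δ₁) N D ^ (p+3) ≤ (p+3)! ∑ dg H v ≤ η₁ N (p+3)! N ^ (p+3) + m (1 - η) D ^ (p+3) +
(N - m) (1+η₁) ^ (p+3) D ^ (p+3)`, so
`m η ≤ N (δ₁ + η₁ (p+3)! k ^ (p+3) + (1+η₁) ^ (p+3) - 1)`; choose `η₁`, `δ₁` small. -/
theorem typicalH {p k a : ℕ} (hk : 1 ≤ k)
    (hc : (p + 3) * ((p + 3) ^ 2 + 1) ≤ 2 * a ∨ 6 * (p + 3) ^ 2 ≤ a)
    {η : ℝ} (hη : 0 < η) (hη1 : η < 1) :
    ∃ δ : ℝ, 0 < δ ∧ ∃ N₀ : ℕ, ∀ N : ℕ, N₀ ≤ N → ∀ 𝒜 : Finset (Finset (Fin N)),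
      IsCovering (a + 1) (k * a + 1) 𝒜 →
      (k : ℝ) ^ (p + 2) * ((p + 3).factorial : ℝ) * ((lowerShadow (p + 3) 𝒜).card : ℝ) ≤
        (1 + δ) * (N : ℝ) ^ (p + 3) →
      ((univ.filter fun v : Fin N =>
        ((p + 3).factorial : ℝ) * (dg (lowerShadow (p + 4) 𝒜) v : ℝ) <
          (1 - η) * ((N : ℝ) / k) ^ (p + 3)).card : ℝ) ≤ η * N := by
  have hk0 : (0 : ℝ) < k := by exact_mod_cast hk
  have hk1 : (1 : ℝ) ≤ k := by exact_mod_cast hk
  obtain ⟨C, hC⟩ : ∃ C : ℝ, C = ((p + 3).factorial : ℝ) * (k : ℝ) ^ (p + 3) := ⟨_, rfl⟩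
  have hC0 : 0 < C := by rw [hC]; positivity
  have h2p : (1 : ℝ) ≤ 2 ^ (p + 3) := one_le_pow₀ (by norm_num)
  obtain ⟨η₁, hη₁⟩ : ∃ η₁ : ℝ, η₁ = η ^ 2 / (3 * (2 ^ (p + 3) + C)) := ⟨_, rfl⟩
  have hB : 0 < 3 * ((2 : ℝ) ^ (p + 3) + C) := by linarith
  have hη₁0 : 0 < η₁ := by rw [hη₁]; positivity
  have hη2 : η ^ 2 < 1 := by nlinarith
  have hη₁1 : η₁ < 1 := by
    rw [hη₁, div_lt_one hB]
    linarith
  have hη₁e : (2 ^ (p + 3) + C) * η₁ = η ^ 2 / 3 := by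
    rw [hη₁]
    field_simp
  have hc2 : (p + 2) * ((p + 2) ^ 2 + 1) ≤ 2 * a ∨ 6 * (p + 2) ^ 2 ≤ a := by
    rcases hc with h | h
    · left
      refine le_trans (Nat.mul_le_mul (by omega) ?_) h
      exact Nat.add_le_add_right (Nat.pow_le_pow_left (by omega) 2) 1
    · right
      exact le_trans (Nat.mul_le_mul_left 6 (Nat.pow_le_pow_left (by omega) 2)) h
  have ha2 : (p + 2) * (p + 3) ≤ a := by
    rcases hc with h | h
    · nlinarith
    · nlinarith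
  obtain ⟨δ, hδ, N₀, hN₀⟩ := typical (p := p) (k := k) (a := a) hk hc2 ha2 hη₁0 hη₁1
  refine ⟨δ, hδ, max N₀ (max (k * ((a + 1 - 2) / (p + 3) + a))
    (⌈3 * (k : ℝ) * ((p : ℝ) + 4) ^ 2 / η ^ 2⌉₊ + 1)), ?_⟩
  intro N hN 𝒜 h𝒜 hG
  have hNa : N₀ ≤ N := (le_max_left _ _).trans hN
  have hNb : k * ((a + 1 - 2) / (p + 3) + a) ≤ N :=
    ((le_max_left _ _).trans (le_max_right _ _)).trans hN
  have hNc : ⌈3 * (k : ℝ) * ((p : ℝ) + 4) ^ 2 / η ^ 2⌉₊ + 1 ≤ N :=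
    ((le_max_right _ _).trans (le_max_right _ _)).trans hN
  have hN1 : (1 : ℝ) ≤ N := by exact_mod_cast le_trans (Nat.le_add_left 1 _) hNc
  have hN0 : (0 : ℝ) < N := by linarith
  have hNd : 3 * (k : ℝ) * ((p : ℝ) + 4) ^ 2 / η ^ 2 ≤ N := by
    refine (Nat.le_ceil _).trans ?_
    exact_mod_cast (Nat.le_succ _).trans hNc
  rw [div_le_iff₀ (by positivity)] at hNd
  have hbad := hN₀ N hNa 𝒜 h𝒜 hG
  obtain ⟨G, hGe⟩ : ∃ G, G = lowerShadow (p + 3) 𝒜 := ⟨_, rfl⟩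
  obtain ⟨H, hHe⟩ : ∃ H, H = lowerShadow (p + 4) 𝒜 := ⟨_, rfl⟩
  rw [← hGe] at hbad
  rw [← hHe]
  have hGc : ∀ e ∈ G, e.card = p + 3 := by
    intro e he
    rw [hGe, lowerShadow, mem_filter, mem_powersetCard] at he
    exact he.1.2
  have hHc : ∀ e ∈ H, e.card = p + 4 := by
    intro e he
    rw [hHe, lowerShadow, mem_filter, mem_powersetCard] at he
    exact he.1.2
  have hGH : ∀ e ∈ H, ∀ v ∈ e, e.erase v ∈ G := by
    intro e he v hv
    rw [hHe] at he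
    rw [hGe]
    exact shadow_erase e he v hv
  obtain ⟨D, hD⟩ : ∃ D : ℝ, D = (N : ℝ) / k := ⟨_, rfl⟩
  have hD0 : 0 < D := by rw [hD]; positivity
  have hDp : 0 < D ^ (p + 3) := pow_pos hD0 _
  have hNk : (N : ℝ) = k * D := by rw [hD]; field_simp
  rw [← hD] at hbad ⊢
  obtain ⟨Bd, hBd⟩ : ∃ Bd : Finset (Fin N), Bd = univ.filter fun v : Fin N =>
        ¬ (((1 - η₁) * D) ^ (p + 2) ≤ ((p + 2).factorial : ℝ) * (dg G v : ℝ) ∧
          ((p + 2).factorial : ℝ) * (dg G v : ℝ) ≤ ((1 + η₁) * D) ^ (p + 2)) := ⟨_, rfl⟩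
  rw [← hBd] at hbad
  obtain ⟨M, hM⟩ : ∃ M : Finset (Fin N), M = univ.filter fun v : Fin N =>
        ((p + 3).factorial : ℝ) * (dg H v : ℝ) < (1 - η) * D ^ (p + 3) := ⟨_, rfl⟩
  rw [← hM]
  have hone : (1 : ℝ) ≤ (1 + η₁) ^ (p + 3) := one_le_pow₀ (by linarith)
  -- the good vertices
  have hgood : ∀ v, v ∉ Bd → ((p + 3).factorial : ℝ) * (dg H v : ℝ) ≤ (1 + η₁) ^ (p + 3) * D ^ (p + 3) := by
    intro v hv
    have h1 : ((p + 2).factorial : ℝ) * (dg G v : ℝ) ≤ ((1 + η₁) * D) ^ (p + 2) := by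
      by_contra h2
      exact hv (by rw [hBd, mem_filter]; exact ⟨mem_univ _, fun h3 => h2 h3.2⟩)
    have h2 := local_sum hGc hHc hGH (v := v) (D := (1 + η₁) * D) (ζ := 0) (by positivity) le_rfl
      zero_le_one h1
    rw [zero_mul, zero_mul, add_zero] at h2
    have h3 : ((p : ℝ) + 3) * (dg H v : ℝ) ≤ (1 + η₁) * D * (dg G v : ℝ) := by
      have h4 : ((p : ℝ) + 2) * (((p : ℝ) + 3) * (dg H v : ℝ)) ≤
          ((p : ℝ) + 2) * ((1 + η₁) * D * (dg G v : ℝ)) := by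
        linarith
      exact le_of_mul_le_mul_left h4 (by positivity)
    have h5 : ((p + 3).factorial : ℝ) = ((p : ℝ) + 3) * ((p + 2).factorial : ℝ) := by
      rw [Nat.factorial_succ (p + 2)]
      push_cast
      ring
    have h6 : ((p + 2).factorial : ℝ) * (((p : ℝ) + 3) * (dg H v : ℝ)) ≤
        ((p + 2).factorial : ℝ) * ((1 + η₁) * D * (dg G v : ℝ)) :=
      mul_le_mul_of_nonneg_left h3 (by positivity)
    have h7 : ((1 + η₁) * D) * (((p + 2).factorial : ℝ) * (dg G v : ℝ)) ≤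
        ((1 + η₁) * D) * ((1 + η₁) * D) ^ (p + 2) := mul_le_mul_of_nonneg_left h1 (by positivity)
    calc ((p + 3).factorial : ℝ) * (dg H v : ℝ)
        = ((p + 2).factorial : ℝ) * (((p : ℝ) + 3) * (dg H v : ℝ)) := by rw [h5]; ring
      _ ≤ ((p + 2).factorial : ℝ) * ((1 + η₁) * D * (dg G v : ℝ)) := h6
      _ = ((1 + η₁) * D) * (((p + 2).factorial : ℝ) * (dg G v : ℝ)) := by ring
      _ ≤ ((1 + η₁) * D) * ((1 + η₁) * D) ^ (p + 2) := h7
      _ = (1 + η₁) ^ (p + 3) * D ^ (p + 3) := by rw [← pow_succ', mul_pow]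
  -- all vertices
  have hall : ∀ v, ((p + 3).factorial : ℝ) * (dg H v : ℝ) ≤ C * D ^ (p + 3) := by
    intro v
    have h1 : (dg H v : ℝ) ≤ (N : ℝ) ^ (p + 3) := by
      exact_mod_cast TypicalH_dg_le (q := p + 3) hHc v
    calc ((p + 3).factorial : ℝ) * (dg H v : ℝ) ≤ ((p + 3).factorial : ℝ) * (N : ℝ) ^ (p + 3) :=
          mul_le_mul_of_nonneg_left h1 (by positivity)
      _ = C * D ^ (p + 3) := by rw [hC, hNk, mul_pow]; ring
  -- one bound for all vertices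
  have hpt : ∀ v, ((p + 3).factorial : ℝ) * (dg H v : ℝ) ≤
      (1 + η₁) ^ (p + 3) * D ^ (p + 3) - (if v ∈ M then η * D ^ (p + 3) else 0) +
        (if v ∈ Bd then C * D ^ (p + 3) else 0) := by
    intro v
    have hCD : 0 ≤ C * D ^ (p + 3) := by positivity
    have h1D : D ^ (p + 3) ≤ (1 + η₁) ^ (p + 3) * D ^ (p + 3) := by nlinarith
    by_cases hvM : v ∈ M
    · rw [if_pos hvM]
      have h1 : ((p + 3).factorial : ℝ) * (dg H v : ℝ) < (1 - η) * D ^ (p + 3) := by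
        rw [hM, mem_filter] at hvM
        exact hvM.2
      have h2 : 0 ≤ (if v ∈ Bd then C * D ^ (p + 3) else (0 : ℝ)) := by
        split_ifs
        · exact hCD
        · exact le_rfl
      nlinarith
    · rw [if_neg hvM, sub_zero]
      by_cases hvB : v ∈ Bd
      · rw [if_pos hvB]
        have := hall v
        nlinarith
      · rw [if_neg hvB, add_zero]
        exact hgood v hvB
  have hsum : ((p + 3).factorial : ℝ) * ∑ v, (dg H v : ℝ) ≤
      N * ((1 + η₁) ^ (p + 3) * D ^ (p + 3)) - M.card * (η * D ^ (p + 3)) +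
        Bd.card * (C * D ^ (p + 3)) := by
    rw [mul_sum]
    refine (sum_le_sum fun v _ => hpt v).trans (le_of_eq ?_)
    rw [sum_add_distrib, sum_sub_distrib, sum_const, card_univ, Fintype.card_fin, nsmul_eq_mul,
      sum_ite_mem, sum_ite_mem, univ_inter, univ_inter, sum_const, sum_const, nsmul_eq_mul,
      nsmul_eq_mul]
  -- the lower bound
  have hlow : (1 - η ^ 2 / 3) * (N * D ^ (p + 3)) ≤ ((p + 3).factorial : ℝ) * ∑ v, (dg H v : ℝ) := by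
    have h1 := TypicalH_card hk hc hNb h𝒜
    rw [← hHe] at h1
    have h2 : ∑ v, (dg H v : ℝ) = ((p : ℝ) + 4) * (H.card : ℝ) := by
      have h3 := TypicalH_sum hHc
      exact_mod_cast h3
    have h4 : ((p + 4).factorial : ℝ) = ((p : ℝ) + 4) * ((p + 3).factorial : ℝ) := by
      rw [Nat.factorial_succ (p + 3)]
      push_cast
      ring
    have h5 : k * (p + 4) ≤ N := by
      have h6 : (k : ℝ) * ((p : ℝ) + 4) ≤ N := by
        have h7 : (k : ℝ) * ((p : ℝ) + 4) ≤ 3 * k * ((p : ℝ) + 4) ^ 2 := by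
          have hp0 : (0 : ℝ) ≤ p := Nat.cast_nonneg p
          have : (1 : ℝ) ≤ (p : ℝ) + 4 := by linarith
          nlinarith [mul_pos hk0 (by linarith : (0 : ℝ) < (p : ℝ) + 4)]
        have h8 : (N : ℝ) * η ^ 2 ≤ N := by nlinarith
        linarith
      exact_mod_cast h6
    have h9 : ((N : ℝ) - k * ((p : ℝ) + 4)) ^ (p + 4) ≤
        (k : ℝ) ^ (p + 3) * ((p + 4).factorial : ℝ) * (H.card : ℝ) := by
      have h10 : (((N - k * (p + 4) : ℕ)) : ℝ) = (N : ℝ) - k * ((p : ℝ) + 4) := by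
        rw [Nat.cast_sub h5]
        push_cast
        ring
      rw [← h10]
      exact_mod_cast h1
    -- Bernoulli
    have h11 : (1 - η ^ 2 / 3) * (N : ℝ) ^ (p + 4) ≤ ((N : ℝ) - k * ((p : ℝ) + 4)) ^ (p + 4) := by
      have h12 : (N : ℝ) - k * ((p : ℝ) + 4) = N * (1 + -(k * ((p : ℝ) + 4) / N)) := by
        field_simp
        ring
      have h13 : k * ((p : ℝ) + 4) / N ≤ 1 := by
        rw [div_le_one hN0]
        exact_mod_cast h5
      have h14 := one_add_mul_le_pow (a := -(k * ((p : ℝ) + 4) / N)) (by linarith) (p + 4)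
      have h15 : 1 - η ^ 2 / 3 ≤ 1 + ((p + 4 : ℕ) : ℝ) * -(k * ((p : ℝ) + 4) / N) := by
        have h16 : ((p : ℝ) + 4) * (k * ((p : ℝ) + 4) / N) ≤ η ^ 2 / 3 := by
          rw [← mul_div_assoc, div_le_iff₀ hN0]
          nlinarith
        push_cast
        linarith
      rw [h12, mul_pow, mul_comm]
      exact mul_le_mul_of_nonneg_left (h15.trans h14) (by positivity)
    have h17 : (N : ℝ) ^ (p + 4) = (k : ℝ) ^ (p + 3) * (N * D ^ (p + 3)) := by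
      rw [pow_succ (N : ℝ) (p + 3)]
      nth_rewrite 1 [hNk]
      rw [mul_pow]
      ring
    have h18 : (k : ℝ) ^ (p + 3) * ((1 - η ^ 2 / 3) * (N * D ^ (p + 3))) ≤
        (k : ℝ) ^ (p + 3) * (((p + 3).factorial : ℝ) * ∑ v, (dg H v : ℝ)) := by
      calc (k : ℝ) ^ (p + 3) * ((1 - η ^ 2 / 3) * (N * D ^ (p + 3)))
          = (1 - η ^ 2 / 3) * (N : ℝ) ^ (p + 4) := by rw [h17]; ring
        _ ≤ ((N : ℝ) - k * ((p : ℝ) + 4)) ^ (p + 4) := h11
        _ ≤ (k : ℝ) ^ (p + 3) * ((p + 4).factorial : ℝ) * (H.card : ℝ) := h9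
        _ = (k : ℝ) ^ (p + 3) * (((p + 3).factorial : ℝ) * ∑ v, (dg H v : ℝ)) := by
          rw [h2, h4]; ring
    exact le_of_mul_le_mul_left h18 (by positivity)
  -- the end
  have hpow := TypicalH_pow hη₁0.le hη₁1.le (p + 3)
  have hfin : (1 - η ^ 2 / 3) * N ≤ N * (1 + η₁) ^ (p + 3) - M.card * η + Bd.card * C := by
    have h1 := hlow.trans hsum
    have h2 : (1 - η ^ 2 / 3) * N * D ^ (p + 3) ≤
        (N * (1 + η₁) ^ (p + 3) - M.card * η + Bd.card * C) * D ^ (p + 3) := by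
      linarith
    exact le_of_mul_le_mul_right h2 hDp
  have h1 : (Bd.card : ℝ) * C ≤ η₁ * N * C := mul_le_mul_of_nonneg_right hbad hC0.le
  have h2 : (N : ℝ) * (1 + η₁) ^ (p + 3) ≤ N * (1 + ((2 : ℝ) ^ (p + 3) - 1) * η₁) :=
    mul_le_mul_of_nonneg_left hpow hN0.le
  have h3 : (N : ℝ) * ((2 ^ (p + 3) + C) * η₁) = N * (η ^ 2 / 3) := by rw [hη₁e]
  have h4 : 0 ≤ (N : ℝ) * η₁ := by positivity
  have h5 : (M.card : ℝ) * η ≤ η * N * η := by
    have h6 : 0 ≤ (N : ℝ) * η ^ 2 := by positivity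
    nlinarith
  exact le_of_mul_le_mul_right h5 hη

end Pool.Agent.Lib.MP_455133_co.WN
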