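import Mathlib
import Pool.Agent.Lib.MP_455133_co.WN.TypicalH
import Pool.Agent.Lib.MP_455133_co.WN.Struct
import Pool.Agent.Lib.MP_455133_co.WN.Cross
import Pool.Agent.Lib.MP_455133_co.WN.Select
import Pool.Agent.Lib.MP_455133_co.WN.Parts

/-!
The stability theorem for `t = k a + 1`.
-/

namespace Pool.Agent.Lib.MP_455133_co.WN

open Finset

private theorem Stab_card {n r : ℕ} {𝒜 : Finset (Finset (Fin n))} :
    ∀ e ∈ lowerShadow r 𝒜, e.card = r := by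
  intro e he
  rw [lowerShadow, mem_filter, mem_powersetCard] at he
  exact he.1.2

private theorem Stab_hc {p a : ℕ} (hc : (p + 3) * ((p + 3) ^ 2 + 1) ≤ 2 * a ∨ 6 * (p + 3) ^ 2 ≤ a) :
    ((p + 2) * ((p + 2) ^ 2 + 1) ≤ 2 * a ∨ 6 * (p + 2) ^ 2 ≤ a) ∧ (p + 2) * (p + 3) ≤ a := by
  rcases hc with hc | hc
  · refine ⟨Or.inl (le_trans ?_ hc), ?_⟩
    · refine Nat.mul_le_mul (by omega) (Nat.add_le_add_right ?_ 1)
      exact Nat.pow_le_pow_left (by omega) 2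
    · have h1 : 2 * ((p + 2) * (p + 3)) ≤ (p + 3) * ((p + 3) ^ 2 + 1) := by nlinarith
      omega
  · refine ⟨Or.inr (le_trans ?_ hc), le_trans ?_ hc⟩
    · exact Nat.mul_le_mul_left 6 (Nat.pow_le_pow_left (by omega) 2)
    · nlinarith

/-- PROOF. Let `G`, `H` be the lower shadows for `p + 3`, `p + 4`. From `ε`: `η₁` by
`parts_of_sets`, `η₂` by `select` with `θ = η₁`, `η₃` by `cross_small` with `min η₁ η₂` in place of
`ε`, `η₄` by `local_structure` with `min 1 η₁ η₂ η₃` in place of `ε`; `typical` and `typicalH` with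
`η₅ = min η₃ η₄ (η₂ / 2) (1/2)`. The exceptional set `B` is the union of the two exceptional sets
(`(1 + η₅) ≤ (1 + η₃)` and `(1 + η₄)`); for `v ∉ B` the set `A v` is given by `local_structure`
(choice), and `cross_small` bounds the members meeting it. `select` gives `x`, apply
`parts_of_sets` to `A (x i)`. -/
theorem stability {p k a : ℕ} (hk : 1 ≤ k)
    (hc : (p + 3) * ((p + 3) ^ 2 + 1) ≤ 2 * a ∨ 6 * (p + 3) ^ 2 ≤ a) {ε : ℝ} (hε : 0 < ε) :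
    ∃ δ : ℝ, 0 < δ ∧ ∃ N₀ : ℕ, ∀ N : ℕ, N₀ ≤ N → ∀ 𝒜 : Finset (Finset (Fin N)),
      IsCovering (a + 1) (k * a + 1) 𝒜 →
      (k : ℝ) ^ (p + 2) * ((p + 3).factorial : ℝ) * ((lowerShadow (p + 3) 𝒜).card : ℝ) ≤
        (1 + δ) * (N : ℝ) ^ (p + 3) →
      ∃ P : Fin k → Finset (Fin N), (∀ i j, i ≠ j → Disjoint (P i) (P j)) ∧
        (∀ i, (1 - ε) * ((N : ℝ) / k) ≤ ((P i).card : ℝ)) ∧
        (((lowerShadow (p + 3) 𝒜).filter fun e => ∀ i, ¬ e ⊆ P i).card : ℝ) ≤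
          ε * (N : ℝ) ^ (p + 3) ∧
        (((powersetCard (p + 3) (univ : Finset (Fin N))).filter fun e =>
          e ∉ lowerShadow (p + 3) 𝒜 ∧ ∃ i, e ⊆ P i).card : ℝ) ≤ ε * (N : ℝ) ^ (p + 3) := by
  classical
  obtain ⟨hc', ha⟩ := Stab_hc hc
  obtain ⟨η₁, hη₁, hparts⟩ := parts_of_sets p k hk hε
  obtain ⟨η₂, hη₂, hsel⟩ := select p k hk hη₁
  obtain ⟨η₃, hη₃, hη₃1, hcross⟩ := cross_small p k hk (lt_min hη₁ hη₂)
  obtain ⟨ε₄, hε₄⟩ : ∃ ε₄ : ℝ, ε₄ = min 1 (min η₁ (min η₂ η₃)) := ⟨_, rfl⟩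
  have hε₄0 : 0 < ε₄ := by
    rw [hε₄]
    exact lt_min one_pos (lt_min hη₁ (lt_min hη₂ hη₃))
  have hε₄1 : ε₄ ≤ 1 := by
    rw [hε₄]
    exact min_le_left _ _
  have hε₄η₁ : ε₄ ≤ η₁ := by
    rw [hε₄]
    exact (min_le_right _ _).trans (min_le_left _ _)
  have hε₄η₂ : ε₄ ≤ η₂ := by
    rw [hε₄]
    exact (min_le_right _ _).trans ((min_le_right _ _).trans (min_le_left _ _))
  have hε₄η₃ : ε₄ ≤ η₃ := by
    rw [hε₄]
    exact (min_le_right _ _).trans ((min_le_right _ _).trans (min_le_right _ _))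
  obtain ⟨η₄, hη₄, hη₄1, hloc⟩ := local_structure p hε₄0 hε₄1
  obtain ⟨η₅, hη₅⟩ : ∃ η₅ : ℝ, η₅ = min (min η₃ η₄) (min (η₂ / 2) (1 / 2)) := ⟨_, rfl⟩
  have hη₅0 : 0 < η₅ := by
    rw [hη₅]
    exact lt_min (lt_min hη₃ hη₄) (lt_min (half_pos hη₂) (by norm_num))
  have hη₅3 : η₅ ≤ η₃ := by
    rw [hη₅]
    exact (min_le_left _ _).trans (min_le_left _ _)
  have hη₅4 : η₅ ≤ η₄ := by
    rw [hη₅]
    exact (min_le_left _ _).trans (min_le_right _ _)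
  have hη₅2 : η₅ ≤ η₂ / 2 := by
    rw [hη₅]
    exact (min_le_right _ _).trans (min_le_left _ _)
  have hη₅1 : η₅ < 1 := lt_of_le_of_lt hη₅3 hη₃1
  obtain ⟨δ₁, hδ₁, N₁, hty⟩ := typical (p := p) hk hc' ha hη₅0 hη₅1
  obtain ⟨δ₂, hδ₂, N₂, htyH⟩ := typicalH (p := p) hk hc hη₅0 hη₅1
  refine ⟨min δ₁ δ₂, lt_min hδ₁ hδ₂, max (max N₁ N₂) 1, fun N hN 𝒜 hcov hsize => ?_⟩
  have hN1 : N₁ ≤ N := (le_max_left _ _).trans ((le_max_left _ _).trans hN)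
  have hN2 : N₂ ≤ N := (le_max_right _ _).trans ((le_max_left _ _).trans hN)
  have hN0 : 0 < N := (le_max_right _ _).trans hN
  have hNR : (0 : ℝ) < N := Nat.cast_pos.2 hN0
  have hkR : (0 : ℝ) < k := Nat.cast_pos.2 hk
  have hNp : (0 : ℝ) ≤ (N : ℝ) ^ (p + 3) := by positivity
  have hs1 := hty N hN1 𝒜 hcov (hsize.trans (mul_le_mul_of_nonneg_right
    (add_le_add_right (min_le_left _ _) 1) hNp))
  have hs2 := htyH N hN2 𝒜 hcov (hsize.trans (mul_le_mul_of_nonneg_right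
    (add_le_add_right (min_le_right _ _) 1) hNp))
  obtain ⟨G, hG⟩ : ∃ G, G = lowerShadow (p + 3) 𝒜 := ⟨_, rfl⟩
  obtain ⟨H, hH⟩ : ∃ H, H = lowerShadow (p + 4) 𝒜 := ⟨_, rfl⟩
  have hGc : ∀ e ∈ G, e.card = p + 3 := by
    rw [hG]
    exact Stab_card
  have hHc : ∀ e ∈ H, e.card = p + 4 := by
    rw [hH]
    exact Stab_card
  have hHG : ∀ e ∈ H, ∀ v ∈ e, e.erase v ∈ G := by
    rw [hH, hG]
    exact shadow_erase
  rw [← hG] at hs1 ⊢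
  rw [← hH] at hs2
  obtain ⟨D, hD⟩ : ∃ D : ℝ, D = (N : ℝ) / k := ⟨_, rfl⟩
  have hD0 : 0 < D := by
    rw [hD]
    exact div_pos hNR hkR
  rw [← hD] at hs1 hs2
  -- the exceptional set
  obtain ⟨B₁, hB₁⟩ : ∃ B₁ : Finset (Fin N), B₁ = univ.filter fun v : Fin N =>
        ¬ (((1 - η₅) * D) ^ (p + 2) ≤ ((p + 2).factorial : ℝ) * (dg G v : ℝ) ∧
          ((p + 2).factorial : ℝ) * (dg G v : ℝ) ≤ ((1 + η₅) * D) ^ (p + 2)) := ⟨_, rfl⟩
  obtain ⟨B₂, hB₂⟩ : ∃ B₂ : Finset (Fin N), B₂ = univ.filter fun v : Fin N =>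
        ((p + 3).factorial : ℝ) * (dg H v : ℝ) < (1 - η₅) * D ^ (p + 3) := ⟨_, rfl⟩
  have hc1 : (B₁.card : ℝ) ≤ η₅ * N := by
    rw [hB₁]
    exact hs1
  have hc2 : (B₂.card : ℝ) ≤ η₅ * N := by
    rw [hB₂]
    exact hs2
  have hup : ∀ η : ℝ, η₅ ≤ η → ((1 + η₅) * D) ^ (p + 2) ≤ ((1 + η) * D) ^ (p + 2) := by
    intro η h
    refine pow_le_pow_left₀ (by positivity) (mul_le_mul_of_nonneg_right (by linarith) hD0.le) _
  have hv1 : ∀ v, v ∉ B₁ → ((p + 2).factorial : ℝ) * (dg G v : ℝ) ≤ ((1 + η₅) * D) ^ (p + 2) := by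
    intro v hv
    rw [hB₁, mem_filter, not_and, not_not] at hv
    exact (hv (mem_univ v)).2
  have hv2 : ∀ v, v ∉ B₂ → (1 - η₅) * D ^ (p + 3) ≤ ((p + 3).factorial : ℝ) * (dg H v : ℝ) := by
    intro v hv
    rw [hB₂, mem_filter, not_and, not_lt] at hv
    exact hv (mem_univ v)
  have hBc : ((B₁ ∪ B₂).card : ℝ) ≤ η₂ * N := by
    have h1 : ((B₁ ∪ B₂).card : ℝ) ≤ (B₁.card : ℝ) + (B₂.card : ℝ) := by
      exact_mod_cast card_union_le B₁ B₂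
    have h2 : η₅ * N ≤ η₂ / 2 * N := mul_le_mul_of_nonneg_right hη₅2 hNR.le
    linarith
  have hD3 : 0 ≤ D ^ (p + 3) := by positivity
  have hA : ∀ v : Fin N, ∃ A : Finset (Fin N), v ∉ B₁ ∪ B₂ → (A.card : ℝ) ≤ (1 + ε₄) * D ∧
      (1 - ε₄) * D ^ (p + 3) ≤ ((p + 3).factorial : ℝ) * ((G.filter fun e => e ⊆ A).card : ℝ) ∧
      ∀ u ∈ A, (D / 2) ^ (p + 1) ≤ ((p + 1).factorial : ℝ) * (cd G u v : ℝ) := by
    intro v
    by_cases hv : v ∈ B₁ ∪ B₂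
    · exact ⟨∅, fun h => absurd hv h⟩
    · rw [mem_union, not_or] at hv
      obtain ⟨A, hA⟩ := hloc N G H hGc hHc hHG v D hD0 ((hv1 v hv.1).trans (hup η₄ hη₅4))
        ((mul_le_mul_of_nonneg_right (by linarith) hD3).trans (hv2 v hv.2))
      exact ⟨A, fun _ => hA⟩
  choose A hA using hA
  have hle : ∀ η : ℝ, ε₄ ≤ η → (1 + ε₄) * D ≤ (1 + η) * D := fun η h =>
    mul_le_mul_of_nonneg_right (by linarith) hD0.le
  have hge : ∀ η : ℝ, ε₄ ≤ η → (1 - η) * D ^ (p + 3) ≤ (1 - ε₄) * D ^ (p + 3) := fun η h =>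
    mul_le_mul_of_nonneg_right (by linarith) hD3
  have hB3 : ((univ.filter fun v : Fin N => ((1 + η₃) * ((N : ℝ) / k)) ^ (p + 2) <
      ((p + 2).factorial : ℝ) * (dg G v : ℝ)).card : ℝ) ≤ η₃ * N := by
    have h1 : (univ.filter fun v : Fin N => ((1 + η₃) * ((N : ℝ) / k)) ^ (p + 2) <
        ((p + 2).factorial : ℝ) * (dg G v : ℝ)) ⊆ B₁ := by
      intro v hv
      rw [mem_filter, ← hD] at hv
      by_contra h
      exact absurd ((hv1 v h).trans (hup η₃ hη₅3)) (not_le.2 hv.2)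
    refine (Nat.cast_le.2 (card_le_card h1)).trans (hc1.trans ?_)
    exact mul_le_mul_of_nonneg_right hη₅3 hNR.le
  have hcr : ∀ v, v ∉ B₁ ∪ B₂ → ((G.filter fun e => (e ∩ A v).Nonempty ∧ ¬ e ⊆ A v).card : ℝ) ≤
      min η₁ η₂ * (N : ℝ) ^ (p + 3) := by
    intro v hv
    obtain ⟨h1, h2, -⟩ := hA v hv
    refine hcross N G hN0 hGc hB3 (A v) ?_ ?_
    · rw [← hD]
      exact h1.trans (hle η₃ hε₄η₃)
    · rw [← hD]
      exact (hge η₃ hε₄η₃).trans h2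
  obtain ⟨x, hxB, hxx⟩ := hsel N G (B₁ ∪ B₂) A hN0 hGc hBc
    (fun v hv => by
      rw [← hD]
      exact (hA v hv).1.trans (hle η₂ hε₄η₂))
    (fun v hv => (hcr v hv).trans (mul_le_mul_of_nonneg_right (min_le_right _ _) hNp))
    (fun v hv u hu => by
      rw [← hD]
      exact (hA v hv).2.2 u hu)
  exact hparts N G (fun i => A (x i)) hN0 hGc
    (fun i => by
      rw [← hD]
      exact (hA (x i) (hxB i)).1.trans (hle η₁ hε₄η₁))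
    (fun i => by
      rw [← hD]
      exact (hge η₁ hε₄η₁).trans (hA (x i) (hxB i)).2.1)
    (fun i => (hcr (x i) (hxB i)).trans (mul_le_mul_of_nonneg_right (min_le_left _ _) hNp)) hxx

end Pool.Agent.Lib.MP_455133_co.WN
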