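import Mathlib
import Pool.Agent.Lib.MP_455133_co.WN.Bounds
import Pool.Agent.Lib.MP_455133_co.WN.Stab

/-!
The stability theorem for `t = k a + b`.
-/

namespace Pool.Agent.Lib.MP_455133_co.WN

open Finset

theorem aux_pow (η : ℝ) (hη : 0 < η) (m c : ℕ) :
    ∃ n₁ : ℕ, ∀ n : ℕ, n₁ ≤ n → ∀ N : ℕ, n ≤ N + m →
      (1 - η) * (n : ℝ) ^ c ≤ (N : ℝ) ^ c := by
  obtain ⟨n₂, hn₂⟩ := exists_nat_gt ((c : ℝ) * m / η)
  refine ⟨n₂ + m + 1, fun n hn N hN => ?_⟩
  have h1 : (c : ℝ) * m / η < n := lt_of_lt_of_le hn₂ (by exact_mod_cast (by omega : n₂ ≤ n))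
  have hnpos : (0 : ℝ) < n := by exact_mod_cast (by omega : 0 < n)
  have h2 : (c : ℝ) * m < η * n := by
    rw [div_lt_iff₀ hη] at h1; linarith
  have hmn : (m : ℝ) ≤ n := by exact_mod_cast (by omega : m ≤ n)
  have hN' : (n : ℝ) - m ≤ N := by
    have : (n : ℝ) ≤ N + m := by exact_mod_cast hN
    linarith
  have h3 : ((n : ℝ) - m) ^ c ≤ (N : ℝ) ^ c := pow_le_pow_left₀ (by linarith) hN' c
  have h4 : (n : ℝ) - m = n * (1 + (-((m : ℝ) / n))) := by field_simp; ring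
  have h6 : (m : ℝ) / n ≤ 1 := by rw [div_le_one hnpos]; exact hmn
  have h5 : 1 + (c : ℝ) * (-((m : ℝ) / n)) ≤ (1 + (-((m : ℝ) / n))) ^ c :=
    one_add_mul_le_pow (by linarith) c
  have h7 : (c : ℝ) * ((m : ℝ) / n) ≤ η := by
    rw [← mul_div_assoc, div_le_iff₀ hnpos]; exact h2.le
  have h8 : (1 - η) * (n : ℝ) ^ c ≤ ((n : ℝ) - m) ^ c := by
    rw [h4, mul_pow, mul_comm]
    exact mul_le_mul_of_nonneg_left (by linarith) (by positivity)
  exact h8.trans h3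

theorem stab_conv {p k a' : ℕ} (hk : 1 ≤ k)
    (hc : (p + 3) * ((p + 3) ^ 2 + 1) ≤ 2 * a' ∨ 6 * (p + 3) ^ 2 ≤ a')
    {ε : ℝ} (hε : 0 < ε) (m : ℕ) :
    ∃ n₀ : ℕ, ∀ n : ℕ, n₀ ≤ n → ∀ 𝒜 : Finset (Finset (Fin n)),
      ∀ W : Finset (Fin n), n ≤ W.card + m →
      (∀ T ⊆ W, T.card = k * a' + 1 → ∃ A ∈ 𝒜, a' + 1 ≤ (T ∩ A).card) →
      (lowerShadow (p + 3) 𝒜).card ≤ bal k n (p + 3) →
      ∃ P : Fin k → Finset (Fin n), (∀ i j, i ≠ j → Disjoint (P i) (P j)) ∧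
        (∀ i, (1 - ε) * ((n : ℝ) / k) ≤ ((P i).card : ℝ)) ∧
        (((lowerShadow (p + 3) 𝒜).filter fun e => ∀ i, ¬ e ⊆ P i).card : ℝ) ≤
          ε * (n : ℝ) ^ (p + 3) ∧
        (((powersetCard (p + 3) (univ : Finset (Fin n))).filter fun e =>
          e ∉ lowerShadow (p + 3) 𝒜 ∧ ∃ i, e ⊆ P i).card : ℝ) ≤ ε * (n : ℝ) ^ (p + 3) := by
  obtain ⟨δ, hδ, N₀, hN₀⟩ := stability (p := p) (a := a') hk hc (ε := ε / 4) (by positivity)
  -- large n
  obtain ⟨n₁, hn₁⟩ := aux_pow (δ / (1 + δ)) (by positivity) m (p + 3)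
  obtain ⟨n₂, hn₂⟩ := aux_pow (ε / 4) (by positivity) (m + k * (p + 3)) (p + 3)
  obtain ⟨n₃, hn₃⟩ := aux_pow (ε / 4) (by positivity) m 1
  refine ⟨n₁ + n₂ + n₃ + N₀ + m + k * ((a' - 1) / (p + 2) + a'),
    fun n hn 𝒜 W hW hT hG => ?_⟩
  obtain ⟨φ, 𝒜', hφ, hcov, hsh⟩ := transport hT
  have hNn : W.card ≤ n := by
    have := Finset.card_le_univ W
    simpa using this
  obtain ⟨N, hN⟩ : ∃ N, N = W.card := ⟨_, rfl⟩
  have hNnR : (W.card : ℝ) ≤ n := by exact_mod_cast hNn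
  have hkR : (1 : ℝ) ≤ k := by exact_mod_cast hk
  have hinj : Function.Injective fun e : Finset (Fin W.card) => e.map φ :=
    Finset.map_injective φ
  have himg : (lowerShadow (p + 3) 𝒜').image (fun e => e.map φ) ⊆ lowerShadow (p + 3) 𝒜 := by
    intro e he
    obtain ⟨e', he', rfl⟩ := mem_image.mp he
    exact hsh _ e' he'
  have hcardimg : ((lowerShadow (p + 3) 𝒜').image (fun e => e.map φ)).card =
      (lowerShadow (p + 3) 𝒜').card := card_image_of_injective _ hinj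
  have hle : (lowerShadow (p + 3) 𝒜').card ≤ (lowerShadow (p + 3) 𝒜).card := by
    rw [← hcardimg]; exact card_le_card himg
  have hup : (k : ℝ) ^ (p + 2) * ((p + 3).factorial : ℝ) * (bal k n (p + 3) : ℝ) ≤
      (n : ℝ) ^ (p + 3) := by
    have := bal_upper hk n (p + 2)
    exact_mod_cast this
  have hdens : (k : ℝ) ^ (p + 2) * ((p + 3).factorial : ℝ) *
      ((lowerShadow (p + 3) 𝒜').card : ℝ) ≤ (1 + δ) * (W.card : ℝ) ^ (p + 3) := by
    have h1 : ((lowerShadow (p + 3) 𝒜').card : ℝ) ≤ (bal k n (p + 3) : ℝ) := by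
      exact_mod_cast hle.trans hG
    have h2 := hn₁ n (by omega) W.card hW
    have h3 : (1 - δ / (1 + δ)) = 1 / (1 + δ) := by field_simp; ring
    rw [h3] at h2
    have h4 : (n : ℝ) ^ (p + 3) ≤ (1 + δ) * (W.card : ℝ) ^ (p + 3) := by
      have h5 : (0 : ℝ) < 1 + δ := by linarith
      rw [div_mul_eq_mul_div, one_mul, div_le_iff₀ h5] at h2
      linarith
    refine le_trans ?_ (hup.trans h4)
    exact mul_le_mul_of_nonneg_left h1 (by positivity)
  obtain ⟨P', hP1, hP2, hP3, hP4⟩ := hN₀ W.card (by omega) 𝒜' hcov hdens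
  -- the difference of the shadows
  have hex : bal k W.card (p + 3) ≤ (lowerShadow (p + 3) 𝒜').card := by
    have h1 := f_le (r := p + 3) hcov
    have h2 := LS.turan_exact2 (n := W.card) (r := p + 3) (s := a' + 1) (k := k) (by omega)
      (by
        have e1 : p + 3 - 1 = p + 2 := by omega
        have e2 : a' + 1 - 1 = a' := by omega
        rw [e1, e2]
        rcases hc with h | h
        · left
          refine le_trans ?_ h
          gcongr <;> omega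
        · right
          refine le_trans ?_ h
          gcongr
          omega) hk
      (by
        have e1 : p + 3 - 1 = p + 2 := by omega
        have e2 : a' + 1 - 1 = a' := by omega
        have e3 : a' + 1 - 2 = a' - 1 := by omega
        rw [e1, e2, e3]
        omega)
    have e2 : a' + 1 - 1 = a' := by omega
    rw [e2] at h2
    rw [h2] at h1
    exact h1
  have hdiff : ((lowerShadow (p + 3) 𝒜).card : ℝ) - ((lowerShadow (p + 3) 𝒜').card : ℝ) ≤
      ε / 4 * (n : ℝ) ^ (p + 3) := by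
    have h1 := bal_lower hk W.card (p + 2)
    have h2 : ((W.card - k * (p + 3) : ℕ) : ℝ) ^ (p + 3) ≤
        (k : ℝ) ^ (p + 2) * ((p + 3).factorial : ℝ) * (bal k W.card (p + 3) : ℝ) := by
      exact_mod_cast h1
    have h3 := hn₂ n (by omega) (W.card - k * (p + 3)) (by omega)
    have h4 : (1 : ℝ) ≤ (k : ℝ) ^ (p + 2) * ((p + 3).factorial : ℝ) := by
      have : (1 : ℝ) ≤ ((p + 3).factorial : ℝ) := by
        exact_mod_cast Nat.one_le_iff_ne_zero.mpr (Nat.factorial_ne_zero _)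
      exact one_le_mul_of_one_le_of_one_le (one_le_pow₀ hkR) this
    have h5 : ((lowerShadow (p + 3) 𝒜).card : ℝ) ≤ (bal k n (p + 3) : ℝ) := by
      exact_mod_cast hG
    have h6 : (bal k W.card (p + 3) : ℝ) ≤ ((lowerShadow (p + 3) 𝒜').card : ℝ) := by
      exact_mod_cast hex
    have h7 : (0 : ℝ) ≤ ((lowerShadow (p + 3) 𝒜).card : ℝ) -
        ((lowerShadow (p + 3) 𝒜').card : ℝ) := by
      have : ((lowerShadow (p + 3) 𝒜').card : ℝ) ≤ ((lowerShadow (p + 3) 𝒜).card : ℝ) := by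
        exact_mod_cast hle
      linarith
    have h8 : ((lowerShadow (p + 3) 𝒜).card : ℝ) - ((lowerShadow (p + 3) 𝒜').card : ℝ) ≤
        ((k : ℝ) ^ (p + 2) * ((p + 3).factorial : ℝ)) *
          ((bal k n (p + 3) : ℝ) - (bal k W.card (p + 3) : ℝ)) := by
      have h9 : ((lowerShadow (p + 3) 𝒜).card : ℝ) - ((lowerShadow (p + 3) 𝒜').card : ℝ) ≤
        (bal k n (p + 3) : ℝ) - (bal k W.card (p + 3) : ℝ) := by linarith
      refine h9.trans ?_
      exact le_mul_of_one_le_left (h7.trans h9) h4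
    nlinarith [h8, hup, h2, h3]
  have hWpow : (W.card : ℝ) ^ (p + 3) ≤ (n : ℝ) ^ (p + 3) :=
    pow_le_pow_left₀ (by positivity) hNnR _
  have hnpow : (0 : ℝ) ≤ (n : ℝ) ^ (p + 3) := by positivity
  refine ⟨fun i => (P' i).map φ, ?_, ?_, ?_, ?_⟩
  · intro i j hij
    exact (Finset.disjoint_map φ).mpr (hP1 i j hij)
  · intro i
    rw [card_map]
    rcases le_or_gt 1 ε with h | h
    · have : (1 - ε) * ((n : ℝ) / k) ≤ 0 :=
        mul_nonpos_of_nonpos_of_nonneg (by linarith) (by positivity)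
      exact this.trans (by positivity)
    · refine le_trans ?_ (hP2 i)
      have h1 := hn₃ n (by omega) W.card hW
      rw [pow_one, pow_one] at h1
      rw [← mul_div_assoc, ← mul_div_assoc]
      refine div_le_div_of_nonneg_right ?_ (by positivity)
      have h2 : (1 - ε / 4) * ((1 - ε / 4) * (n : ℝ)) ≤ (1 - ε / 4) * (W.card : ℝ) :=
        mul_le_mul_of_nonneg_left h1 (by linarith)
      refine le_trans ?_ h2
      have h3 : (0 : ℝ) ≤ n := by positivity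
      nlinarith [mul_nonneg hε.le h3, mul_nonneg (mul_nonneg hε.le hε.le) h3]
  · have hsub : ((lowerShadow (p + 3) 𝒜).filter fun e => ∀ i, ¬ e ⊆ (P' i).map φ) ⊆
        (((lowerShadow (p + 3) 𝒜').filter fun e => ∀ i, ¬ e ⊆ P' i).image fun e => e.map φ) ∪
        (lowerShadow (p + 3) 𝒜 \ (lowerShadow (p + 3) 𝒜').image (fun e => e.map φ)) := by
      intro e he
      obtain ⟨he1, he2⟩ := mem_filter.mp he
      by_cases h : e ∈ (lowerShadow (p + 3) 𝒜').image (fun e => e.map φ)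
      · obtain ⟨e', he', rfl⟩ := mem_image.mp h
        refine mem_union_left _ (mem_image.mpr ⟨e', mem_filter.mpr ⟨he', fun i hi => ?_⟩, rfl⟩)
        exact he2 i (map_subset_map.mpr hi)
      · exact mem_union_right _ (mem_sdiff.mpr ⟨he1, h⟩)
    have h1 := (card_le_card hsub).trans (card_union_le _ _)
    rw [card_image_of_injective _ hinj, card_sdiff_of_subset himg, hcardimg] at h1
    have h2 : ((((lowerShadow (p + 3) 𝒜).filter fun e => ∀ i, ¬ e ⊆ (P' i).map φ).card : ℕ) : ℝ) ≤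
        (((lowerShadow (p + 3) 𝒜').filter fun e => ∀ i, ¬ e ⊆ P' i).card : ℝ) +
        (((lowerShadow (p + 3) 𝒜).card : ℝ) - ((lowerShadow (p + 3) 𝒜').card : ℝ)) := by
      have h3 : ((((lowerShadow (p + 3) 𝒜).filter fun e => ∀ i, ¬ e ⊆ (P' i).map φ).card : ℕ) : ℝ)
          ≤ (((((lowerShadow (p + 3) 𝒜').filter fun e => ∀ i, ¬ e ⊆ P' i).card) +
            ((lowerShadow (p + 3) 𝒜).card - (lowerShadow (p + 3) 𝒜').card) : ℕ) : ℝ) := by
        exact_mod_cast h1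
      rw [Nat.cast_add, Nat.cast_sub hle] at h3
      exact h3
    nlinarith [h2, hP3, hdiff, mul_le_mul_of_nonneg_left hWpow (by positivity : (0 : ℝ) ≤ ε / 4),
      mul_nonneg hε.le hnpow]
  · have hsub : ((powersetCard (p + 3) (univ : Finset (Fin n))).filter fun e =>
          e ∉ lowerShadow (p + 3) 𝒜 ∧ ∃ i, e ⊆ (P' i).map φ) ⊆
        (((powersetCard (p + 3) (univ : Finset (Fin W.card))).filter fun e =>
          e ∉ lowerShadow (p + 3) 𝒜' ∧ ∃ i, e ⊆ P' i).image fun e => e.map φ) := by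
      intro e he
      obtain ⟨he1, he2, i, hi⟩ := mem_filter.mp he
      obtain ⟨e', he', rfl⟩ := Finset.subset_map_iff.mp hi
      refine mem_image.mpr ⟨e', mem_filter.mpr ⟨?_, fun h => he2 (hsh _ e' h), i, he'⟩, rfl⟩
      rw [mem_powersetCard] at he1 ⊢
      exact ⟨subset_univ _, by rw [← he1.2, card_map]⟩
    have h1 := card_le_card hsub
    rw [card_image_of_injective _ hinj] at h1
    have h2 : ((((powersetCard (p + 3) (univ : Finset (Fin n))).filter fun e =>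
          e ∉ lowerShadow (p + 3) 𝒜 ∧ ∃ i, e ⊆ (P' i).map φ).card : ℕ) : ℝ) ≤
        (((powersetCard (p + 3) (univ : Finset (Fin W.card))).filter fun e =>
          e ∉ lowerShadow (p + 3) 𝒜' ∧ ∃ i, e ⊆ P' i).card : ℝ) := by
      exact_mod_cast h1
    nlinarith [h2, hP4, mul_le_mul_of_nonneg_left hWpow (by positivity : (0 : ℝ) ≤ ε / 4),
      mul_nonneg hε.le hnpow]

/-- PROOF. `exists_window` gives `a' ≥ a₀` (`a' = a₀` or `a' = a - (b-1) a₀ ≥ a₀`), `W`, `N = |W| ≥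
n - (b-1) (k a₀ + 1)`, `transport` gives `φ`, `𝒜'`. Let `G`, `G'` be the `(p+3)`-shadows of `𝒜`,
`𝒜'`, `δ`, `N₀` (for the two values of `a'`, take min and max) from `stability` with `ε' = ε / 4`.
`|G'| ≤ |G| ≤ bal k n (p+3)`, so by `bal_upper` `k ^ (p+2) (p+3)! |G'| ≤ n ^ (p+3) ≤
(1 + δ) N ^ (p+3)` for large `n`. Take `P i = (P' i).map φ`. Members of `G` inside no `P i`:
either `e = e'.map φ` with `e' ∈ G'` inside no `P' i` (at most `ε' N ^ (p+3)`), or a member of `G`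
which is no image of a member of `G'`: at most `|G| - |G'| ≤ bal k n (p+3) - bal k N (p+3)`
(`LS.turan_exact2`), which is at most `(n ^ (p+3) - (N - k (p+3)) ^ (p+3)) ≤ ε' n ^ (p+3)` by
`bal_upper`, `bal_lower` for large `n`. Missing sets inside `P i` are images of missing sets. -/
theorem stability_n {p k a b a₀ : ℕ} (hk : 1 ≤ k) (hb : 1 ≤ b)
    (hc : (p + 3) * ((p + 3) ^ 2 + 1) ≤ 2 * a₀ ∨ 6 * (p + 3) ^ 2 ≤ a₀) (hab : b * a₀ ≤ a)
    {ε : ℝ} (hε : 0 < ε) :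
    ∃ n₀ : ℕ, ∀ n : ℕ, n₀ ≤ n → ∀ 𝒜 : Finset (Finset (Fin n)),
      IsCovering (a + 1) (k * a + b) 𝒜 → (lowerShadow (p + 3) 𝒜).card ≤ bal k n (p + 3) →
      ∃ P : Fin k → Finset (Fin n), (∀ i j, i ≠ j → Disjoint (P i) (P j)) ∧
        (∀ i, (1 - ε) * ((n : ℝ) / k) ≤ ((P i).card : ℝ)) ∧
        (((lowerShadow (p + 3) 𝒜).filter fun e => ∀ i, ¬ e ⊆ P i).card : ℝ) ≤
          ε * (n : ℝ) ^ (p + 3) ∧
        (((powersetCard (p + 3) (univ : Finset (Fin n))).filter fun e =>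
          e ∉ lowerShadow (p + 3) 𝒜 ∧ ∃ i, e ⊆ P i).card : ℝ) ≤ ε * (n : ℝ) ^ (p + 3) := by
  have ha' : a₀ ≤ a - (b - 1) * a₀ := by
    obtain ⟨b', rfl⟩ : ∃ b', b = b' + 1 := ⟨b - 1, by omega⟩
    have e1 : b' + 1 - 1 = b' := by omega
    rw [e1]
    have : (b' + 1) * a₀ = b' * a₀ + a₀ := by ring
    omega
  have hc' : (p + 3) * ((p + 3) ^ 2 + 1) ≤ 2 * (a - (b - 1) * a₀) ∨
      6 * (p + 3) ^ 2 ≤ a - (b - 1) * a₀ := by
    rcases hc with h | h
    · left; omega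
    · right; omega
  obtain ⟨n₁, hn₁⟩ := stab_conv (p := p) (a' := a₀) hk hc hε ((b - 1) * (k * a₀ + 1))
  obtain ⟨n₂, hn₂⟩ := stab_conv (p := p) (a' := a - (b - 1) * a₀) hk hc' hε
    ((b - 1) * (k * a₀ + 1))
  refine ⟨n₁ + n₂, fun n hn 𝒜 hcov hG => ?_⟩
  obtain ⟨a', ha, W, hW, hT⟩ := exists_window hb hab hcov
  rcases ha with rfl | rfl
  · exact hn₁ n (by omega) 𝒜 W hW hT hG
  · exact hn₂ n (by omega) 𝒜 W hW hT hG

end Pool.Agent.Lib.MP_455133_co.WN
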