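import Mathlib
import Pool.Agent.Lib.MP_455133_co.WN.StabN
import Pool.Agent.Lib.MP_455133_co.WN.Emb
import Pool.Agent.Lib.MP_455133_co.WN.Refine
import Pool.Agent.Lib.MP_455133_co.WN.Count

/-!
The exact value for large `n` in the windows.
-/

namespace Pool.Agent.Lib.MP_455133_co.WN

open Finset

private theorem Exact_choose {p k b n : ℕ} (hk : 1 ≤ k) (hn : 2 * (b + k * (p + 2)) ≤ n) :
    1 / ((p + 2).factorial * (4 * (k : ℝ)) ^ (p + 2)) * (n : ℝ) ^ (p + 2) ≤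
      (((n - (b - 1)) / k).choose (p + 2) : ℝ) := by
  set q : ℕ := (n - (b - 1)) / k with hq
  have h1 : (q + 1 - (p + 2)) ^ (p + 2) ≤ q.descFactorial (p + 2) := Nat.pow_sub_le_descFactorial q (p + 2)
  have h2 : q.descFactorial (p + 2) = (p + 2).factorial * q.choose (p + 2) := Nat.descFactorial_eq_factorial_mul_choose q (p + 2)
  have h3 : n ≤ k * q + k + (b - 1) := by
    have h4 := Nat.div_add_mod (n - (b - 1)) k
    have h5 := Nat.mod_lt (n - (b - 1)) (by omega : 0 < k)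
    rw [← hq] at h4
    omega
  clear_value q
  have h6 : n ≤ 4 * k * (q + 1 - (p + 2)) := by
    have hkp : 0 ≤ k * p := Nat.zero_le _
    have hb1 : b - 1 ≤ b := Nat.sub_le _ _
    have h7 : k * (p + 2) ≤ k * q := by linarith
    have h8 : p + 2 ≤ q := Nat.le_of_mul_le_mul_left h7 (by omega)
    obtain ⟨m, hm⟩ := Nat.exists_eq_add_of_le h8
    rw [hm] at h3
    rw [show q + 1 - (p + 2) = m + 1 by omega]
    have hkm : 0 ≤ k * m := Nat.zero_le _
    linarith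
  have h7 : (n : ℝ) ≤ 4 * (k : ℝ) * ((q + 1 - (p + 2) : ℕ) : ℝ) := by exact_mod_cast h6
  have h8 : (n : ℝ) ^ (p + 2) ≤ (4 * (k : ℝ)) ^ (p + 2) * (((p + 2).factorial : ℝ) * (q.choose (p + 2) : ℝ)) := by
    refine (pow_le_pow_left₀ (by positivity) h7 _).trans ?_
    rw [mul_pow]
    refine mul_le_mul_of_nonneg_left ?_ (by positivity)
    rw [h2] at h1
    exact_mod_cast h1
  have hk0 : (0 : ℝ) < k := by exact_mod_cast hk
  rw [one_div, inv_mul_le_iff₀ (by positivity)]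
  refine h8.trans (le_of_eq ?_)
  ring

/-- PROOF. `≤`: `window_upper`. `≥`: let `𝒜` be optimal (`f_spec`), `G` its `(p+3)`-shadow,
`|G| = f ≤ bal k (n-(b-1)) (p+3) ≤ bal k n (p+3)`. `emb` gives `δ₂` (`(p+3) (b+1) ≤ a + 1` as
`2 (p+3) ≤ a₀`), choose `δ` with `2 (p+3) δ ≤ δ₂` and so small that the hypothesis `hn` of
`final_count` holds for large `n` (`(q - (p+1)) ^ (p+2) ≤ (p+2)! C(q, p+2)`, `q ≥ n / (2k)`). `emb`
for `δ` and for `δ / 2` gives `ε₁`, `ε₂`; `refine_parts` with `ε' = ε₂` gives `ε₃`; `stability_n`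
with `ε = min ε₁ ε₃ (1/2)` gives `P`. Let `J` be the set of the `v` with
`|miss v i| ≥ δ n ^ (p+2)` for all `i`; `emb` with `M = ∅` for `P` (for all subsets of `J`): `|J| < b`
(`cross G P` is a subset of the members inside no part). `refine_parts` gives `P'`, `emb` (for
`δ / 2`, `P'`, `J`) gives the hypothesis `hM` of `final_count` (members of `M` are inside the parts,
so disjoint from `J`). The covering property of `G` for `emb`: every `T` with `k a + b` points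
contains a member of `𝒜`, all of whose `(p+3)`-subsets are in `G`. -/
theorem exact_n {p k a b a₀ : ℕ} (hk : 1 ≤ k) (hb : 1 ≤ b)
    (hc : (p + 3) * ((p + 3) ^ 2 + 1) ≤ 2 * a₀ ∨ 6 * (p + 3) ^ 2 ≤ a₀) (hab : b * a₀ ≤ a) :
    ∃ n₀ : ℕ, ∀ n : ℕ, n₀ ≤ n →
      f n (p + 3) (a + 1) (k * a + b) = bal k (n - (b - 1)) (p + 3) := by
  classical
  have ha₀ : 2 * (p + 3) ≤ a₀ := by
    rcases hc with h | h
    · nlinarith
    · nlinarith
  have hab' : (p + 3) * (b + 1) ≤ a + 1 := by nlinarith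
  obtain ⟨δ₂, hδ₂, hemb⟩ := emb p k a b hk hab'
  have hk0 : (0 : ℝ) < k := by exact_mod_cast hk
  set c₀ : ℝ := 1 / ((p + 2).factorial * (4 * (k : ℝ)) ^ (p + 2)) with hc₀
  have hc₀' : 0 < c₀ := by positivity
  set δ : ℝ := min (δ₂ / (2 * ((p : ℝ) + 3))) (c₀ / (2 * ((p : ℝ) + 3))) with hδd
  have hp3 : (0 : ℝ) < 2 * ((p : ℝ) + 3) := by positivity
  have hδ : 0 < δ := lt_min (div_pos hδ₂ hp3) (div_pos hc₀' hp3)
  have hδa : 2 * ((p : ℝ) + 3) * δ ≤ δ₂ := by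
    have h1 : δ ≤ δ₂ / (2 * ((p : ℝ) + 3)) := min_le_left _ _
    rw [le_div_iff₀ hp3] at h1
    linarith
  have hδb : 2 * ((p : ℝ) + 3) * δ ≤ c₀ := by
    have h1 : δ ≤ c₀ / (2 * ((p : ℝ) + 3)) := min_le_right _ _
    rw [le_div_iff₀ hp3] at h1
    linarith
  obtain ⟨ε₁, hε₁, n₁, h₁⟩ := hemb δ hδ
  obtain ⟨ε₂, hε₂, n₂, h₂⟩ := hemb (δ / 2) (by positivity)
  obtain ⟨ε₃, hε₃, n₃, h₃⟩ := refine_parts p k b hk hδ hε₂
  obtain ⟨n₄, h₄⟩ := stability_n hk hb hc hab (ε := min (min ε₁ ε₃) (1 / 2)) (by positivity)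
  refine ⟨n₁ + n₂ + n₃ + n₄ + 2 * (b + k * (p + 2)), fun n hn => le_antisymm ?_ ?_⟩
  · exact window_upper hk hb (by omega)
  obtain ⟨𝒜, hcov, hf⟩ := f_spec (n := n) (r := p + 3) (s := a + 1) (t := k * a + b) (by nlinarith)
  have hup : f n (p + 3) (a + 1) (k * a + b) ≤ bal k (n - (b - 1)) (p + 3) :=
    window_upper hk hb (by omega)
  rw [hf] at hup ⊢
  obtain ⟨P, hP, hPs, hPo, hPm⟩ := h₄ n (by omega) 𝒜 hcov
    (hup.trans (bal_mono hk (Nat.sub_le _ _) (p + 2)))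
  set G : Finset (Finset (Fin n)) := lowerShadow (p + 3) 𝒜 with hGd
  have hG : ∀ e ∈ G, e.card = p + 3 := fun e he => by
    rw [hGd, lowerShadow, mem_filter] at he
    exact (mem_powersetCard.1 he.1).2
  have hT : ∀ T : Finset (Fin n), T.card = k * a + b →
      ∃ S ⊆ T, S.card = a + 1 ∧ ∀ R ⊆ S, R.card = p + 3 → R ∈ G := by
    intro T hT
    obtain ⟨A, hA, hAT⟩ := hcov.2 T hT
    refine ⟨A, hAT, hcov.1 A hA, fun R hR hRc => ?_⟩
    rw [hGd, lowerShadow, mem_filter]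
    exact ⟨mem_powersetCard.2 ⟨subset_univ _, hRc⟩, A, hA, hR⟩
  have hpow : (0 : ℝ) ≤ (n : ℝ) ^ (p + 3) := by positivity
  have hnk : (0 : ℝ) ≤ (n : ℝ) / k := by positivity
  have hεa : min (min ε₁ ε₃) (1 / 2) ≤ ε₁ := (min_le_left _ _).trans (min_le_left _ _)
  have hεb : min (min ε₁ ε₃) (1 / 2) ≤ ε₃ := (min_le_left _ _).trans (min_le_right _ _)
  have hεc : min (min ε₁ ε₃) (1 / 2) ≤ (1 / 2 : ℝ) := min_le_right _ _
  set J : Finset (Fin n) := univ.filter fun v => ∀ i, δ * (n : ℝ) ^ (p + 2) ≤ ((miss (p + 2) G P v i).card : ℝ)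
    with hJd
  have hJ : ∀ v, v ∈ J ↔ ∀ i, δ * (n : ℝ) ^ (p + 2) ≤ ((miss (p + 2) G P v i).card : ℝ) := fun v => by
    rw [hJd, mem_filter]
    exact ⟨fun h => h.2, fun h => ⟨mem_univ _, h⟩⟩
  have hJb : J.card < b := by
    have hcr : ((cross G P).card : ℝ) ≤ ε₁ * (n : ℝ) ^ (p + 3) := by
      have h5 : (cross G P).card ≤ (G.filter fun e => ∀ i, ¬ e ⊆ P i).card := by
        refine card_le_card fun e he => ?_
        rw [cross, mem_filter] at he
        exact mem_filter.2 ⟨he.1, he.2.2⟩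
      have h6 : ((cross G P).card : ℝ) ≤ ((G.filter fun e => ∀ i, ¬ e ⊆ P i).card : ℝ) := by exact_mod_cast h5
      exact h6.trans (hPo.trans (mul_le_mul_of_nonneg_right hεa hpow))
    have h5 := h₁ n (by omega) G P hG hP (fun i => by
      have h7 := hPs i
      have h8 : (1 / 2 : ℝ) * ((n : ℝ) / k) ≤ ((P i).card : ℝ) :=
        (mul_le_mul_of_nonneg_right (by linarith) hnk).trans h7
      have h9 : (n : ℝ) = 2 * k * ((1 / 2 : ℝ) * ((n : ℝ) / k)) := by
        field_simp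
      calc (n : ℝ) = 2 * k * ((1 / 2 : ℝ) * ((n : ℝ) / k)) := h9
        _ ≤ 2 * k * ((P i).card : ℝ) := mul_le_mul_of_nonneg_left h8 (by positivity)) hcr hT J ∅
      (fun u hu i => (hJ u).1 hu i) (fun e he => absurd he (notMem_empty e))
      (fun e he => absurd he (notMem_empty e)) (fun e he => absurd he (notMem_empty e))
    rwa [card_empty, add_zero] at h5
  obtain ⟨P', hP', hPJ, hPs', hcr', hlow, hJ'⟩ := h₃ n (by omega) G P hG hP
    (fun i => (mul_le_mul_of_nonneg_right (by linarith) hnk).trans (hPs i))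
    (hPo.trans (mul_le_mul_of_nonneg_right hεb hpow)) (hPm.trans (mul_le_mul_of_nonneg_right hεb hpow)) J hJ hJb.le
  refine final_count hk (by omega) hδ hδa ?_ hG hP' hPJ hlow fun M hM1 hM2 => ?_
  · refine le_trans ?_ (Exact_choose (b := b) hk (by omega : 2 * (b + k * (p + 2)) ≤ n))
    exact mul_le_mul_of_nonneg_right hδb (by positivity)
  · refine h₂ n (by omega) G P' hG hP' hPs' hcr' hT J M (fun u hu i => hJ' u hu i) hM1 hM2 fun e he => ?_
    obtain ⟨-, -, ⟨i, hi⟩, -⟩ := hM1 e he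
    rw [Finset.disjoint_left]
    intro x hx hxJ
    have h5 : x ∈ univ.biUnion P' := mem_biUnion.2 ⟨i, mem_univ _, hi hx⟩
    rw [hPJ, mem_sdiff] at h5
    exact h5.2 hxJ

end Pool.Agent.Lib.MP_455133_co.WN
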